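import Pool.Agent.Lib.MP_1620fb_al.Bas

/-!
# JOB Box: counting elements of `ℤ[√2]`

* `box_lower`: for `y : ℤ` put `a_y = ⟨round (-(t y)), y⟩`: `|em t a_y| = |x + y t| ≤ 1/2` (`abs_sub_round`), and
  `|em (-t) a_y| = |x - y t| ≤ 1/2 + 2 |t| |y| ≤ Z` when `|y| ≤ (Z - 1/2) / (2 √2)`. The map `y ↦ a_y` is injective. With
  `n = ⌊(Z - 1/2) / (2 √2)⌋₊` there are `2 n + 1 ≥ 2 ((Z - 1/2)/(2 √2)) - 1 ≥ Z / 2` such `y` (`Z ≥ 7`; `√2 ≤ 1.4143`).
  (The set is finite by `box_finite`; use `Set.ncard_le_ncard` and the image of `Finset.Icc (-n) n`.)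
* `box_sum`: for `g ≠ 0` with `|em t g| ≤ 1`: `|em (-t) g| ≥ 1` (`em_norm`), and `|em (-t) g| ≥ 2 |t| |y| - 1 ≥ |y|` for
  `y = g.im ≠ 0`. So `|em (-t) g| ≥ max 1 |y|`. For every `y` there are at most three possible `g.re`
  (`|x + y t| ≤ 1`: `x` is one of `⌊-(t y)⌋ - 1, .., ⌊-(t y)⌋ + 1, ⌊-(ty)⌋ + 2`, four values are also fine). So the sum is at most
  `4 ∑_{y : ℤ} (max 1 |y|)^(-γ)`, which converges (`γ > 1`, `Real.summable_one_div_nat_rpow`/`Real.summable_nat_rpow`,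
  or `Real.summable_abs_int_rpow`). (One can map `g ↦ (g.im, g.re - ⌊-(t g.im)⌋) ∈ ℤ × {-1,0,1,2}`, an injective map, and use
  that a finite sum is at most the `tsum` of a summable function on `ℤ × Fin 4`.)
-/

set_option autoImplicit false

namespace Pool.Agent.Lib.MP_1620fb_al

open Finset

private theorem Box_abs_t {t : ℝ} (ht : t ^ 2 = 2) : 1 ≤ |t| ∧ |t| ≤ 1.4143 := by
  have h : |t| ^ 2 = 2 := by rw [sq_abs, ht]
  have h0 : 0 ≤ |t| := abs_nonneg t
  constructor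
  · nlinarith
  · by_contra hc
    push Not at hc
    nlinarith

theorem box_lower {t : ℝ} (ht : t ^ 2 = 2) (Z : ℝ) (hZ : 7 ≤ Z) :
    Z / 2 ≤ ({a : Zsqrtd 2 | |em t a| ≤ 1 ∧ |em (-t) a| ≤ Z}.ncard : ℝ) := by
  classical
  obtain ⟨ht1, ht2⟩ := Box_abs_t ht
  have htpos : 0 < |t| := by linarith
  set n : ℕ := ⌊(Z - 1 / 2) / (2 * |t|)⌋₊ with hn
  have hq : 0 ≤ (Z - 1 / 2) / (2 * |t|) := by
    apply div_nonneg <;> linarith
  have hn1 : (n : ℝ) ≤ (Z - 1 / 2) / (2 * |t|) := Nat.floor_le hq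
  have hn2 : (Z - 1 / 2) / (2 * |t|) < n + 1 := Nat.lt_floor_add_one _
  set f : ℤ → Zsqrtd 2 := fun y => ⟨round (-(t * y)), y⟩ with hf
  have hinj : Function.Injective f := by
    intro y z h
    exact congrArg Zsqrtd.im h
  have hsub : (((Icc (-(n : ℤ)) n).image f : Finset (Zsqrtd 2)) : Set (Zsqrtd 2)) ⊆
      {a : Zsqrtd 2 | |em t a| ≤ 1 ∧ |em (-t) a| ≤ Z} := by
    intro a ha
    rw [mem_coe, mem_image] at ha
    obtain ⟨y, hy, rfl⟩ := ha
    rw [mem_Icc] at hy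
    have hyn : |(y : ℝ)| ≤ n := by
      rw [abs_le]
      constructor
      · exact_mod_cast hy.1
      · exact_mod_cast hy.2
    have hr : |(-(t * y)) - (round (-(t * (y : ℝ))) : ℝ)| ≤ 1 / 2 := abs_sub_round _
    have h1 : |em t (f y)| ≤ 1 / 2 := by
      have : em t (f y) = -((-(t * y)) - (round (-(t * (y : ℝ))) : ℝ)) := by
        simp only [em, hf]
        ring
      rw [this, abs_neg]
      exact hr
    refine ⟨by linarith, ?_⟩
    have h2 : em (-t) (f y) = em t (f y) - 2 * t * y := by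
      simp only [em, hf]
      ring
    have h3 : |2 * t * (y : ℝ)| ≤ Z - 1 / 2 := by
      rw [abs_mul, abs_mul, abs_two]
      rw [le_div_iff₀ (by linarith)] at hn1
      have h4 : 2 * |t| * |(y : ℝ)| ≤ 2 * |t| * n := mul_le_mul_of_nonneg_left hyn (by linarith)
      linarith
    rw [h2]
    calc |em t (f y) - 2 * t * y| ≤ |em t (f y)| + |2 * t * (y : ℝ)| := abs_sub _ _
      _ ≤ Z := by linarith
  have hcard : 2 * n + 1 ≤ {a : Zsqrtd 2 | |em t a| ≤ 1 ∧ |em (-t) a| ≤ Z}.ncard := by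
    have h1 := Set.ncard_le_ncard hsub (box_finite ht 1 Z)
    rw [Set.ncard_coe_finset, card_image_of_injective _ hinj, Int.card_Icc] at h1
    have h2 : ((n : ℤ) + 1 - -(n : ℤ)).toNat = 2 * n + 1 := by omega
    rw [h2] at h1
    exact h1
  have hcard' : (2 * n + 1 : ℝ) ≤ ({a : Zsqrtd 2 | |em t a| ≤ 1 ∧ |em (-t) a| ≤ Z}.ncard : ℝ) := by
    exact_mod_cast hcard
  refine le_trans ?_ hcard'
  have h5 : (Z - 1 / 2) / (2 * 1.4143) ≤ (Z - 1 / 2) / (2 * |t|) := by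
    apply div_le_div_of_nonneg_left
    · linarith
    · linarith
    · linarith
  have h6 : Z / 2 ≤ 2 * ((Z - 1 / 2) / (2 * 1.4143)) - 1 := by
    have h7 : (Z - 1 / 2) / (2 * 1.4143) = (Z - 1 / 2) * (1 / 2.8286) := by
      norm_num
      ring
    rw [h7]
    have h8 : (0.3535 : ℝ) ≤ 1 / 2.8286 := by norm_num
    have h9 : (Z - 1 / 2) * 0.3535 ≤ (Z - 1 / 2) * (1 / 2.8286) :=
      mul_le_mul_of_nonneg_left h8 (by linarith)
    nlinarith
  linarith

private theorem Box_summable {γ : ℝ} (hγ : 1 < γ) :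
    Summable (fun y : ℤ => (max 1 |(y : ℝ)|) ^ (-γ)) := by
  have h1 : Summable (fun y : ℤ => |(y : ℝ)| ^ (-γ)) := Real.summable_abs_int_rpow hγ
  have h2 : Summable (fun y : ℤ => if y = 0 then (1 : ℝ) else 0) :=
    summable_of_ne_finset_zero (s := {0}) (fun b hb => by
      rw [if_neg]
      simpa using hb)
  refine (h1.add h2).congr ?_
  intro y
  by_cases hy : y = 0
  · subst hy
    rw [if_pos rfl]
    simp only [Int.cast_zero, abs_zero]
    rw [Real.zero_rpow (by linarith), max_eq_left (by norm_num), Real.one_rpow]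
    norm_num
  · rw [if_neg hy, add_zero]
    have h3 : (1 : ℝ) ≤ |(y : ℝ)| := by exact_mod_cast Int.one_le_abs hy
    rw [max_eq_right h3]

private theorem Box_ge {t : ℝ} (ht : t ^ 2 = 2) {g : Zsqrtd 2} (hg : g ≠ 0) (h : |em t g| ≤ 1) :
    max 1 |(g.im : ℝ)| ≤ |em (-t) g| := by
  obtain ⟨ht1, ht2⟩ := Box_abs_t ht
  apply max_le
  · have h1 := em_norm ht hg
    have h2 : |em t g| * |em (-t) g| ≤ 1 * |em (-t) g| := mul_le_mul_of_nonneg_right h (abs_nonneg _)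
    linarith
  · by_cases hy : g.im = 0
    · rw [hy]
      simp only [Int.cast_zero, abs_zero]
      exact abs_nonneg _
    · have h3 : (1 : ℝ) ≤ |(g.im : ℝ)| := by exact_mod_cast Int.one_le_abs hy
      have h4 : 2 * t * (g.im : ℝ) = em t g - em (-t) g := by
        simp only [em]
        ring
      have h5 : 2 * |t| * |(g.im : ℝ)| ≤ |em t g| + |em (-t) g| := by
        have : 2 * |t| * |(g.im : ℝ)| = |2 * t * (g.im : ℝ)| := by
          rw [abs_mul, abs_mul, abs_two]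
        rw [this, h4]
        exact abs_sub _ _
      have h6 : 2 * 1 * |(g.im : ℝ)| ≤ 2 * |t| * |(g.im : ℝ)| :=
        mul_le_mul_of_nonneg_right (by linarith) (abs_nonneg _)
      linarith

theorem box_sum {t : ℝ} (ht : t ^ 2 = 2) (γ : ℝ) (hγ : 1 < γ) :
    ∃ K : ℝ, ∀ F : Finset (Zsqrtd 2), (∀ g ∈ F, g ≠ 0 ∧ |em t g| ≤ 1) →
      ∑ g ∈ F, |em (-t) g| ^ (-γ) ≤ K := by
  classical
  refine ⟨3 * ∑' y : ℤ, (max 1 |(y : ℝ)|) ^ (-γ), ?_⟩
  intro F hF
  have hsum := Box_summable hγ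
  have hpos : ∀ y : ℤ, 0 ≤ (max 1 |(y : ℝ)|) ^ (-γ) := fun y =>
    Real.rpow_nonneg (le_trans zero_le_one (le_max_left _ _)) _
  have h1 : ∑ g ∈ F, |em (-t) g| ^ (-γ) ≤ ∑ g ∈ F, (max 1 |(g.im : ℝ)|) ^ (-γ) := by
    apply sum_le_sum
    intro g hg
    obtain ⟨hg0, hg1⟩ := hF g hg
    apply Real.rpow_le_rpow_of_nonpos
    · exact lt_of_lt_of_le zero_lt_one (le_max_left _ _)
    · exact Box_ge ht hg0 hg1
    · linarith
  have h2 : ∑ g ∈ F, (max 1 |(g.im : ℝ)|) ^ (-γ) =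
      ∑ y ∈ F.image Zsqrtd.im, (F.filter (fun g => g.im = y)).card • (max 1 |(y : ℝ)|) ^ (-γ) :=
    sum_comp (fun y : ℤ => (max 1 |(y : ℝ)|) ^ (-γ)) Zsqrtd.im
  have h3 : ∀ y : ℤ, (F.filter (fun g => g.im = y)).card ≤ 3 := by
    intro y
    have h4 : ((F.filter (fun g => g.im = y)).image Zsqrtd.re) ⊆
        Icc (⌊-(t * (y : ℝ))⌋ - 1) (⌊-(t * (y : ℝ))⌋ + 1) := by
      intro x hx
      rw [mem_image] at hx
      obtain ⟨g, hg, rfl⟩ := hx
      rw [mem_filter] at hg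
      obtain ⟨hgF, hgy⟩ := hg
      have h5 := (hF g hgF).2
      rw [abs_le] at h5
      simp only [em] at h5
      rw [hgy] at h5
      have h6 : (⌊-(t * (y : ℝ))⌋ : ℝ) ≤ -(t * (y : ℝ)) := Int.floor_le _
      have h7 : -(t * (y : ℝ)) < ⌊-(t * (y : ℝ))⌋ + 1 := Int.lt_floor_add_one _
      rw [mem_Icc]
      constructor
      · have : ((⌊-(t * (y : ℝ))⌋ - 1 : ℤ) : ℝ) ≤ (g.re : ℝ) := by
          push_cast
          linarith [h5.1]
        exact_mod_cast this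
      · have : (g.re : ℝ) < ((⌊-(t * (y : ℝ))⌋ + 2 : ℤ) : ℝ) := by
          push_cast
          linarith [h5.2]
        have h8 : g.re < ⌊-(t * (y : ℝ))⌋ + 2 := by exact_mod_cast this
        omega
    have h9 : ((F.filter (fun g => g.im = y)).image Zsqrtd.re).card = (F.filter (fun g => g.im = y)).card := by
      apply card_image_of_injOn
      intro g hg g' hg' h
      rw [mem_coe, mem_filter] at hg hg'
      apply Zsqrtd.ext
      · exact h
      · rw [hg.2, hg'.2]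
    rw [← h9]
    refine (card_le_card h4).trans ?_
    rw [Int.card_Icc]
    omega
  rw [h2] at h1
  refine h1.trans ?_
  calc ∑ y ∈ F.image Zsqrtd.im, (F.filter (fun g => g.im = y)).card • (max 1 |(y : ℝ)|) ^ (-γ)
      ≤ ∑ y ∈ F.image Zsqrtd.im, 3 * (max 1 |(y : ℝ)|) ^ (-γ) := by
        apply sum_le_sum
        intro y _
        rw [nsmul_eq_mul]
        apply mul_le_mul_of_nonneg_right _ (hpos y)
        exact_mod_cast h3 y
    _ = 3 * ∑ y ∈ F.image Zsqrtd.im, (max 1 |(y : ℝ)|) ^ (-γ) := by rw [mul_sum]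
    _ ≤ 3 * ∑' y : ℤ, (max 1 |(y : ℝ)|) ^ (-γ) := by
        apply mul_le_mul_of_nonneg_left _ (by norm_num)
        exact hsum.sum_le_tsum _ (fun y _ => hpos y)

end Pool.Agent.Lib.MP_1620fb_al
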