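import Pool.Agent.Lib.MP_1620fb_al.Dec
import Pool.Agent.Lib.MP_1620fb_al.Box

/-!
# JOB Cnt: there are many matrices which are small in the first place

PROOF of `many`. Let `N Λ` be the number of `s` with `nm t s ≤ 8`, `nm (-t) s ≤ Λ` (finite by `fin_nm`); monotone in `Λ`.
Suppose `N Λ ≤ C Λ ^ γ` for all `Λ ≥ 1` (so `C ≥ 0`, `N 1 ≤ C`). Then `N Λ ≤ C 2 ^ γ Λ ^ γ` for all `Λ ≥ 1/2` (for `Λ < 1` use
`N Λ ≤ N 1 ≤ C`). Let `Z ≥ 7`, `B = {a | |em t a| ≤ 1, |em (-t) a| ≤ Z}` (finite, at least `Z / 2` elements, `box_lower`),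
`P = (B ×ˢ B) \ {(0, 0)}`, so `|P| ≥ Z ^ 2 / 4 - 1`. Choose for every pair in `P` the pair `(g, s)` of `exists_dec`. This map is
injective (`a`, `b` are recovered). Its image lies in `{(g, s) | g ∈ Q, nm t s ≤ 8, nm (-t) s ≤ 8 Z / |em (-t) g|}`,
`Q = {g ≠ 0 | |em t g| ≤ 1, |em (-t) g| ≤ 16 Z}` (finite; `8 Z / |em (-t) g| ≥ nm (-t) s ≥ 1/2` by `nm_ge`). So
`Z ^ 2 / 4 - 1 ≤ ∑_{g ∈ Q} N (8 Z / |em (-t) g|) ≤ ∑_{g ∈ Q} C 2 ^ γ (8 Z) ^ γ |em (-t) g| ^ (-γ) ≤ C (16 Z) ^ γ K`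
by `box_sum` (`8 Z / |em (-t) g| ≥ 1/2` for `g ∈ Q`). As `γ < 2` this is false for large `Z`.
-/

set_option autoImplicit false

namespace Pool.Agent.Lib.MP_1620fb_al

open Finset

private theorem Cnt_count {t : ℝ} (ht : t ^ 2 = 2) (Z : ℝ) (hZ : 7 ≤ Z) (Q : Finset (Zsqrtd 2))
    (hQ : ∀ g, g ∈ Q ↔ g ≠ 0 ∧ |em t g| ≤ 1 ∧ |em (-t) g| ≤ 16 * Z) :
    Z ^ 2 / 4 - 1 ≤ ∑ g ∈ Q, ({s : G | nm t s ≤ 8 ∧ nm (-t) s ≤ 8 * Z / |em (-t) g|}.ncard : ℝ) := by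
  classical
  have ht' : (-t) ^ 2 = 2 := by rw [neg_sq]; exact ht
  have hfin := box_finite ht 1 Z
  set B : Finset (Zsqrtd 2) := hfin.toFinset with hB
  have hBmem : ∀ a, a ∈ B ↔ |em t a| ≤ 1 ∧ |em (-t) a| ≤ Z := by
    intro a
    rw [hB, Set.Finite.mem_toFinset]
    exact Iff.rfl
  have hBcard : Z / 2 ≤ (B.card : ℝ) := by
    have h1 := box_lower ht Z hZ
    rwa [Set.ncard_eq_toFinset_card _ hfin] at h1
  set P : Finset (Zsqrtd 2 × Zsqrtd 2) := (B ×ˢ B).erase (0, 0) with hP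
  have hPcard : Z ^ 2 / 4 - 1 ≤ (P.card : ℝ) := by
    have h1 : (B ×ˢ B).card ≤ P.card + 1 := by
      have := Finset.pred_card_le_card_erase (s := B ×ˢ B) (a := ((0 : Zsqrtd 2), (0 : Zsqrtd 2)))
      rw [hP]
      omega
    rw [card_product] at h1
    have h2 : (B.card : ℝ) * (B.card : ℝ) ≤ (P.card : ℝ) + 1 := by exact_mod_cast h1
    nlinarith
  refine hPcard.trans ?_
  have hex : ∀ q : Zsqrtd 2 × Zsqrtd 2, q ∈ P → ∃ r : Zsqrtd 2 × G, r.1 ≠ 0 ∧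
      q.1 = r.1 * r.2.1 0 0 ∧ q.2 = r.1 * r.2.1 0 1 ∧ |em t r.1| ≤ 1 ∧ nm t r.2 ≤ 8 ∧
        nm (-t) r.2 ≤ 8 * Z / |em (-t) r.1| := by
    rintro ⟨a, b⟩ hq
    rw [hP, mem_erase, mem_product, hBmem, hBmem] at hq
    obtain ⟨h0, ⟨ha, ha'⟩, hb, hb'⟩ := hq
    have hab : a ≠ 0 ∨ b ≠ 0 := by
      by_contra hcon
      push Not at hcon
      exact h0 (by rw [hcon.1, hcon.2])
    obtain ⟨g, s, h1, h2, h3, h4, h5, h6⟩ := exists_dec ht Z a b hab ha hb ha' hb'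
    exact ⟨(g, s), h1, h2, h3, h4, h5, h6⟩
  choose! φ hφ using hex
  have hfin2 : ∀ g : Zsqrtd 2, {s : G | nm t s ≤ 8 ∧ nm (-t) s ≤ 8 * Z / |em (-t) g|}.Finite :=
    fun g => fin_nm ht _ _
  have hcard : P.card ≤ (Q.sigma fun g => (hfin2 g).toFinset).card := by
    refine Finset.card_le_card_of_injOn (fun q => (⟨(φ q).1, (φ q).2⟩ : Σ _ : Zsqrtd 2, G)) ?_ ?_
    · intro q hq
      have hq' : q ∈ P := hq
      obtain ⟨h1, h2, h3, h4, h5, h6⟩ := hφ q hq'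
      have hpos : 0 < |em (-t) (φ q).1| := abs_pos.2 (em_ne_zero ht' h1)
      have h7 := (nm_ge ht' (φ q).2).trans h6
      have h8 : |em (-t) (φ q).1| ≤ 16 * Z := by
        rw [le_div_iff₀ hpos] at h7
        linarith
      refine Finset.mem_coe.2 (Finset.mem_sigma.2 ⟨(hQ _).2 ⟨h1, h4, h8⟩, ?_⟩)
      rw [Set.Finite.mem_toFinset]
      exact ⟨h5, h6⟩
    · intro q hq q' hq' heq
      obtain ⟨h1, h2, h3, -⟩ := hφ q hq
      obtain ⟨h1', h2', h3', -⟩ := hφ q' hq'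
      have e1 : (φ q).1 = (φ q').1 := congrArg Sigma.fst heq
      have e2 : (φ q).2 = (φ q').2 := by
        have := (Sigma.mk.inj_iff.1 heq).2
        exact eq_of_heq this
      refine Prod.ext ?_ ?_
      · rw [h2, h2', e1, e2]
      · rw [h3, h3', e1, e2]
  rw [card_sigma] at hcard
  have h9 : (P.card : ℝ) ≤ ∑ g ∈ Q, ((hfin2 g).toFinset.card : ℝ) := by exact_mod_cast hcard
  refine h9.trans (le_of_eq (Finset.sum_congr rfl fun g _ => ?_))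
  rw [Set.ncard_eq_toFinset_card _ (hfin2 g)]

theorem many {t : ℝ} (ht : t ^ 2 = 2) (γ : ℝ) (hγ : 1 < γ) (hγ2 : γ < 2) (C : ℝ) :
    ∃ Λ : ℝ, 1 ≤ Λ ∧ C * Λ ^ γ < ({s : G | nm t s ≤ 8 ∧ nm (-t) s ≤ Λ}.ncard : ℝ) := by
  by_contra hcon
  push Not at hcon
  have ht' : (-t) ^ 2 = 2 := by rw [neg_sq]; exact ht
  have hC : 0 ≤ C := by
    have h1 := hcon 1 le_rfl
    rw [Real.one_rpow, mul_one] at h1
    exact le_trans (Nat.cast_nonneg _) h1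
  have hbd : ∀ Λ : ℝ, 1 / 2 ≤ Λ →
      ({s : G | nm t s ≤ 8 ∧ nm (-t) s ≤ Λ}.ncard : ℝ) ≤ C * (2 * Λ) ^ γ := by
    intro Λ hΛ
    rcases le_or_gt 1 Λ with h1 | h1
    · refine (hcon Λ h1).trans (mul_le_mul_of_nonneg_left ?_ hC)
      exact Real.rpow_le_rpow (by linarith) (by linarith) (by linarith)
    · have h2 : ({s : G | nm t s ≤ 8 ∧ nm (-t) s ≤ Λ}.ncard : ℝ) ≤
          ({s : G | nm t s ≤ 8 ∧ nm (-t) s ≤ 1}.ncard : ℝ) := by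
        have hsub : {s : G | nm t s ≤ 8 ∧ nm (-t) s ≤ Λ} ⊆ {s : G | nm t s ≤ 8 ∧ nm (-t) s ≤ 1} :=
          fun s hs => And.intro hs.1 (le_trans hs.2 h1.le)
        exact_mod_cast Set.ncard_le_ncard hsub (fin_nm ht _ _)
      refine h2.trans ((hcon 1 le_rfl).trans (mul_le_mul_of_nonneg_left ?_ hC))
      exact Real.rpow_le_rpow (by norm_num) (by linarith) (by linarith)
  obtain ⟨K, hK⟩ := box_sum ht γ hγ
  have hK0 : 0 ≤ K := by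
    have := hK ∅ (by simp)
    simpa using this
  obtain ⟨Z, hZ1, hZ7⟩ := (((tendsto_rpow_atTop (show 0 < 2 - γ by linarith)).eventually_gt_atTop
    (8 * (C * 16 ^ γ * K))).and (Filter.eventually_ge_atTop (7 : ℝ))).exists
  have hZ0 : 0 < Z := by linarith
  classical
  set Q : Finset (Zsqrtd 2) := (box_finite ht 1 (16 * Z)).toFinset.filter (fun g => g ≠ 0) with hQd
  have hQ : ∀ g, g ∈ Q ↔ g ≠ 0 ∧ |em t g| ≤ 1 ∧ |em (-t) g| ≤ 16 * Z := by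
    intro g
    rw [hQd, mem_filter, Set.Finite.mem_toFinset, and_comm]
    exact Iff.rfl
  have h1 := Cnt_count ht Z hZ7 Q hQ
  have h2 : ∑ g ∈ Q, ({s : G | nm t s ≤ 8 ∧ nm (-t) s ≤ 8 * Z / |em (-t) g|}.ncard : ℝ) ≤
      ∑ g ∈ Q, C * (16 * Z) ^ γ * |em (-t) g| ^ (-γ) := by
    refine Finset.sum_le_sum fun g hg => ?_
    obtain ⟨hg0, hg1, hg2⟩ := (hQ g).1 hg
    have hpos : 0 < |em (-t) g| := abs_pos.2 (em_ne_zero ht' hg0)
    refine (hbd _ ?_).trans (le_of_eq ?_)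
    · rw [le_div_iff₀ hpos]
      linarith
    · have e1 : 2 * (8 * Z / |em (-t) g|) = (16 * Z) / |em (-t) g| := by ring
      rw [e1, Real.div_rpow (by positivity) hpos.le, Real.rpow_neg hpos.le, div_eq_mul_inv,
        mul_assoc]
  have h3 : ∑ g ∈ Q, C * (16 * Z) ^ γ * |em (-t) g| ^ (-γ) ≤ C * (16 * Z) ^ γ * K := by
    rw [← Finset.mul_sum]
    refine mul_le_mul_of_nonneg_left (hK Q fun g hg => ?_) (by positivity)
    obtain ⟨hg0, hg1, hg2⟩ := (hQ g).1 hg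
    exact ⟨hg0, hg1⟩
  have h4 : Z ^ 2 / 4 - 1 ≤ C * (16 * Z) ^ γ * K := h1.trans (h2.trans h3)
  rw [Real.mul_rpow (by norm_num) hZ0.le] at h4
  have h5 : Z ^ (2 - γ) * Z ^ γ = Z ^ 2 := by
    rw [← Real.rpow_add hZ0]
    have : 2 - γ + γ = ((2 : ℕ) : ℝ) := by push_cast; ring
    rw [this, Real.rpow_natCast]
  have h6 : 0 < Z ^ γ := Real.rpow_pos_of_pos hZ0 _
  have h7 : 8 * (C * 16 ^ γ * K) * Z ^ γ < Z ^ 2 := by
    rw [← h5]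
    exact mul_lt_mul_of_pos_right hZ1 h6
  nlinarith

end Pool.Agent.Lib.MP_1620fb_al
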