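import Pool.Agent.Lib.MP_1620fb_al.Dya
import Pool.Agent.Lib.MP_1620fb_al.Cnt

/-!
# JOB Avg: the averaging inequality for vectors and for matrices

* `avg`: let `γ = (β + 2) / 2`, `K` from `dya`, `Λ` from `many` for `C = K / η`; `S` = the finite set
  `{s | nm t s ≤ 8, nm (-t) s ≤ Λ}` (`fin_nm`), symmetric by `nm_inv`, not empty (it has more than `K / η * Λ ^ γ > 0` elements).
  `∑ ≤ K Λ ^ γ ≤ η |S|`.
* `ineq`: apply `avg` with `η = 1/2 * 16 ^ (-α) * 2 ^ (-β / 2)`. For `g : G`: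
  (1) `nm t g ≤ 2 nm t s⁻¹ nm t (s g) ≤ 16 nm t (s g)`, so `nm t (s g) ^ (-α) ≤ 16 ^ α nm t g ^ (-α)`.
  (2) let `M = nm (-t) g > 0`; it is the largest absolute value of an entry, choose a column `(x, y)` (`x = em (-t) (g 0 j)`,
  `y = em (-t) (g 1 j)`) with `max |x| |y| = M`; `ρ = √(x^2 + y^2) ≥ M`, `p = x / ρ`, `q = y / ρ`. The entries of column `j` of
  `s g` are `ρ o1 (-t) s p q`, `ρ o2 (-t) s p q`, so `nm (-t) (s g) ^ 2 ≥ ρ ^ 2 ln (-t) s p q / 2 ≥ M ^ 2 ln / 2` and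
  `nm (-t) (s g) ^ (-β) ≤ (M ^ 2 ln / 2) ^ (-β/2) = M ^ (-β) 2 ^ (β/2) ln ^ (-β/2)` (`ln > 0` by `ln_bounds`).
  Multiply and sum over `s`.
-/

set_option autoImplicit false

namespace Pool.Agent.Lib.MP_1620fb_al

open Finset

theorem avg {t : ℝ} (ht : t ^ 2 = 2) (β η : ℝ) (hβ : 1 ≤ β) (hβ2 : β < 2) (hη : 0 < η) :
    ∃ S : Finset G, S.Nonempty ∧ (∀ s ∈ S, s⁻¹ ∈ S) ∧ (∀ s ∈ S, nm t s ≤ 8) ∧
      ∀ p q : ℝ, p ^ 2 + q ^ 2 = 1 → ∑ s ∈ S, ln (-t) s p q ^ (-β / 2) ≤ η * (S.card : ℝ) := by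
  obtain ⟨K, hK, hdya⟩ := dya ht β ((β + 2) / 2) hβ (by linarith)
  obtain ⟨Λ, hΛ, hmany⟩ := many ht ((β + 2) / 2) (by linarith) (by linarith) (K / η)
  have hfin := fin_nm ht 8 Λ
  rw [Set.ncard_eq_toFinset_card _ hfin] at hmany
  have hpos : 0 < K / η * Λ ^ ((β + 2) / 2) := by positivity
  have hmem : ∀ s ∈ hfin.toFinset, nm t s ≤ 8 ∧ nm (-t) s ≤ Λ := by
    intro s hs
    rw [Set.Finite.mem_toFinset] at hs
    exact hs
  refine ⟨hfin.toFinset, ?_, ?_, ?_, ?_⟩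
  · rw [← Finset.card_pos]
    have h1 : (0 : ℝ) < (hfin.toFinset.card : ℝ) := hpos.trans hmany
    exact_mod_cast h1
  · intro s hs
    have h1 := hmem s hs
    rw [Set.Finite.mem_toFinset]
    show nm t s⁻¹ ≤ 8 ∧ nm (-t) s⁻¹ ≤ Λ
    rw [nm_inv, nm_inv]
    exact h1
  · exact fun s hs => (hmem s hs).1
  · intro p q hpq
    refine (hdya Λ p q hΛ hpq hfin.toFinset hmem).trans ?_
    have h1 := mul_lt_mul_of_pos_left hmany hη
    have h2 : η * (K / η * Λ ^ ((β + 2) / 2)) = K * Λ ^ ((β + 2) / 2) := by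
      field_simp
    linarith

private theorem avg_col (t : ℝ) (g : G) :
    ∃ j : Fin 2, |em t (g.1 0 j)| = nm t g ∨ |em t (g.1 1 j)| = nm t g := by
  unfold nm
  rcases max_choice (max |em t (g.1 0 0)| |em t (g.1 0 1)|) (max |em t (g.1 1 0)| |em t (g.1 1 1)|)
    with h | h <;> rw [h]
  · rcases max_choice |em t (g.1 0 0)| |em t (g.1 0 1)| with h' | h' <;> rw [h']
    · exact ⟨0, Or.inl rfl⟩
    · exact ⟨1, Or.inl rfl⟩
  · rcases max_choice |em t (g.1 1 0)| |em t (g.1 1 1)| with h' | h' <;> rw [h']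
    · exact ⟨0, Or.inr rfl⟩
    · exact ⟨1, Or.inr rfl⟩

private theorem avg_entry {t : ℝ} (ht : t ^ 2 = 2) (s g : G) (i j : Fin 2) :
    em t ((s * g).1 i j) = em t (s.1 i 0) * em t (g.1 0 j) + em t (s.1 i 1) * em t (g.1 1 j) := by
  have h1 : (s * g).1 i j = s.1 i 0 * g.1 0 j + s.1 i 1 * g.1 1 j := by
    have h2 : (s * g).1 = s.1 * g.1 := rfl
    rw [h2, Matrix.mul_apply, Fin.sum_univ_two]
  rw [h1, em_add, em_mul ht, em_mul ht]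

private theorem avg_vec {t : ℝ} (ht : t ^ 2 = 2) (g : G) : ∃ p q : ℝ, p ^ 2 + q ^ 2 = 1 ∧
    ∀ s : G, nm t g ^ 2 * ln t s p q / 2 ≤ nm t (s * g) ^ 2 := by
  obtain ⟨j, hj⟩ := avg_col t g
  have hM := nm_ge ht g
  have hxy : nm t g ^ 2 ≤ em t (g.1 0 j) ^ 2 + em t (g.1 1 j) ^ 2 := by
    rcases hj with h | h
    · rw [← h, sq_abs]
      linarith [sq_nonneg (em t (g.1 1 j))]
    · rw [← h, sq_abs]
      linarith [sq_nonneg (em t (g.1 0 j))]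
  have hpos : 0 < em t (g.1 0 j) ^ 2 + em t (g.1 1 j) ^ 2 := lt_of_lt_of_le (by positivity) hxy
  obtain ⟨ρ, hρ, hρ2⟩ : ∃ ρ : ℝ, 0 < ρ ∧ ρ ^ 2 = em t (g.1 0 j) ^ 2 + em t (g.1 1 j) ^ 2 :=
    ⟨√(em t (g.1 0 j) ^ 2 + em t (g.1 1 j) ^ 2), Real.sqrt_pos.2 hpos, Real.sq_sqrt hpos.le⟩
  refine ⟨em t (g.1 0 j) / ρ, em t (g.1 1 j) / ρ, ?_, ?_⟩
  · rw [div_pow, div_pow, ← add_div, ← hρ2, div_self (by positivity)]
  · intro s
    have e0 : em t ((s * g).1 0 j) = ρ * o1 t s (em t (g.1 0 j) / ρ) (em t (g.1 1 j) / ρ) := by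
      rw [avg_entry ht, o1]
      field_simp
    have e1 : em t ((s * g).1 1 j) = ρ * o2 t s (em t (g.1 0 j) / ρ) (em t (g.1 1 j) / ρ) := by
      rw [avg_entry ht, o2]
      field_simp
    have h0 : em t ((s * g).1 0 j) ^ 2 ≤ nm t (s * g) ^ 2 := by
      rw [← sq_abs]
      exact pow_le_pow_left₀ (abs_nonneg _) (nm_entry t (s * g) 0 j) 2
    have h1 : em t ((s * g).1 1 j) ^ 2 ≤ nm t (s * g) ^ 2 := by
      rw [← sq_abs]
      exact pow_le_pow_left₀ (abs_nonneg _) (nm_entry t (s * g) 1 j) 2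
    have h2 : ρ ^ 2 * ln t s (em t (g.1 0 j) / ρ) (em t (g.1 1 j) / ρ) =
        em t ((s * g).1 0 j) ^ 2 + em t ((s * g).1 1 j) ^ 2 := by
      rw [e0, e1, ln]
      ring
    have hl : 0 ≤ ln t s (em t (g.1 0 j) / ρ) (em t (g.1 1 j) / ρ) := by
      unfold ln
      positivity
    have h3 : nm t g ^ 2 * ln t s (em t (g.1 0 j) / ρ) (em t (g.1 1 j) / ρ) ≤
        ρ ^ 2 * ln t s (em t (g.1 0 j) / ρ) (em t (g.1 1 j) / ρ) :=
      mul_le_mul_of_nonneg_right (hρ2 ▸ hxy) hl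
    linarith

private theorem avg_ln_pos {t : ℝ} (ht : t ^ 2 = 2) (s : G) {p q : ℝ} (hpq : p ^ 2 + q ^ 2 = 1) :
    0 < ln t s p q := by
  have h1 := (ln_bounds ht s p q (max 1 (nm t s)) hpq (le_max_left _ _) (le_max_right _ _)).1
  have h2 : 0 < (1 / (2 * max 1 (nm t s))) ^ 2 := by
    have h3 : (0 : ℝ) < max 1 (nm t s) := lt_of_lt_of_le one_pos (le_max_left _ _)
    positivity
  linarith

private theorem avg_one {t : ℝ} (ht : t ^ 2 = 2) {α : ℝ} (hα : 0 ≤ α) {s : G} (hs : nm t s ≤ 8)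
    (g : G) : nm t (s * g) ^ (-α) ≤ 16 ^ α * nm t g ^ (-α) := by
  have h1 := nm_mul ht s⁻¹ (s * g)
  rw [inv_mul_cancel_left, nm_inv] at h1
  have h2 := nm_ge ht g
  have h3 := nm_ge ht (s * g)
  have h4 : nm t g / 16 ≤ nm t (s * g) := by
    nlinarith [mul_le_mul_of_nonneg_right hs (by linarith : (0 : ℝ) ≤ nm t (s * g))]
  have h5 := Real.rpow_le_rpow_of_nonpos (by positivity) h4 (by linarith : -α ≤ 0)
  refine h5.trans (le_of_eq ?_)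
  rw [Real.div_rpow (by linarith) (by norm_num), Real.rpow_neg (by norm_num : (0 : ℝ) ≤ 16),
    div_inv_eq_mul, mul_comm]

private theorem avg_two {M l N β : ℝ} (hM : 0 < M) (hl : 0 < l) (hN : 0 < N) (hβ : 1 ≤ β)
    (h : M ^ 2 * l / 2 ≤ N ^ 2) :
    N ^ (-β) ≤ M ^ (-β) * 2 ^ (β / 2) * l ^ (-β / 2) := by
  have h1 := Real.rpow_le_rpow_of_nonpos (by positivity) h (by linarith : -β / 2 ≤ 0)
  have h2 : ∀ x : ℝ, 0 < x → (x ^ 2) ^ (-β / 2) = x ^ (-β) := by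
    intro x hx
    rw [← Real.rpow_natCast, ← Real.rpow_mul hx.le]
    congr 1
    push_cast
    ring
  rw [h2 N hN] at h1
  refine h1.trans (le_of_eq ?_)
  rw [Real.div_rpow (by positivity) (by norm_num), Real.mul_rpow (by positivity) hl.le, h2 M hM,
    neg_div, Real.rpow_neg (by norm_num : (0 : ℝ) ≤ 2), div_inv_eq_mul]
  ring

theorem ineq {t : ℝ} (ht : t ^ 2 = 2) (α β : ℝ) (hα : 0 ≤ α) (hβ : 1 ≤ β) (hβ2 : β < 2) :
    ∃ S : Finset G, S.Nonempty ∧ (∀ s ∈ S, s⁻¹ ∈ S) ∧ ∀ g : G,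
      ∑ s ∈ S, nm t (s * g) ^ (-α) * nm (-t) (s * g) ^ (-β) ≤
        1 / 2 * (S.card : ℝ) * (nm t g ^ (-α) * nm (-t) g ^ (-β)) := by
  have ht' : (-t) ^ 2 = 2 := by rw [neg_sq]; exact ht
  obtain ⟨S, hS0, hS1, hS2, hS3⟩ := avg ht β (1 / 2 * (16 : ℝ) ^ (-α) * (2 : ℝ) ^ (-β / 2)) hβ hβ2
    (by positivity)
  refine ⟨S, hS0, hS1, fun g => ?_⟩
  obtain ⟨p, q, hpq, hv⟩ := avg_vec ht' g
  have hg := nm_ge ht g
  have hg' := nm_ge ht' g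
  have hterm : ∀ s ∈ S, nm t (s * g) ^ (-α) * nm (-t) (s * g) ^ (-β) ≤
      (16 ^ α * 2 ^ (β / 2) * (nm t g ^ (-α) * nm (-t) g ^ (-β))) * ln (-t) s p q ^ (-β / 2) := by
    intro s hs
    have hsg := nm_ge ht (s * g)
    have hsg' := nm_ge ht' (s * g)
    have h1 := avg_one ht hα (hS2 s hs) g
    have h2 := avg_two (by linarith) (avg_ln_pos ht' s hpq) (by linarith) hβ (hv s)
    calc nm t (s * g) ^ (-α) * nm (-t) (s * g) ^ (-β)
        ≤ (16 ^ α * nm t g ^ (-α)) * (nm (-t) g ^ (-β) * 2 ^ (β / 2) * ln (-t) s p q ^ (-β / 2)) := by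
          refine mul_le_mul h1 h2 (Real.rpow_nonneg (by linarith) _) ?_
          exact mul_nonneg (by positivity) (Real.rpow_nonneg (by linarith) _)
      _ = _ := by ring
  refine (Finset.sum_le_sum hterm).trans ?_
  rw [← Finset.mul_sum]
  have h3 : 0 ≤ 16 ^ α * 2 ^ (β / 2) * (nm t g ^ (-α) * nm (-t) g ^ (-β)) := by
    have h4 : 0 ≤ nm t g ^ (-α) := Real.rpow_nonneg (by linarith) _
    have h5 : 0 ≤ nm (-t) g ^ (-β) := Real.rpow_nonneg (by linarith) _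
    positivity
  refine (mul_le_mul_of_nonneg_left (hS3 p q hpq) h3).trans (le_of_eq ?_)
  have h6 : (16 : ℝ) ^ α * (16 : ℝ) ^ (-α) = 1 := by
    rw [← Real.rpow_add (by norm_num), add_neg_cancel, Real.rpow_zero]
  have h7 : (2 : ℝ) ^ (β / 2) * (2 : ℝ) ^ (-β / 2) = 1 := by
    rw [← Real.rpow_add (by norm_num), neg_div, add_neg_cancel, Real.rpow_zero]
  calc 16 ^ α * 2 ^ (β / 2) * (nm t g ^ (-α) * nm (-t) g ^ (-β)) *
        (1 / 2 * (16 : ℝ) ^ (-α) * (2 : ℝ) ^ (-β / 2) * (S.card : ℝ))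
      = ((16 : ℝ) ^ α * (16 : ℝ) ^ (-α)) * ((2 : ℝ) ^ (β / 2) * (2 : ℝ) ^ (-β / 2)) *
          (1 / 2 * (S.card : ℝ) * (nm t g ^ (-α) * nm (-t) g ^ (-β))) := by ring
    _ = _ := by rw [h6, h7, one_mul, one_mul]

end Pool.Agent.Lib.MP_1620fb_al
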