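import Pool.Agent.Lib.MP_1620fb_al.Sep
import Pool.Agent.Lib.MP_1620fb_al.Avg

/-!
# JOB Avn: the averaging inequality with a set `S` near the identity of the first factor

PROOF. Compare `avg` and `ineq` in Avg.lean. `η' = η * 2 ^ (-β / 2)`, `γ = (β + 2) / 2`, `K` from `dya` (for `β`, `γ`), `Λ` from `many_near` for
`C = K / η'`; `S` = the finite set `{s | near t δ s, near t δ s⁻¹, nm (-t) s ≤ Λ}` (finite by `fin_nm`: `near t δ s` gives
`nm t s ≤ 1 + δ ≤ 2`), symmetric (`nm_inv`), not empty (more than `K / η' * Λ ^ γ > 0` elements). By `dya`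
`∑_{s ∈ S} ln (-t) s p q ^ (-β/2) ≤ K Λ ^ γ ≤ η' |S|` for all `p ^ 2 + q ^ 2 = 1`.
For `g : G` let `M = nm (-t) g`, choose a column `(x, y)` (`x = em (-t) (g 0 j)`, `y = em (-t) (g 1 j)`) with `max |x| |y| = M`,
`ρ = √(x^2 + y^2) ≥ M`, `p = x / ρ`, `q = y / ρ`; the entries of column `j` of `s g` are `ρ o1 (-t) s p q`, `ρ o2 (-t) s p q`, so
`nm (-t) (s g) ^ 2 ≥ ρ ^ 2 ln (-t) s p q / 2 ≥ M ^ 2 ln / 2` and `nm (-t) (s g) ^ (-β) ≤ M ^ (-β) 2 ^ (β/2) ln ^ (-β/2)`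
(the proof of `ineq` contains exactly this step: copy it). Sum over `s`.
-/

set_option autoImplicit false

namespace Pool.Agent.Lib.MP_1620fb_al

open Finset

private theorem avn_avg_col (t : ℝ) (g : G) :
    ∃ j : Fin 2, |em t (g.1 0 j)| = nm t g ∨ |em t (g.1 1 j)| = nm t g := by
  unfold nm
  rcases max_choice (max |em t (g.1 0 0)| |em t (g.1 0 1)|) (max |em t (g.1 1 0)| |em t (g.1 1 1)|)
    with h | h <;> rw [h]
  · rcases max_choice |em t (g.1 0 0)| |em t (g.1 0 1)| with h' | h' <;> rw [h']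
    · exact ⟨0, Or.inl rfl⟩
    · exact ⟨1, Or.inl rfl⟩
  · rcases max_choice |em t (g.1 1 0)| |em t (g.1 1 1)| with h' | h' <;> rw [h']
    · exact ⟨0, Or.inr rfl⟩
    · exact ⟨1, Or.inr rfl⟩

private theorem avn_avg_entry {t : ℝ} (ht : t ^ 2 = 2) (s g : G) (i j : Fin 2) :
    em t ((s * g).1 i j) = em t (s.1 i 0) * em t (g.1 0 j) + em t (s.1 i 1) * em t (g.1 1 j) := by
  have h1 : (s * g).1 i j = s.1 i 0 * g.1 0 j + s.1 i 1 * g.1 1 j := by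
    have h2 : (s * g).1 = s.1 * g.1 := rfl
    rw [h2, Matrix.mul_apply, Fin.sum_univ_two]
  rw [h1, em_add, em_mul ht, em_mul ht]

private theorem avn_avg_vec {t : ℝ} (ht : t ^ 2 = 2) (g : G) : ∃ p q : ℝ, p ^ 2 + q ^ 2 = 1 ∧
    ∀ s : G, nm t g ^ 2 * ln t s p q / 2 ≤ nm t (s * g) ^ 2 := by
  obtain ⟨j, hj⟩ := avn_avg_col t g
  have hM := nm_ge ht g
  have hxy : nm t g ^ 2 ≤ em t (g.1 0 j) ^ 2 + em t (g.1 1 j) ^ 2 := by
    rcases hj with h | h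
    · rw [← h, sq_abs]
      linarith [sq_nonneg (em t (g.1 1 j))]
    · rw [← h, sq_abs]
      linarith [sq_nonneg (em t (g.1 0 j))]
  have hpos : 0 < em t (g.1 0 j) ^ 2 + em t (g.1 1 j) ^ 2 := lt_of_lt_of_le (by positivity) hxy
  obtain ⟨ρ, hρ, hρ2⟩ : ∃ ρ : ℝ, 0 < ρ ∧ ρ ^ 2 = em t (g.1 0 j) ^ 2 + em t (g.1 1 j) ^ 2 :=
    ⟨√(em t (g.1 0 j) ^ 2 + em t (g.1 1 j) ^ 2), Real.sqrt_pos.2 hpos, Real.sq_sqrt hpos.le⟩
  refine ⟨em t (g.1 0 j) / ρ, em t (g.1 1 j) / ρ, ?_, ?_⟩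
  · rw [div_pow, div_pow, ← add_div, ← hρ2, div_self (by positivity)]
  · intro s
    have e0 : em t ((s * g).1 0 j) = ρ * o1 t s (em t (g.1 0 j) / ρ) (em t (g.1 1 j) / ρ) := by
      rw [avn_avg_entry ht, o1]
      field_simp
    have e1 : em t ((s * g).1 1 j) = ρ * o2 t s (em t (g.1 0 j) / ρ) (em t (g.1 1 j) / ρ) := by
      rw [avn_avg_entry ht, o2]
      field_simp
    have h0 : em t ((s * g).1 0 j) ^ 2 ≤ nm t (s * g) ^ 2 := by
      rw [← sq_abs]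
      exact pow_le_pow_left₀ (abs_nonneg _) (nm_entry t (s * g) 0 j) 2
    have h1 : em t ((s * g).1 1 j) ^ 2 ≤ nm t (s * g) ^ 2 := by
      rw [← sq_abs]
      exact pow_le_pow_left₀ (abs_nonneg _) (nm_entry t (s * g) 1 j) 2
    have h2 : ρ ^ 2 * ln t s (em t (g.1 0 j) / ρ) (em t (g.1 1 j) / ρ) =
        em t ((s * g).1 0 j) ^ 2 + em t ((s * g).1 1 j) ^ 2 := by
      rw [e0, e1, ln]
      ring
    have hl : 0 ≤ ln t s (em t (g.1 0 j) / ρ) (em t (g.1 1 j) / ρ) := by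
      unfold ln
      positivity
    have h3 : nm t g ^ 2 * ln t s (em t (g.1 0 j) / ρ) (em t (g.1 1 j) / ρ) ≤
        ρ ^ 2 * ln t s (em t (g.1 0 j) / ρ) (em t (g.1 1 j) / ρ) :=
      mul_le_mul_of_nonneg_right (hρ2 ▸ hxy) hl
    linarith

private theorem avn_avg_ln_pos {t : ℝ} (ht : t ^ 2 = 2) (s : G) {p q : ℝ} (hpq : p ^ 2 + q ^ 2 = 1) :
    0 < ln t s p q := by
  have h1 := (ln_bounds ht s p q (max 1 (nm t s)) hpq (le_max_left _ _) (le_max_right _ _)).1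
  have h2 : 0 < (1 / (2 * max 1 (nm t s))) ^ 2 := by
    have h3 : (0 : ℝ) < max 1 (nm t s) := lt_of_lt_of_le one_pos (le_max_left _ _)
    positivity
  linarith

private theorem avn_avg_two {M l N β : ℝ} (hM : 0 < M) (hl : 0 < l) (hN : 0 < N) (hβ : 1 ≤ β)
    (h : M ^ 2 * l / 2 ≤ N ^ 2) :
    N ^ (-β) ≤ M ^ (-β) * 2 ^ (β / 2) * l ^ (-β / 2) := by
  have h1 := Real.rpow_le_rpow_of_nonpos (by positivity) h (by linarith : -β / 2 ≤ 0)
  have h2 : ∀ x : ℝ, 0 < x → (x ^ 2) ^ (-β / 2) = x ^ (-β) := by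
    intro x hx
    rw [← Real.rpow_natCast, ← Real.rpow_mul hx.le]
    congr 1
    push_cast
    ring
  rw [h2 N hN] at h1
  refine h1.trans (le_of_eq ?_)
  rw [Real.div_rpow (by positivity) (by norm_num), Real.mul_rpow (by positivity) hl.le, h2 M hM,
    neg_div, Real.rpow_neg (by norm_num : (0 : ℝ) ≤ 2), div_inv_eq_mul]
  ring

private theorem avn_nm_le {t δ : ℝ} (hδ1 : δ ≤ 1) (s : G) (h : near t δ s) : nm t s ≤ 8 := by
  have hent : ∀ i j, |em t (s.1 i j)| ≤ 8 := by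
    intro i j
    have h1 := h i j
    have h2 : |em t ((1 : G).1 i j)| ≤ 1 := by
      fin_cases i <;> fin_cases j <;> simp [em]
    have h3 : |em t (s.1 i j)| ≤ |em t (s.1 i j) - em t ((1 : G).1 i j)| +
        |em t ((1 : G).1 i j)| := by
      have := abs_add_le (em t (s.1 i j) - em t ((1 : G).1 i j)) (em t ((1 : G).1 i j))
      rwa [sub_add_cancel] at this
    linarith
  unfold nm
  exact max_le (max_le (hent 0 0) (hent 0 1)) (max_le (hent 1 0) (hent 1 1))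

theorem avg_near {t : ℝ} (ht : t ^ 2 = 2) (δ : ℝ) (hδ : 0 < δ) (hδ1 : δ ≤ 1) (β η : ℝ) (hβ : 1 ≤ β)
    (hβ2 : β < 2) (hη : 0 < η) :
    ∃ S : Finset G, S.Nonempty ∧ (∀ s ∈ S, s⁻¹ ∈ S) ∧ (∀ s ∈ S, near t δ s) ∧
      ∀ g : G, ∑ s ∈ S, nm (-t) (s * g) ^ (-β) ≤ η * (S.card : ℝ) * nm (-t) g ^ (-β) := by
  have ht' : (-t) ^ 2 = 2 := by rw [neg_sq]; exact ht
  obtain ⟨η', hη'⟩ : ∃ η' : ℝ, η' = η * (2 : ℝ) ^ (-β / 2) := ⟨_, rfl⟩
  have hη'0 : 0 < η' := by rw [hη']; positivity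
  obtain ⟨K, hK, hdya⟩ := dya ht β ((β + 2) / 2) hβ (by linarith)
  obtain ⟨Λ, hΛ, hmany⟩ := many_near ht δ hδ ((β + 2) / 2) (by linarith) (by linarith) (K / η')
  have hfin : {s : G | near t δ s ∧ near t δ s⁻¹ ∧ nm (-t) s ≤ Λ}.Finite :=
    (fin_nm ht 8 Λ).subset fun s hs => ⟨avn_nm_le hδ1 s hs.1, hs.2.2⟩
  rw [Set.ncard_eq_toFinset_card _ hfin] at hmany
  have hpos : 0 < K / η' * Λ ^ ((β + 2) / 2) := by positivity
  have hmem : ∀ s ∈ hfin.toFinset, near t δ s ∧ near t δ s⁻¹ ∧ nm (-t) s ≤ Λ := by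
    intro s hs
    rw [Set.Finite.mem_toFinset] at hs
    exact hs
  refine ⟨hfin.toFinset, ?_, ?_, fun s hs => (hmem s hs).1, ?_⟩
  · rw [← Finset.card_pos]
    have h1 : (0 : ℝ) < (hfin.toFinset.card : ℝ) := hpos.trans hmany
    exact_mod_cast h1
  · intro s hs
    have h1 := hmem s hs
    rw [Set.Finite.mem_toFinset]
    show near t δ s⁻¹ ∧ near t δ (s⁻¹)⁻¹ ∧ nm (-t) s⁻¹ ≤ Λ
    rw [nm_inv, inv_inv]
    exact ⟨h1.2.1, h1.1, h1.2.2⟩
  · intro g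
    obtain ⟨p, q, hpq, hv⟩ := avn_avg_vec ht' g
    have hg' := nm_ge ht' g
    have hS3 : ∑ s ∈ hfin.toFinset, ln (-t) s p q ^ (-β / 2) ≤
        η' * (hfin.toFinset.card : ℝ) := by
      refine (hdya Λ p q hΛ hpq hfin.toFinset fun s hs =>
        ⟨avn_nm_le hδ1 s (hmem s hs).1, (hmem s hs).2.2⟩).trans ?_
      have h1 := mul_lt_mul_of_pos_left hmany hη'0
      have h2 : η' * (K / η' * Λ ^ ((β + 2) / 2)) = K * Λ ^ ((β + 2) / 2) := by
        field_simp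
      linarith
    have hterm : ∀ s ∈ hfin.toFinset, nm (-t) (s * g) ^ (-β) ≤
        (nm (-t) g ^ (-β) * 2 ^ (β / 2)) * ln (-t) s p q ^ (-β / 2) := by
      intro s _
      have hsg' := nm_ge ht' (s * g)
      exact avn_avg_two (by linarith) (avn_avg_ln_pos ht' s hpq) (by linarith) hβ (hv s)
    refine (Finset.sum_le_sum hterm).trans ?_
    rw [← Finset.mul_sum]
    have h3 : 0 ≤ nm (-t) g ^ (-β) * 2 ^ (β / 2) := by
      have h5 : 0 ≤ nm (-t) g ^ (-β) := Real.rpow_nonneg (by linarith) _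
      positivity
    refine (mul_le_mul_of_nonneg_left hS3 h3).trans (le_of_eq ?_)
    have h7 : (2 : ℝ) ^ (β / 2) * (2 : ℝ) ^ (-β / 2) = 1 := by
      rw [← Real.rpow_add (by norm_num), neg_div, add_neg_cancel, Real.rpow_zero]
    rw [hη']
    calc nm (-t) g ^ (-β) * 2 ^ (β / 2) * (η * (2 : ℝ) ^ (-β / 2) * (hfin.toFinset.card : ℝ))
        = ((2 : ℝ) ^ (β / 2) * (2 : ℝ) ^ (-β / 2)) *
            (η * (hfin.toFinset.card : ℝ) * nm (-t) g ^ (-β)) := by ring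
      _ = _ := by rw [h7, one_mul]

end Pool.Agent.Lib.MP_1620fb_al
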