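import Pool.Agent.Lib.MP_1620fb_al.Defs

/-!
# JOB Bas: the embeddings `em t`, the norms `nm t`

`em t (a * b)`: `(a * b).re = a.re * b.re + 2 * a.im * b.im`, `(a * b).im = a.re * b.im + a.im * b.re`
(`Zsqrtd.re_mul`, `Zsqrtd.im_mul`) and `t ^ 2 = 2`.
`em_norm`: `em t a * em (-t) a = a.re ^ 2 - 2 * a.im ^ 2`, an integer, non-zero for `a ≠ 0`: if
`x ^ 2 = 2 y ^ 2` for integers then `x = y = 0` (`irrational_sqrt_two`, or `Nat.Prime.irrational_sqrt`,
or descent); so its absolute value is at least `1`.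
`nm_mul`: the entries of `g h` are sums of two products. `nm_inv`: the inverse of `(a b; c d)` is
`(d -b; -c a)` (`Matrix.SpecialLinearGroup.coe_inv`, `Matrix.adjugate_fin_two`). `nm_ge`:
`1 = a d - b c ≤ 2 nm ^ 2`. `fin_nm`: every entry lies in the finite set of `a` with
`|em t a| ≤ A`, `|em (-t) a| ≤ B`: `a.re` and `a.im` are bounded integers
(`2 a.re = em t a + em (-t) a`, `2 t a.im = em t a - em (-t) a`).
-/

set_option autoImplicit false

namespace Pool.Agent.Lib.MP_1620fb_al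

theorem em_zero (t : ℝ) : em t 0 = 0 := by
  simp [em]

theorem em_one (t : ℝ) : em t 1 = 1 := by
  simp [em]

theorem em_add (t : ℝ) (a b : Zsqrtd 2) : em t (a + b) = em t a + em t b := by
  unfold em
  rw [Zsqrtd.re_add, Zsqrtd.im_add]
  push_cast
  ring

theorem em_sub (t : ℝ) (a b : Zsqrtd 2) : em t (a - b) = em t a - em t b := by
  unfold em
  rw [Zsqrtd.re_sub, Zsqrtd.im_sub]
  push_cast
  ring

theorem em_neg (t : ℝ) (a : Zsqrtd 2) : em t (-a) = -em t a := by
  unfold em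
  rw [Zsqrtd.re_neg, Zsqrtd.im_neg]
  push_cast
  ring

theorem em_mul {t : ℝ} (ht : t ^ 2 = 2) (a b : Zsqrtd 2) : em t (a * b) = em t a * em t b := by
  unfold em
  rw [Zsqrtd.re_mul, Zsqrtd.im_mul]
  push_cast
  linear_combination (-(a.im : ℝ) * (b.im : ℝ)) * ht

/-- The norm of a non-zero element is at least one in absolute value. -/
theorem em_norm {t : ℝ} (ht : t ^ 2 = 2) {a : Zsqrtd 2} (ha : a ≠ 0) :
    1 ≤ |em t a| * |em (-t) a| := by
  rw [← abs_mul]
  have h1 : em t a * em (-t) a = ((a.re ^ 2 - 2 * a.im ^ 2 : ℤ) : ℝ) := by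
    unfold em
    push_cast
    linear_combination (-(a.im : ℝ) ^ 2) * ht
  rw [h1, ← Int.cast_abs]
  have h2 : a.re ^ 2 - 2 * a.im ^ 2 ≠ 0 := by
    intro h0
    apply ha
    have h3 : a.im = 0 := by
      by_contra him
      have h4 : (a.re : ℝ) ^ 2 = 2 * (a.im : ℝ) ^ 2 := by
        have : a.re ^ 2 = 2 * a.im ^ 2 := by linarith
        exact_mod_cast this
      have h5 : (a.im : ℝ) ≠ 0 := by exact_mod_cast him
      have h6 : ((|a.re| : ℤ) : ℝ) / ((|a.im| : ℤ) : ℝ) = √2 := by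
        symm
        rw [Real.sqrt_eq_iff_mul_self_eq (by norm_num) (by positivity)]
        rw [Int.cast_abs, Int.cast_abs, div_mul_div_comm, ← pow_two, ← pow_two, sq_abs, sq_abs, h4]
        field_simp
      exact irrational_sqrt_two ⟨(|a.re| : ℤ) / (|a.im| : ℤ), by
        rw [← h6]
        push_cast
        rfl⟩
    have h4 : a.re = 0 := by
      rw [h3] at h0
      simpa using h0
    exact Zsqrtd.ext h4 h3
  have h3 : 1 ≤ |a.re ^ 2 - 2 * a.im ^ 2| := Int.one_le_abs h2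
  exact_mod_cast h3

theorem em_ne_zero {t : ℝ} (ht : t ^ 2 = 2) {a : Zsqrtd 2} (ha : a ≠ 0) : em t a ≠ 0 := by
  intro h0
  have h1 := em_norm ht ha
  rw [h0, abs_zero, zero_mul] at h1
  linarith

theorem box_finite {t : ℝ} (ht : t ^ 2 = 2) (A B : ℝ) :
    {a : Zsqrtd 2 | |em t a| ≤ A ∧ |em (-t) a| ≤ B}.Finite := by
  have hinj : Function.Injective (fun a : Zsqrtd 2 => (a.re, a.im)) := by
    intro a b h
    exact Zsqrtd.ext (congrArg Prod.fst h) (congrArg Prod.snd h)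
  obtain ⟨C, hC⟩ := exists_nat_ge (|A| + |B|)
  have hfin : (Set.Icc (-(C : ℤ)) C ×ˢ Set.Icc (-(C : ℤ)) C).Finite :=
    (Set.finite_Icc _ _).prod (Set.finite_Icc _ _)
  refine (hfin.preimage (hinj.injOn (s := (fun a : Zsqrtd 2 => (a.re, a.im)) ⁻¹' _))).subset ?_
  rintro a ⟨h1, h2⟩
  have hA := le_abs_self A
  have hB := le_abs_self B
  have h3 : |(a.re : ℝ)| ≤ C := by
    have h4 : (a.re : ℝ) = (em t a + em (-t) a) / 2 := by
      unfold em
      ring
    rw [h4, abs_div, abs_two]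
    have := abs_add_le (em t a) (em (-t) a)
    have := abs_nonneg (em t a)
    have := abs_nonneg (em (-t) a)
    linarith
  have ht1 : 1 ≤ |t| := by
    rw [← abs_one, ← sq_le_sq, ht]
    norm_num
  have h4 : |(a.im : ℝ)| ≤ C := by
    have h5 : (a.im : ℝ) * t = (em t a - em (-t) a) / 2 := by
      unfold em
      ring
    have h6 : |(a.im : ℝ)| ≤ |(a.im : ℝ) * t| := by
      rw [abs_mul]
      exact le_mul_of_one_le_right (abs_nonneg _) ht1
    rw [h5, abs_div, abs_two] at h6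
    have := abs_sub (em t a) (em (-t) a)
    have := abs_nonneg (em t a)
    have := abs_nonneg (em (-t) a)
    linarith
  rw [← Int.cast_abs] at h3 h4
  have h5 : |a.re| ≤ C := by exact_mod_cast h3
  have h6 : |a.im| ≤ C := by exact_mod_cast h4
  exact ⟨abs_le.mp h5, abs_le.mp h6⟩

theorem nm_entry (t : ℝ) (g : G) (i j : Fin 2) : |em t (g.1 i j)| ≤ nm t g := by
  unfold nm
  fin_cases i <;> fin_cases j
  · exact (le_max_left _ _).trans (le_max_left _ _)
  · exact (le_max_right _ _).trans (le_max_left _ _)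
  · exact (le_max_left _ _).trans (le_max_right _ _)
  · exact (le_max_right _ _).trans (le_max_right _ _)

theorem nm_le {t : ℝ} {g : G} {c : ℝ} (h : ∀ i j, |em t (g.1 i j)| ≤ c) : nm t g ≤ c := by
  unfold nm
  exact max_le (max_le (h 0 0) (h 0 1)) (max_le (h 1 0) (h 1 1))

theorem nm_mul {t : ℝ} (ht : t ^ 2 = 2) (g h : G) : nm t (g * h) ≤ 2 * nm t g * nm t h := by
  refine nm_le fun i j => ?_
  have h1 : (g * h).1 i j = g.1 i 0 * h.1 0 j + g.1 i 1 * h.1 1 j := by
    change (g.1 * h.1) i j = _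
    rw [Matrix.mul_apply, Fin.sum_univ_two]
  rw [h1, em_add, em_mul ht, em_mul ht]
  refine (abs_add_le _ _).trans ?_
  rw [abs_mul, abs_mul]
  have h2 : |em t (g.1 i 0)| * |em t (h.1 0 j)| ≤ nm t g * nm t h :=
    mul_le_mul (nm_entry t g i 0) (nm_entry t h 0 j) (abs_nonneg _)
      ((abs_nonneg _).trans (nm_entry t g 0 0))
  have h3 : |em t (g.1 i 1)| * |em t (h.1 1 j)| ≤ nm t g * nm t h :=
    mul_le_mul (nm_entry t g i 1) (nm_entry t h 1 j) (abs_nonneg _)
      ((abs_nonneg _).trans (nm_entry t g 0 0))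
  linarith

theorem nm_inv (t : ℝ) (g : G) : nm t g⁻¹ = nm t g := by
  have h1 : (g⁻¹).1 = ![![g.1 1 1, -g.1 0 1], ![-g.1 1 0, g.1 0 0]] := by
    have h2 := Matrix.SpecialLinearGroup.coe_inv g
    rw [h2, Matrix.adjugate_fin_two]
    rfl
  unfold nm
  rw [h1]
  simp only [Matrix.cons_val_zero, Matrix.cons_val_one, em_neg, abs_neg]
  rw [max_comm |em t (g.1 1 1)|, max_comm |em t (g.1 1 0)|]
  rw [max_max_max_comm, max_comm |em t (g.1 0 1)|, max_comm |em t (g.1 1 1)|]

theorem nm_one (t : ℝ) : nm t 1 = 1 := by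
  unfold nm
  simp [em_zero, em_one]

private theorem Bas_det {t : ℝ} (ht : t ^ 2 = 2) (g : G) :
    em t (g.1 0 0) * em t (g.1 1 1) - em t (g.1 0 1) * em t (g.1 1 0) = 1 := by
  have h1 : g.1 0 0 * g.1 1 1 - g.1 0 1 * g.1 1 0 = 1 := by
    rw [← Matrix.det_fin_two]
    exact g.2
  rw [← em_mul ht, ← em_mul ht, ← em_sub, h1, em_one]

theorem nm_ge {t : ℝ} (ht : t ^ 2 = 2) (g : G) : 1 / 2 ≤ nm t g := by
  have h1 := Bas_det ht g
  have h00 := nm_entry t g 0 0
  have h01 := nm_entry t g 0 1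
  have h10 := nm_entry t g 1 0
  have h11 := nm_entry t g 1 1
  have hn : 0 ≤ nm t g := (abs_nonneg _).trans h00
  have h2 : (1 : ℝ) ≤ 2 * (nm t g * nm t g) := by
    have h3 : |em t (g.1 0 0) * em t (g.1 1 1) - em t (g.1 0 1) * em t (g.1 1 0)| ≤
        nm t g * nm t g + nm t g * nm t g := by
      refine (abs_sub _ _).trans ?_
      rw [abs_mul, abs_mul]
      exact add_le_add (mul_le_mul h00 h11 (abs_nonneg _) hn) (mul_le_mul h01 h10 (abs_nonneg _) hn)
    rw [h1, abs_one] at h3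
    linarith
  by_contra hc
  push Not at hc
  nlinarith

theorem fin_nm {t : ℝ} (ht : t ^ 2 = 2) (A B : ℝ) : {g : G | nm t g ≤ A ∧ nm (-t) g ≤ B}.Finite := by
  have hinj : Function.Injective (fun (g : G) (p : Fin 2 × Fin 2) => g.1 p.1 p.2) := by
    intro g h hgh
    apply Subtype.ext
    funext i j
    exact congrFun hgh (i, j)
  have hfin : (Set.pi Set.univ (fun _ : Fin 2 × Fin 2 =>
      {a : Zsqrtd 2 | |em t a| ≤ A ∧ |em (-t) a| ≤ B})).Finite :=
    Set.Finite.pi fun _ => box_finite ht A B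
  refine (hfin.preimage (hinj.injOn (s := (fun (g : G) (p : Fin 2 × Fin 2) =>
    g.1 p.1 p.2) ⁻¹' _))).subset ?_
  rintro g ⟨h1, h2⟩ p _
  exact ⟨(nm_entry t g p.1 p.2).trans h1, (nm_entry (-t) g p.1 p.2).trans h2⟩

/-- The determinant in the embedding `em t`. -/
theorem em_det {t : ℝ} (ht : t ^ 2 = 2) (g : G) :
    em t (g.1 0 0) * em t (g.1 1 1) - em t (g.1 0 1) * em t (g.1 1 0) = 1 := by
  exact Bas_det ht g

end Pool.Agent.Lib.MP_1620fb_al
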