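import Pool.Agent.Lib.MP_1620fb_al.Bas

/-!
# JOB Uni: scaling by units, approximation by elements of `ℤ[√2]`

* `exists_unit`: let `υ = ⟨1, 1⟩` if `t > 0` and `υ = ⟨1, -1⟩` if `t < 0` (`t ≠ 0`): `|em t υ| = 1 + √2` (as `|t| = √2`), and
  `υ` is a unit with inverse `⟨-1, 1⟩` resp. `⟨-1, -1⟩`. By `exists_mem_Ico_zpow` (`1 < 1 + √2 ≤ 5/2`) there is `k : ℤ` with
  `(1+√2)^k ≤ M < (1+√2)^(k+1)`; take the unit `υ ^ (-k)` (in `(Zsqrtd 2)ˣ`): `|em t (υ ^ (-k))| = (1+√2)^(-k)`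
  (`em t` as a monoid homomorphism; prove the formula for natural powers of `υ` and `υ⁻¹`). So `1 ≤ |em t υ^(-k)| M < 1 + √2 < 5/2`.
* `exists_approx`: `y = round ((l - l') / (2 t))`, `x = round ((l + l') / 2)`, `T = ⟨x, y⟩`:
  `|em t T - l| = |(x - (l + l')/2) + t (y - (l - l')/(2 t))| ≤ 1/2 + |t| / 2 ≤ 5/4` (`|t| ≤ 3/2`), same for `em (-t) T - l'`.
-/

set_option autoImplicit false

namespace Pool.Agent.Lib.MP_1620fb_al

private theorem Uni_pow {t : ℝ} (ht : t ^ 2 = 2) (a : Zsqrtd 2) (n : ℕ) : em t (a ^ n) = em t a ^ n := by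
  induction n with
  | zero => rw [pow_zero, pow_zero, em_one]
  | succ n ih => rw [pow_succ, pow_succ, em_mul ht, ih]

private theorem Uni_abs {t : ℝ} (ht : t ^ 2 = 2) : |t| ^ 2 = 2 ∧ 1 < |t| ∧ |t| < 3 / 2 := by
  have h1 : |t| ^ 2 = 2 := by rw [sq_abs, ht]
  have h0 := abs_nonneg t
  refine ⟨h1, ?_, ?_⟩ <;> nlinarith

private theorem Uni_base {t : ℝ} (ht : t ^ 2 = 2) :
    ∃ u u' : Zsqrtd 2, u * u' = 1 ∧ em t u = 1 + |t| ∧ em t u' = (1 + |t|)⁻¹ := by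
  obtain ⟨h1, h2, h3⟩ := Uni_abs ht
  have h4 : (1 + |t|)⁻¹ = -1 + |t| := by
    refine inv_eq_of_mul_eq_one_right ?_
    nlinarith
  rcases le_or_gt 0 t with h0 | h0
  · refine ⟨⟨1, 1⟩, ⟨-1, 1⟩, ?_, ?_, ?_⟩
    · ext <;> simp
    · simp [em, abs_of_nonneg h0]
    · rw [h4]
      simp [em, abs_of_nonneg h0]
  · refine ⟨⟨1, -1⟩, ⟨-1, -1⟩, ?_, ?_, ?_⟩
    · ext <;> simp
    · simp [em, abs_of_neg h0]
    · rw [h4]
      simp [em, abs_of_neg h0]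

private theorem Uni_zpow {t : ℝ} (ht : t ^ 2 = 2) (k : ℤ) :
    ∃ e e' : Zsqrtd 2, e * e' = 1 ∧ em t e = (1 + |t|) ^ k := by
  obtain ⟨u, u', h1, h2, h3⟩ := Uni_base ht
  rcases Int.eq_nat_or_neg k with ⟨n, rfl | rfl⟩
  · exact ⟨u ^ n, u' ^ n, by rw [← mul_pow, h1, one_pow], by rw [Uni_pow ht, h2, zpow_natCast]⟩
  · exact ⟨u' ^ n, u ^ n, by rw [← mul_pow, mul_comm, h1, one_pow],
      by rw [Uni_pow ht, h3, zpow_neg, zpow_natCast, inv_pow]⟩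

theorem exists_unit {t : ℝ} (ht : t ^ 2 = 2) (M : ℝ) (hM : 0 < M) :
    ∃ e e' : Zsqrtd 2, e * e' = 1 ∧ 1 ≤ |em t e| * M ∧ |em t e| * M < 5 / 2 := by
  obtain ⟨h1, h2, h3⟩ := Uni_abs ht
  have hy : (1 : ℝ) < 1 + |t| := by linarith
  have hy0 : (0 : ℝ) < 1 + |t| := by linarith
  obtain ⟨n, hn1, hn2⟩ := exists_mem_Ico_zpow hM hy
  obtain ⟨e, e', he, hem⟩ := Uni_zpow ht (-n)
  have hp : 0 < (1 + |t|) ^ (-n) := zpow_pos hy0 _
  refine ⟨e, e', he, ?_, ?_⟩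
  · rw [hem, abs_of_pos hp]
    calc (1 : ℝ) = (1 + |t|) ^ (-n) * (1 + |t|) ^ n := by
          rw [← zpow_add₀ hy0.ne', neg_add_cancel, zpow_zero]
      _ ≤ (1 + |t|) ^ (-n) * M := mul_le_mul_of_nonneg_left hn1 hp.le
  · rw [hem, abs_of_pos hp]
    calc (1 + |t|) ^ (-n) * M < (1 + |t|) ^ (-n) * (1 + |t|) ^ (n + 1) := mul_lt_mul_of_pos_left hn2 hp
      _ = 1 + |t| := by
          rw [← zpow_add₀ hy0.ne', neg_add_cancel_left, zpow_one]
      _ < 5 / 2 := by linarith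

theorem exists_approx {t : ℝ} (ht : t ^ 2 = 2) (l l' : ℝ) :
    ∃ T : Zsqrtd 2, |em t T - l| ≤ 5 / 4 ∧ |em (-t) T - l'| ≤ 5 / 4 := by
  obtain ⟨h1, h2, h3⟩ := Uni_abs ht
  have ht0 : t ≠ 0 := by
    rintro rfl
    norm_num at ht
  have hx := abs_sub_round ((l + l') / 2)
  have hy := abs_sub_round ((l - l') / (2 * t))
  set x : ℤ := round ((l + l') / 2)
  set y : ℤ := round ((l - l') / (2 * t))
  have hty : |t * ((l - l') / (2 * t) - y)| ≤ 3 / 4 := by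
    rw [abs_mul]
    calc |t| * |(l - l') / (2 * t) - y| ≤ 3 / 2 * (1 / 2) :=
          mul_le_mul h3.le hy (abs_nonneg _) (by norm_num)
      _ = 3 / 4 := by norm_num
  have e1 : t * ((l - l') / (2 * t)) = (l - l') / 2 := by
    field_simp
  refine ⟨⟨x, y⟩, ?_, ?_⟩
  · have : em t ⟨x, y⟩ - l = -((l + l') / 2 - x) - t * ((l - l') / (2 * t) - y) := by
      rw [mul_sub, e1]
      simp only [em]
      ring
    rw [this]
    calc |-((l + l') / 2 - x) - t * ((l - l') / (2 * t) - y)|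
        ≤ |-((l + l') / 2 - x)| + |t * ((l - l') / (2 * t) - y)| := abs_sub _ _
      _ ≤ 1 / 2 + 3 / 4 := by
          rw [abs_neg]
          exact add_le_add hx hty
      _ = 5 / 4 := by norm_num
  · have : em (-t) ⟨x, y⟩ - l' = -((l + l') / 2 - x) + t * ((l - l') / (2 * t) - y) := by
      rw [mul_sub, e1]
      simp only [em]
      ring
    rw [this]
    calc |-((l + l') / 2 - x) + t * ((l - l') / (2 * t) - y)|
        ≤ |-((l + l') / 2 - x)| + |t * ((l - l') / (2 * t) - y)| := abs_add_le _ _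
      _ ≤ 1 / 2 + 3 / 4 := by
          rw [abs_neg]
          exact add_le_add hx hty
      _ = 5 / 4 := by norm_num

end Pool.Agent.Lib.MP_1620fb_al
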