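import Pool.Agent.Lib.MP_1620fb_al.Euc
import Pool.Agent.Lib.MP_1620fb_al.Uni

/-!
# JOB Dec: every pair is a multiple of the first row of a small matrix

* `red_real` (one place): for real numbers `a, b` (not both zero), `c, d` with `a d - b c = 1` put
  `n = a ^ 2 + b ^ 2`, `l = (a c + b d) / n`; then `c - l a = -b / n`, `d - l b = a / n`, so for every `T` with `|T - l| ≤ 5/4`:
  `|c - T a|, |d - T b| ≤ 5/4 M + 1 / M` where `M = max |a| |b|` (`n ≥ M ^ 2`).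
* `exists_dec`: let `(a, b) = g₀ (a', b')`, `a' x + b' y = 1` (`bezout`); `g₀ ≠ 0`, `(a', b') ≠ 0`. Let
  `M₀ = max |em t a'| |em t b'| > 0` and `e` the unit of `exists_unit` for `M₀`; replace `(a', b', x, y, g₀)` by
  `(e a', e b', e' x, e' y, g₀ e')`: now `M := max |em t a'| |em t b'| ∈ [1, 5/2)`.
  `|em t g| M = max |em t a| |em t b| ≤ 1`, so `|em t g| ≤ 1`. With `M' := max |em (-t) a'| |em (-t) b'|`:
  `|em (-t) g| M' ≤ Z`. One of `a', b'` is non-zero, so by `em_norm` `M' ≥ 1 / M ≥ 2/5`.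
  Let `(c₀, d₀) = (-y, x)`: `a' d₀ - b' c₀ = 1`. Take `T` from `exists_approx` with `l`, `l'` the numbers of `red_real` in the two
  places and `(c, d) = (c₀ - T a', d₀ - T b')`; `s = (a' b'; c d)` has determinant `1`. First place: entries
  `≤ max M (5/4 M + 1/M) ≤ 25/8 + 1 ≤ 8`. Second place: entries `≤ max M' (5/4 M' + 1/M') ≤ M' (5/4 + 25/4) ≤ 8 M' ≤ 8 Z / |em (-t) g|`.
-/

set_option autoImplicit false

namespace Pool.Agent.Lib.MP_1620fb_al

theorem red_real {a b c d T : ℝ} (hdet : a * d - b * c = 1)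
    (hT : |T - (a * c + b * d) / (a ^ 2 + b ^ 2)| ≤ 5 / 4) :
    |c - T * a| ≤ 5 / 4 * max |a| |b| + 1 / max |a| |b| ∧
      |d - T * b| ≤ 5 / 4 * max |a| |b| + 1 / max |a| |b| := by
  obtain ⟨M, hM⟩ : ∃ M, M = max |a| |b| := ⟨_, rfl⟩
  obtain ⟨n, hn⟩ : ∃ n, n = a ^ 2 + b ^ 2 := ⟨_, rfl⟩
  obtain ⟨l, hl⟩ : ∃ l, l = (a * c + b * d) / n := ⟨_, rfl⟩
  rw [← hn, ← hl] at hT
  rw [← hM]
  have haM : |a| ≤ M := hM ▸ le_max_left _ _
  have hbM : |b| ≤ M := hM ▸ le_max_right _ _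
  have hM0 : 0 < M := by
    rcases lt_or_eq_of_le ((abs_nonneg a).trans haM) with h | h
    · exact h
    · exfalso
      rw [← h] at haM hbM
      rw [abs_nonpos_iff.mp haM, abs_nonpos_iff.mp hbM] at hdet
      norm_num at hdet
  have hnM : M ^ 2 ≤ n := by
    rcases max_choice |a| |b| with h | h
    · rw [hM, h, sq_abs, hn]
      have := sq_nonneg b
      linarith
    · rw [hM, h, sq_abs, hn]
      have := sq_nonneg a
      linarith
  have hn0 : 0 < n := lt_of_lt_of_le (by positivity) hnM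
  have hln : l * n = a * c + b * d := by
    rw [hl]
    field_simp
  have hc : c - l * a = -b / n := by
    rw [eq_div_iff hn0.ne']
    calc (c - l * a) * n = c * n - a * (l * n) := by ring
      _ = -b := by
        rw [hln, hn]
        linear_combination (-b) * hdet
  have hd : d - l * b = a / n := by
    rw [eq_div_iff hn0.ne']
    calc (d - l * b) * n = d * n - b * (l * n) := by ring
      _ = a := by
        rw [hln, hn]
        linear_combination a * hdet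
  have hq : ∀ z, |z| ≤ M → |z| / n ≤ 1 / M := by
    intro z hz
    rw [div_le_div_iff₀ hn0 hM0, one_mul]
    calc |z| * M ≤ M * M := mul_le_mul_of_nonneg_right hz hM0.le
      _ = M ^ 2 := by ring
      _ ≤ n := hnM
  constructor
  · have h1 : c - T * a = -b / n - (T - l) * a := by
      rw [← hc]
      ring
    rw [h1]
    refine (abs_sub _ _).trans ?_
    rw [abs_div, abs_neg, abs_of_pos hn0, abs_mul]
    have h2 := hq b hbM
    have h3 : |T - l| * |a| ≤ 5 / 4 * M := mul_le_mul hT haM (abs_nonneg _) (by norm_num)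
    linarith
  · have h1 : d - T * b = a / n - (T - l) * b := by
      rw [← hd]
      ring
    rw [h1]
    refine (abs_sub _ _).trans ?_
    rw [abs_div, abs_of_pos hn0, abs_mul]
    have h2 := hq a haM
    have h3 : |T - l| * |b| ≤ 5 / 4 * M := mul_le_mul hT hbM (abs_nonneg _) (by norm_num)
    linarith

private theorem Dec_mul_ne {a b : Zsqrtd 2} (ha : a ≠ 0) (hb : b ≠ 0) : a * b ≠ 0 := by
  intro h0
  have ht : (√2 : ℝ) ^ 2 = 2 := Real.sq_sqrt (by norm_num)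
  have h1 : em √2 a * em √2 b = 0 := by
    rw [← em_mul ht, h0, em_zero]
  rcases mul_eq_zero.mp h1 with h | h
  · exact em_ne_zero ht ha h
  · exact em_ne_zero ht hb h

theorem exists_dec {t : ℝ} (ht : t ^ 2 = 2) (Z : ℝ) (a b : Zsqrtd 2) (hab : a ≠ 0 ∨ b ≠ 0)
    (ha : |em t a| ≤ 1) (hb : |em t b| ≤ 1) (ha' : |em (-t) a| ≤ Z) (hb' : |em (-t) b| ≤ Z) :
    ∃ (g : Zsqrtd 2) (s : G), g ≠ 0 ∧ a = g * s.1 0 0 ∧ b = g * s.1 0 1 ∧ |em t g| ≤ 1 ∧
      nm t s ≤ 8 ∧ nm (-t) s ≤ 8 * Z / |em (-t) g| := by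
  have htn : (-t) ^ 2 = 2 := by rw [neg_sq]; exact ht
  obtain ⟨g₀, a₀, b₀, x₀, y₀, hag, hbg, hxy⟩ := bezout a b
  have hab0 : a₀ ≠ 0 ∨ b₀ ≠ 0 := by
    by_contra hc
    push Not at hc
    rw [hc.1, hc.2, zero_mul, zero_mul, add_zero] at hxy
    exact zero_ne_one hxy
  have hg₀ : g₀ ≠ 0 := by
    rintro rfl
    rw [zero_mul] at hag hbg
    rcases hab with h | h
    · exact h hag
    · exact h hbg
  obtain ⟨M₀, hM₀⟩ : ∃ M₀, M₀ = max |em t a₀| |em t b₀| := ⟨_, rfl⟩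
  have hM₀0 : 0 < M₀ := by
    rw [hM₀]
    rcases hab0 with h | h
    · exact lt_max_of_lt_left (abs_pos.mpr (em_ne_zero ht h))
    · exact lt_max_of_lt_right (abs_pos.mpr (em_ne_zero ht h))
  obtain ⟨e, e', hee, he1, he2⟩ := exists_unit ht M₀ hM₀0
  have he0 : e ≠ 0 := by
    rintro rfl
    rw [zero_mul] at hee
    exact zero_ne_one hee
  have he'0 : e' ≠ 0 := by
    rintro rfl
    rw [mul_zero] at hee
    exact zero_ne_one hee
  obtain ⟨a₁, ha₁⟩ : ∃ a₁, a₁ = e * a₀ := ⟨_, rfl⟩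
  obtain ⟨b₁, hb₁⟩ : ∃ b₁, b₁ = e * b₀ := ⟨_, rfl⟩
  obtain ⟨g, hg⟩ : ∃ g, g = g₀ * e' := ⟨_, rfl⟩
  obtain ⟨c₀, hc₀⟩ : ∃ c₀, c₀ = -(e' * y₀) := ⟨_, rfl⟩
  obtain ⟨d₀, hd₀⟩ : ∃ d₀, d₀ = e' * x₀ := ⟨_, rfl⟩
  have hag1 : a = g * a₁ := by
    rw [hg, ha₁, hag]
    linear_combination (-g₀ * a₀) * hee
  have hbg1 : b = g * b₁ := by
    rw [hg, hb₁, hbg]
    linear_combination (-g₀ * b₀) * hee
  have hdet : a₁ * d₀ - b₁ * c₀ = 1 := by
    rw [ha₁, hb₁, hc₀, hd₀]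
    linear_combination (a₀ * x₀ + b₀ * y₀) * hee + hxy
  have hg0 : g ≠ 0 := by
    rw [hg]
    exact Dec_mul_ne hg₀ he'0
  have hab1 : a₁ ≠ 0 ∨ b₁ ≠ 0 := by
    rcases hab0 with h | h
    · exact Or.inl (ha₁ ▸ Dec_mul_ne he0 h)
    · exact Or.inr (hb₁ ▸ Dec_mul_ne he0 h)
  obtain ⟨M, hM⟩ : ∃ M, M = max |em t a₁| |em t b₁| := ⟨_, rfl⟩
  have hMe : M = |em t e| * M₀ := by
    rw [hM, hM₀, ha₁, hb₁, em_mul ht, em_mul ht, abs_mul, abs_mul,
      mul_max_of_nonneg _ _ (abs_nonneg _)]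
  rw [← hMe] at he1 he2
  obtain ⟨M', hM'⟩ : ∃ M', M' = max |em (-t) a₁| |em (-t) b₁| := ⟨_, rfl⟩
  have hgM : |em t g| * M ≤ 1 := by
    rw [hM, mul_max_of_nonneg _ _ (abs_nonneg _), ← abs_mul, ← abs_mul, ← em_mul ht, ← em_mul ht,
      ← hag1, ← hbg1]
    exact max_le ha hb
  have hgM' : |em (-t) g| * M' ≤ Z := by
    rw [hM', mul_max_of_nonneg _ _ (abs_nonneg _), ← abs_mul, ← abs_mul, ← em_mul htn, ← em_mul htn,
      ← hag1, ← hbg1]
    exact max_le ha' hb'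
  have hg1 : |em t g| ≤ 1 := by
    calc |em t g| = |em t g| * 1 := (mul_one _).symm
      _ ≤ |em t g| * M := mul_le_mul_of_nonneg_left he1 (abs_nonneg _)
      _ ≤ 1 := hgM
  have haM : |em t a₁| ≤ M := hM ▸ le_max_left _ _
  have hbM : |em t b₁| ≤ M := hM ▸ le_max_right _ _
  have haM' : |em (-t) a₁| ≤ M' := hM' ▸ le_max_left _ _
  have hbM' : |em (-t) b₁| ≤ M' := hM' ▸ le_max_right _ _
  have hM'0 : 0 ≤ M' := (abs_nonneg _).trans haM'
  have hM'1 : 2 / 5 ≤ M' := by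
    have h1 : 1 ≤ M * M' := by
      rcases hab1 with h | h
      · exact (em_norm ht h).trans (mul_le_mul haM haM' (abs_nonneg _) (by linarith))
      · exact (em_norm ht h).trans (mul_le_mul hbM hbM' (abs_nonneg _) (by linarith))
    nlinarith
  obtain ⟨T, hT1, hT2⟩ := exists_approx ht
    ((em t a₁ * em t c₀ + em t b₁ * em t d₀) / (em t a₁ ^ 2 + em t b₁ ^ 2))
    ((em (-t) a₁ * em (-t) c₀ + em (-t) b₁ * em (-t) d₀) / (em (-t) a₁ ^ 2 + em (-t) b₁ ^ 2))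
  have hr1 := red_real (by rw [← em_mul ht, ← em_mul ht, ← em_sub, hdet, em_one]) hT1
  have hr2 := red_real (by rw [← em_mul htn, ← em_mul htn, ← em_sub, hdet, em_one]) hT2
  rw [← hM, ← em_mul ht, ← em_mul ht, ← em_sub, ← em_sub] at hr1
  rw [← hM', ← em_mul htn, ← em_mul htn, ← em_sub, ← em_sub] at hr2
  have hdets : Matrix.det !![a₁, b₁; c₀ - T * a₁, d₀ - T * b₁] = 1 := by
    rw [Matrix.det_fin_two_of]
    linear_combination hdet
  have hM1 : 1 / M ≤ 1 := by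
    rw [div_le_one (by linarith)]
    exact he1
  have hM'2 : 1 / M' ≤ 5 / 2 := by
    rw [div_le_iff₀ (by linarith)]
    linarith
  refine ⟨g, ⟨!![a₁, b₁; c₀ - T * a₁, d₀ - T * b₁], hdets⟩, hg0, hag1, hbg1, hg1, ?_, ?_⟩
  · refine nm_le fun i j => ?_
    fin_cases i <;> fin_cases j
    · change |em t a₁| ≤ 8
      linarith
    · change |em t b₁| ≤ 8
      linarith
    · change |em t (c₀ - T * a₁)| ≤ 8
      linarith [hr1.1]
    · change |em t (d₀ - T * b₁)| ≤ 8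
      linarith [hr1.2]
  · have h8 : 8 * M' ≤ 8 * Z / |em (-t) g| := by
      rw [le_div_iff₀ (abs_pos.mpr (em_ne_zero htn hg0))]
      linarith
    refine nm_le fun i j => le_trans ?_ h8
    fin_cases i <;> fin_cases j
    · change |em (-t) a₁| ≤ 8 * M'
      linarith
    · change |em (-t) b₁| ≤ 8 * M'
      linarith
    · change |em (-t) (c₀ - T * a₁)| ≤ 8 * M'
      linarith [hr2.1]
    · change |em (-t) (d₀ - T * b₁)| ≤ 8 * M'
      linarith [hr2.2]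

end Pool.Agent.Lib.MP_1620fb_al
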