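import Pool.Agent.Lib.MP_1620fb_al.Bas

/-!
# Second part: growth near the identity of the first factor. Definitions
-/

set_option autoImplicit false

namespace Pool.Agent.Lib.MP_1620fb_al

/-- All entries of `em t (s) - 1` are at most `δ`. -/
def near (t δ : ℝ) (s : G) : Prop := ∀ i j, |em t (s.1 i j) - em t ((1 : G).1 i j)| ≤ δ

/-- The real matrix `em t (g)`. -/
def mat (t : ℝ) (g : G) : Matrix (Fin 2) (Fin 2) ℝ := fun i j => em t (g.1 i j)

/-- Pairs of columns. -/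
abbrev Col : Type := (Fin 2 → ℝ) × (Fin 2 → ℝ)

/-- Left multiplication of a pair of columns by a matrix. -/
def act (A : Matrix (Fin 2) (Fin 2) ℝ) (y : Col) : Col := (A.mulVec y.1, A.mulVec y.2)

/-- The determinant of a pair of columns. -/
def cdet (y : Col) : ℝ := y.1 0 * y.2 1 - y.1 1 * y.2 0

/-- The box of size `1/4` around the identity. -/
def box : Set Col :=
  {y | |y.1 0 - 1| ≤ 1 / 4 ∧ |y.1 1| ≤ 1 / 4 ∧ |y.2 0| ≤ 1 / 4 ∧ |y.2 1 - 1| ≤ 1 / 4}

/-- The summand of the function `uu`. -/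
noncomputable def wt (φ : ℝ → ℝ) (β t : ℝ) (g : G) (y : Col) : ℝ :=
  φ ‖act (mat t g⁻¹) y‖ * nm (-t) g ^ (-β)

/-- The periodization of `wt` over `H`. -/
noncomputable def uu (φ : ℝ → ℝ) (β t : ℝ) (H : Subgroup G) (g : G) (y : Col) : ℝ :=
  (∑' h : H, ENNReal.ofReal (wt φ β t (g * (h : G)) y)).toReal

end Pool.Agent.Lib.MP_1620fb_al
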