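import Mathlib

/-!
# Co-amenable subgroups of `SL₂(ℤ[√2])`: definitions

`t` is always a real number with `t ^ 2 = 2`; `em t` is the embedding of `ℤ[√2]` into `ℝ` which maps
`√2` to `t`; `em (-t)` is the other one.
-/

set_option autoImplicit false

namespace Pool.Agent.Lib.MP_1620fb_al

/-- The group `SL₂(ℤ[√2])`. -/
abbrev G : Type := Matrix.SpecialLinearGroup (Fin 2) (Zsqrtd 2)

/-- The map `x + y √2 ↦ x + y t` (a ring homomorphism when `t ^ 2 = 2`). -/
def em (t : ℝ) (a : Zsqrtd 2) : ℝ := (a.re : ℝ) + (a.im : ℝ) * t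

/-- The largest absolute value of an entry of the real matrix `em t (g)`. -/
def nm (t : ℝ) (g : G) : ℝ :=
  max (max |em t (g.1 0 0)| |em t (g.1 0 1)|) (max |em t (g.1 1 0)| |em t (g.1 1 1)|)

/-- `m` is a finitely additive probability measure on all subsets of `X`, invariant under `Γ`. -/
structure IsInvMean (Γ : Type*) {X : Type*} [Group Γ] [MulAction Γ X] (m : Set X → ℝ) : Prop where
  nonneg : ∀ A, 0 ≤ m A
  univ : m Set.univ = 1
  add : ∀ A B, Disjoint A B → m (A ∪ B) = m A + m B
  inv : ∀ (g : Γ) (A : Set X), m ((fun x => g • x) '' A) = m A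

/-- The subgroup `H` is co-amenable: there is an invariant mean on `G / H`. -/
def CoAmenable (H : Subgroup G) : Prop := ∃ m : Set (G ⧸ H) → ℝ, IsInvMean G m

end Pool.Agent.Lib.MP_1620fb_al
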