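import Pool.Agent.Lib.MP_1620fb_al.Pig

/-!
# JOB Dya: dyadic summation

PROOF. `K0` from `pig`. Let `r k = 2 ^ k / (2 Λ)` and `n = ⌈Real.logb 2 (4 Λ ^ 2)⌉₊`, so `2 ^ n ≥ 4 Λ ^ 2`, `r n ≥ 2 Λ`. For `s ∈ F` we have
`(r 0) ^ 2 ≤ ln (-t) s p q ≤ (r n) ^ 2` (`ln_bounds` for `-t`), so there is `k ≤ n` with `(r k / 2) ^ 2 < ln ≤ (r k) ^ 2` (the smallest `k`
with `ln ≤ (r k) ^ 2`: `Nat.find`; `r (k-1) = r k / 2`). For such `s`: `ln ^ (-β/2) ≤ (r k / 2) ^ (-β) = (4 Λ) ^ β (2 ^ k) ^ (-β)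
≤ (4 Λ) ^ β 2 ^ (-k)` (`β ≥ 1`), and there are at most `K0 (8 Λ r k + 2) = K0 (4 * 2 ^ k + 2) ≤ 6 K0 2 ^ k` of them. So
`∑_{s ∈ F} ln ^ (-β/2) ≤ ∑_{k ≤ n} 6 K0 (4 Λ) ^ β = 6 K0 (n + 1) (4 Λ) ^ β` and `n + 1 ≤ Real.logb 2 (4 Λ ^ 2) + 2
= 4 + 2 logb 2 Λ ≤ 4 + 4 log Λ ≤ (4 + 4 / (γ - β)) Λ ^ (γ - β)` (`Real.log_le_rpow_div`, `log 2 ≥ 1/2`).
So `K = 6 K0 4 ^ β (4 + 4 / (γ - β))` works.
-/

set_option autoImplicit false

namespace Pool.Agent.Lib.MP_1620fb_al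

open Finset

/-- One dyadic piece. -/
theorem dya_piece {K0 Λ r β : ℝ} (k : ℕ) (hK : 0 < K0) (hΛ : 1 ≤ Λ) (hβ : 1 ≤ β)
    (hr : r = 2 ^ k / (2 * Λ)) :
    K0 * (8 * Λ * r + 2) * ((r / 2) ^ 2) ^ (-β / 2) ≤ 6 * K0 * (4 * Λ) ^ β := by
  have hΛ0 : (0 : ℝ) < Λ := by linarith
  obtain ⟨x, hx⟩ : ∃ x : ℝ, x = 2 ^ k := ⟨_, rfl⟩
  have hx1 : 1 ≤ x := by
    rw [hx]
    exact one_le_pow₀ (by norm_num)
  have hx0 : 0 < x := by linarith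
  rw [← hx] at hr
  have hr2 : r / 2 = x / (4 * Λ) := by
    rw [hr]
    field_simp
    ring
  have h1 : ((r / 2) ^ 2) ^ (-β / 2) = x ^ (-β) * (4 * Λ) ^ β := by
    rw [hr2, ← Real.rpow_natCast, ← Real.rpow_mul (by positivity),
      show ((2 : ℕ) : ℝ) * (-β / 2) = -β by push_cast; ring, Real.div_rpow hx0.le (by positivity),
      Real.rpow_neg (by positivity : (0:ℝ) ≤ 4 * Λ), div_inv_eq_mul]
  have h2 : x ^ (-β) ≤ x⁻¹ := by
    rw [← Real.rpow_neg_one]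
    exact Real.rpow_le_rpow_of_exponent_le hx1 (by linarith)
  have h3 : 8 * Λ * r = 4 * x := by
    rw [hr]
    field_simp
    ring
  rw [h1, h3]
  have h4 : (0 : ℝ) ≤ (4 * Λ) ^ β := by positivity
  have h5 : (4 * x + 2) * x ^ (-β) ≤ 6 := by
    calc (4 * x + 2) * x ^ (-β) ≤ (4 * x + 2) * x⁻¹ := mul_le_mul_of_nonneg_left h2 (by positivity)
      _ = 4 + 2 * x⁻¹ := by
        field_simp
      _ ≤ 4 + 2 * 1 := by
        have := inv_le_one_of_one_le₀ hx1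
        linarith
      _ = 6 := by norm_num
  calc K0 * (4 * x + 2) * (x ^ (-β) * (4 * Λ) ^ β) = K0 * (((4 * x + 2) * x ^ (-β)) * (4 * Λ) ^ β) := by
        ring
    _ ≤ K0 * (6 * (4 * Λ) ^ β) :=
        mul_le_mul_of_nonneg_left (mul_le_mul_of_nonneg_right h5 h4) hK.le
    _ = _ := by ring

theorem dya {t : ℝ} (ht : t ^ 2 = 2) (β γ : ℝ) (hβ : 1 ≤ β) (hγ : β < γ) :
    ∃ K : ℝ, 0 < K ∧ ∀ (Λ p q : ℝ), 1 ≤ Λ → p ^ 2 + q ^ 2 = 1 → ∀ F : Finset G,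
      (∀ s ∈ F, nm t s ≤ 8 ∧ nm (-t) s ≤ Λ) →
      ∑ s ∈ F, ln (-t) s p q ^ (-β / 2) ≤ K * Λ ^ γ := by
  obtain ⟨K0, hK0, hpig⟩ := pig ht
  have hγβ : 0 < γ - β := by linarith
  refine ⟨6 * K0 * 4 ^ β * (4 + 4 / (γ - β)), by positivity, ?_⟩
  intro Λ p q hΛ hpq F hF
  have hΛ0 : (0 : ℝ) < Λ := by linarith
  obtain ⟨n, hn⟩ : ∃ n : ℕ, n = ⌈Real.logb 2 (4 * Λ ^ 2)⌉₊ := ⟨_, rfl⟩
  have h4Λ : (0 : ℝ) < 4 * Λ ^ 2 := by positivity
  have hn1 : 4 * Λ ^ 2 ≤ (2 : ℝ) ^ n := by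
    have h1 : Real.logb 2 (4 * Λ ^ 2) ≤ (n : ℝ) := by
      rw [hn]
      exact Nat.le_ceil _
    rw [Real.logb_le_iff_le_rpow (by norm_num) h4Λ, Real.rpow_natCast] at h1
    exact h1
  obtain ⟨r, hr⟩ : ∃ r : ℕ → ℝ, r = fun k => 2 ^ k / (2 * Λ) := ⟨_, rfl⟩
  have hrk : ∀ k, r k = 2 ^ k / (2 * Λ) := fun k => by rw [hr]
  have hr0 : ∀ k, 0 < r k := fun k => by
    rw [hrk]
    positivity
  have hrs : ∀ k, r (k + 1) / 2 = r k := fun k => by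
    rw [hrk, hrk, pow_succ]
    field_simp
  have hrn : 2 * Λ ≤ r n := by
    rw [hrk, le_div_iff₀ (by positivity)]
    calc 2 * Λ * (2 * Λ) = 4 * Λ ^ 2 := by ring
      _ ≤ _ := hn1
  have hlb : ∀ s ∈ F, (1 / (2 * Λ)) ^ 2 ≤ ln (-t) s p q ∧ ln (-t) s p q ≤ (2 * Λ) ^ 2 := fun s hs =>
    ln_bounds (t := -t) (by rw [neg_sq]; exact ht) s p q Λ hpq hΛ (hF s hs).2
  have hk : ∀ s ∈ F, ∃ k ∈ Finset.range (n + 1), (r k / 2) ^ 2 < ln (-t) s p q ∧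
      ln (-t) s p q ≤ (r k) ^ 2 := by
    intro s hs
    obtain ⟨h1, h2⟩ := hlb s hs
    have hex : ∃ k, ln (-t) s p q ≤ (r k) ^ 2 :=
      ⟨n, h2.trans (pow_le_pow_left₀ (by positivity) hrn 2)⟩
    classical
    have hle : Nat.find hex ≤ n := Nat.find_le (h2.trans (pow_le_pow_left₀ (by positivity) hrn 2))
    refine ⟨Nat.find hex, Finset.mem_range.mpr (Nat.lt_succ_of_le hle), ?_, Nat.find_spec hex⟩
    rcases Nat.eq_zero_or_pos (Nat.find hex) with h0 | h0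
    · rw [h0]
      have h3 : r 0 = 1 / (2 * Λ) := by rw [hrk, pow_zero]
      rw [← h3] at h1
      refine lt_of_lt_of_le ?_ h1
      have := hr0 0
      nlinarith
    · obtain ⟨m, hm⟩ := Nat.exists_eq_succ_of_ne_zero h0.ne'
      rw [hm]
      have h3 := Nat.find_min hex (m := m) (by omega)
      rw [not_le] at h3
      rw [Nat.succ_eq_add_one, hrs]
      exact h3
  choose! κ hκ1 hκ2 using hk
  rw [← Finset.sum_fiberwise_of_maps_to hκ1]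
  have hpiece : ∀ k ∈ Finset.range (n + 1),
      ∑ s ∈ F with κ s = k, ln (-t) s p q ^ (-β / 2) ≤ 6 * K0 * (4 * Λ) ^ β := by
    intro k _
    have h1 : ∀ s ∈ F.filter (fun s => κ s = k), ln (-t) s p q ^ (-β / 2) ≤
        ((r k / 2) ^ 2) ^ (-β / 2) := by
      intro s hs
      rw [Finset.mem_filter] at hs
      have h2 := (hκ2 s hs.1).1
      rw [hs.2] at h2
      have := hr0 k
      exact Real.rpow_le_rpow_of_nonpos (by positivity) h2.le (by linarith)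
    refine (Finset.sum_le_card_nsmul _ _ _ h1).trans ?_
    rw [nsmul_eq_mul]
    have h3 := hpig Λ p q (r k) hΛ hpq (hr0 k) (F.filter (fun s => κ s = k)) (by
      intro s hs
      rw [Finset.mem_filter] at hs
      have h2 := hκ2 s hs.1
      rw [hs.2] at h2
      exact ⟨(hF s hs.1).1, (hF s hs.1).2, h2.1, h2.2⟩)
    refine (mul_le_mul_of_nonneg_right h3 (by positivity)).trans ?_
    exact dya_piece k hK0 hΛ hβ (hrk k)
  refine (Finset.sum_le_sum hpiece).trans ?_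
  rw [Finset.sum_const, Finset.card_range, nsmul_eq_mul]
  have hn2 : ((n + 1 : ℕ) : ℝ) ≤ (4 + 4 / (γ - β)) * Λ ^ (γ - β) := by
    have hl0 : 0 ≤ Real.log Λ := Real.log_nonneg hΛ
    have hlog2 : (1 / 2 : ℝ) < Real.log 2 := by
      have := Real.log_two_gt_d9
      linarith
    have h1 : Real.logb 2 (4 * Λ ^ 2) = 2 + 2 * Real.log Λ / Real.log 2 := by
      rw [Real.logb, Real.log_mul (by norm_num) (by positivity), Real.log_pow,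
        show (4 : ℝ) = 2 ^ 2 by norm_num, Real.log_pow]
      push_cast
      field_simp
    have h2 : 2 * Real.log Λ / Real.log 2 ≤ 4 * Real.log Λ := by
      rw [div_le_iff₀ (by linarith)]
      nlinarith
    have h3 : (n : ℝ) < Real.logb 2 (4 * Λ ^ 2) + 1 := by
      rw [hn]
      refine Nat.ceil_lt_add_one ?_
      rw [h1]
      positivity
    have h4 : Real.log Λ ≤ Λ ^ (γ - β) / (γ - β) := Real.log_le_rpow_div hΛ0.le hγβ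
    have h5 : (1 : ℝ) ≤ Λ ^ (γ - β) := Real.one_le_rpow hΛ hγβ.le
    push_cast
    calc (n : ℝ) + 1 ≤ 4 * 1 + 4 * Real.log Λ := by linarith
      _ ≤ 4 * Λ ^ (γ - β) + 4 * (Λ ^ (γ - β) / (γ - β)) := by linarith
      _ = _ := by ring
  have h6 : Λ ^ (γ - β) * Λ ^ β = Λ ^ γ := by
    rw [← Real.rpow_add hΛ0]
    congr 1
    ring
  calc ((n + 1 : ℕ) : ℝ) * (6 * K0 * (4 * Λ) ^ β) ≤
        (4 + 4 / (γ - β)) * Λ ^ (γ - β) * (6 * K0 * (4 * Λ) ^ β) :=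
        mul_le_mul_of_nonneg_right hn2 (by positivity)
    _ = 6 * K0 * 4 ^ β * (4 + 4 / (γ - β)) * (Λ ^ (γ - β) * Λ ^ β) := by
        rw [Real.mul_rpow (by norm_num) hΛ0.le]
        ring
    _ = _ := by rw [h6]

end Pool.Agent.Lib.MP_1620fb_al
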