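import Pool.Agent.Lib.MP_1620fb_al.Bas

/-!
# JOB Euc: the Euclidean algorithm in `ℤ[√2]`

`|N(a)|` for `a = ⟨x, y⟩` is `|x ^ 2 - 2 y ^ 2|` (`Zsqrtd.norm`, multiplicative `Zsqrtd.norm_mul`).
* Division: for `a`, `b ≠ 0` there is `q` with `|N(a - q b)| < |N(b)|`: let `a / b = X + Y √2` with rational `X`, `Y`
  (`X = (a * star b).re / N b`, `Y = (a * star b).im / N b`), `q = ⟨round X, round Y⟩`; then
  `N(a - q b) = N(b) ((X - round X) ^ 2 - 2 (Y - round Y) ^ 2)` and `-1/2 ≤ u ^ 2 - 2 v ^ 2 ≤ 1/4` for `|u|, |v| ≤ 1/2`.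
* `bezout`: strong induction on `|N(b)|` (natural number `(N b).natAbs`). `b = 0`: `g = a`, `a' = 1`, `b' = 0`, `x = 1`, `y = 0`.
  Otherwise `a = q b + r`, by induction for `(b, r)`: `b = g b₁`, `r = g r₁`, `b₁ x₁ + r₁ y₁ = 1`; then `a = g (q b₁ + r₁)`,
  `(q b₁ + r₁) y₁ + b₁ (x₁ - q y₁) = 1`.
(Alternatively give `Zsqrtd 2` the structure of a Euclidean domain as in `NumberTheory/Zsqrtd/GaussianInt` of Mathlib.)
-/

set_option autoImplicit false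

namespace Pool.Agent.Lib.MP_1620fb_al

theorem euclid_div (a b : Zsqrtd 2) (hb : b ≠ 0) :
    ∃ q : Zsqrtd 2, (a - q * b).norm.natAbs < b.norm.natAbs := by
  have hN : b.norm ≠ 0 := by
    intro h
    apply hb
    refine (Zsqrtd.norm_eq_zero (fun n hn => ?_) b).mp h
    have h1 : n ≤ 1 := by nlinarith
    have h2 : -1 ≤ n := by nlinarith
    interval_cases n <;> omega
  obtain ⟨N, hNdef⟩ : ∃ N : ℤ, N = b.norm := ⟨_, rfl⟩
  obtain ⟨p, hp⟩ : ∃ p : ℤ, p = a.re * b.re - 2 * a.im * b.im := ⟨_, rfl⟩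
  obtain ⟨r, hr⟩ : ∃ r : ℤ, r = a.im * b.re - a.re * b.im := ⟨_, rfl⟩
  obtain ⟨m, hm⟩ : ∃ m : ℤ, m = round ((p : ℚ) / (N : ℚ)) := ⟨_, rfl⟩
  obtain ⟨n, hn⟩ : ∃ n : ℤ, n = round ((r : ℚ) / (N : ℚ)) := ⟨_, rfl⟩
  have hu := abs_sub_round ((p : ℚ) / (N : ℚ))
  have hv := abs_sub_round ((r : ℚ) / (N : ℚ))
  rw [← hm] at hu
  rw [← hn] at hv
  have hNQ : (N : ℚ) ≠ 0 := by
    rw [hNdef]
    exact_mod_cast hN
  refine ⟨⟨m, n⟩, ?_⟩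
  rw [Int.natAbs_lt_iff_sq_lt, ← hNdef]
  obtain ⟨M, hM⟩ : ∃ M : ℤ, M = (a - ⟨m, n⟩ * b).norm := ⟨_, rfl⟩
  rw [← hM]
  have hid : M * N = (p - m * N) ^ 2 - 2 * (r - n * N) ^ 2 := by
    rw [hM, hNdef, hp, hr]
    simp only [Zsqrtd.norm_def, Zsqrtd.re_sub, Zsqrtd.im_sub, Zsqrtd.re_mul, Zsqrtd.im_mul]
    ring
  obtain ⟨u, hud⟩ : ∃ u : ℚ, u = (p : ℚ) / (N : ℚ) - m := ⟨_, rfl⟩
  obtain ⟨v, hvd⟩ : ∃ v : ℚ, v = (r : ℚ) / (N : ℚ) - n := ⟨_, rfl⟩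
  rw [← hud] at hu
  rw [← hvd] at hv
  have hu' : (p : ℚ) - m * N = u * N := by
    rw [hud]
    field_simp
  have hv' : (r : ℚ) - n * N = v * N := by
    rw [hvd]
    field_simp
  have hidQ : (M : ℚ) * N = ((p : ℚ) - m * N) ^ 2 - 2 * ((r : ℚ) - n * N) ^ 2 := by
    exact_mod_cast hid
  have hMQ : (M : ℚ) = N * (u ^ 2 - 2 * v ^ 2) := by
    have : (M : ℚ) * N = (N * (u ^ 2 - 2 * v ^ 2)) * N := by
      rw [hidQ, hu', hv']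
      ring
    exact mul_right_cancel₀ hNQ this
  rw [abs_le] at hu hv
  have hu2 : u ^ 2 ≤ 1 / 4 := by nlinarith [hu.1, hu.2]
  have hv2 : v ^ 2 ≤ 1 / 4 := by nlinarith [hv.1, hv.2]
  have hw : (u ^ 2 - 2 * v ^ 2) ^ 2 < 1 := by
    have h1 : -(1 / 2) ≤ u ^ 2 - 2 * v ^ 2 := by nlinarith [sq_nonneg u]
    have h2 : u ^ 2 - 2 * v ^ 2 ≤ 1 / 4 := by nlinarith [sq_nonneg v]
    nlinarith
  have hN2 : (0 : ℚ) < (N : ℚ) ^ 2 := by positivity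
  have hfin : (M : ℚ) ^ 2 < (N : ℚ) ^ 2 := by
    rw [hMQ, mul_pow]
    nlinarith
  exact_mod_cast hfin

theorem bezout (a b : Zsqrtd 2) :
    ∃ g a' b' x y : Zsqrtd 2, a = g * a' ∧ b = g * b' ∧ a' * x + b' * y = 1 := by
  obtain ⟨n, hn⟩ : ∃ n, n = b.norm.natAbs := ⟨_, rfl⟩
  induction n using Nat.strong_induction_on generalizing a b with
  | _ n ih =>
    by_cases hb : b = 0
    · exact ⟨a, 1, 0, 1, 0, by simp, by simp [hb], by simp⟩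
    · obtain ⟨q, hq⟩ := euclid_div a b hb
      rw [← hn] at hq
      obtain ⟨g, b1, r1, x1, y1, h1, h2, h3⟩ := ih _ hq b (a - q * b) rfl
      refine ⟨g, q * b1 + r1, b1, y1, x1 - q * y1, ?_, h1, ?_⟩
      · linear_combination h2 + q * h1
      · linear_combination h3

end Pool.Agent.Lib.MP_1620fb_al
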