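import Pool.Agent.Lib.MP_1620fb_al.Vol

/-!
# JOB Fua: elementary properties of `mat`, `wt`, `uu`

* `mat_mul`: `em_mul`, `em_add` and `Matrix.mul_apply`, `Fin.sum_univ_two`; `mat_one`; `mat_det` is `em_det`; `mat_mul_inv` from `mat_mul`.
* `cdet_act`: polynomial identity. `cdet_box`: on the box `|y.1 0 * y.2 1| ≥ 9/16`, `|y.1 1 * y.2 0| ≤ 1/16`.
* `norm_act`: lower bound for the norm of `A⁻¹ y`: for `y` with `cdet y ≠ 0` the matrix `Y` with columns `y.1, y.2` is invertible, and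
  `mat t h⁻¹ = (mat t h⁻¹ Y) Y⁻¹`. The norm of the pair of columns `act (mat t h⁻¹) y` is the largest absolute value of an entry
  of `mat t h⁻¹ Y`; the entries of `Y⁻¹` are at most `‖y‖ / |cdet y|`; so `nm t h = nm t h⁻¹ ≤ 2 * ‖act (mat t h⁻¹) y‖ * (‖y‖ / |cdet y|)`.
  (By hand: if `(p, q)` are the columns, `A p = P`, `A q = Q` then `A_{i0} = (P_i q_1 - Q_i p_1) / cdet`, `A_{i1} = (Q_i p_0 - P_i q_0) / cdet`.)
  `‖y‖ ≠ 0` as `cdet y ≠ 0`; so `κ = |cdet y| / (2 ‖y‖) > 0`.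
* `wt_shift`: `act (mat t (s g)⁻¹) (act (mat t s) y) = act (mat t g⁻¹) y` (`act_act`, `mat_mul`).
* `uu_mul`: reindex the sum by `Equiv.mulLeft h₀` (`Equiv.tsum_eq`).
* `uu_meas`: `φ` is measurable (`Antitone.measurable`), `y ↦ ‖act A y‖` is continuous; `Measurable.ennreal_tsum` (`H` is countable: `G` is
  countable as `Zsqrtd 2` is, e.g. via the injection `a ↦ (a.re, a.im)`), `Measurable.ennreal_toReal`.
-/

set_option autoImplicit false

namespace Pool.Agent.Lib.MP_1620fb_al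

open MeasureTheory

theorem mat_mul {t : ℝ} (ht : t ^ 2 = 2) (g h : G) : mat t (g * h) = mat t g * mat t h := by
  ext i j
  have h1 : (g * h).1 i j = g.1 i 0 * h.1 0 j + g.1 i 1 * h.1 1 j := by
    change (g.1 * h.1) i j = _
    rw [Matrix.mul_apply, Fin.sum_univ_two]
  rw [Matrix.mul_apply, Fin.sum_univ_two]
  change em t ((g * h).1 i j) =
    em t (g.1 i 0) * em t (h.1 0 j) + em t (g.1 i 1) * em t (h.1 1 j)
  rw [h1, em_add, em_mul ht, em_mul ht]

theorem mat_one (t : ℝ) : mat t 1 = 1 := by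
  ext i j
  fin_cases i <;> fin_cases j <;> simp [mat, em_one, em_zero]

theorem mat_det {t : ℝ} (ht : t ^ 2 = 2) (g : G) : (mat t g).det = 1 := by
  rw [Matrix.det_fin_two]
  exact em_det ht g

theorem mat_mul_inv {t : ℝ} (ht : t ^ 2 = 2) (g : G) : mat t g * mat t g⁻¹ = 1 := by
  rw [← mat_mul ht, mul_inv_cancel, mat_one]

theorem cdet_act (A : Matrix (Fin 2) (Fin 2) ℝ) (y : Col) : cdet (act A y) = A.det * cdet y := by
  unfold cdet act
  simp only [Matrix.mulVec, dotProduct, Fin.sum_univ_two, Matrix.det_fin_two]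
  ring

theorem cdet_box {y : Col} (hy : y ∈ box) : cdet y ≠ 0 := by
  obtain ⟨h1, h2, h3, h4⟩ := hy
  have a1 := (abs_le.1 h1).1
  have a4 := (abs_le.1 h4).1
  have h5 : |y.1 1 * y.2 0| ≤ 1 / 4 * (1 / 4) := by
    rw [abs_mul]
    exact mul_le_mul h2 h3 (abs_nonneg _) (by norm_num)
  have h6 := (abs_le.1 h5).2
  have h7 : 0 ≤ (y.1 0 - 3 / 4) * (y.2 1 - 3 / 4) :=
    mul_nonneg (by linarith) (by linarith)
  unfold cdet
  intro h0
  nlinarith

theorem norm_act {t : ℝ} (y : Col) (hy : cdet y ≠ 0) :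
    ∃ κ : ℝ, 0 < κ ∧ ∀ h : G, κ * nm t h ≤ ‖act (mat t h⁻¹) y‖ := by
  have hc : 0 < |cdet y| := abs_pos.2 hy
  have hy0 : 0 < ‖y‖ := by
    refine norm_pos_iff.2 ?_
    rintro rfl
    apply hy
    simp [cdet]
  refine ⟨|cdet y| / (2 * ‖y‖), by positivity, fun h => ?_⟩
  have hy1 : ∀ i, |y.1 i| ≤ ‖y‖ := fun i => by
    rw [← Real.norm_eq_abs]
    exact (norm_le_pi_norm y.1 i).trans (norm_fst_le y)
  have hy2 : ∀ i, |y.2 i| ≤ ‖y‖ := fun i => by
    rw [← Real.norm_eq_abs]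
    exact (norm_le_pi_norm y.2 i).trans (norm_snd_le y)
  set A := mat t h⁻¹ with hA
  have hP : ∀ i, |(act A y).1 i| ≤ ‖act A y‖ := fun i => by
    rw [← Real.norm_eq_abs]
    exact (norm_le_pi_norm (act A y).1 i).trans (norm_fst_le _)
  have hQ : ∀ i, |(act A y).2 i| ≤ ‖act A y‖ := fun i => by
    rw [← Real.norm_eq_abs]
    exact (norm_le_pi_norm (act A y).2 i).trans (norm_snd_le _)
  have hPe : ∀ i, (act A y).1 i = A i 0 * y.1 0 + A i 1 * y.1 1 := fun i => by
    simp only [act, Matrix.mulVec, dotProduct, Fin.sum_univ_two]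
  have hQe : ∀ i, (act A y).2 i = A i 0 * y.2 0 + A i 1 * y.2 1 := fun i => by
    simp only [act, Matrix.mulVec, dotProduct, Fin.sum_univ_two]
  have hn : 0 ≤ ‖act A y‖ := norm_nonneg _
  have hA0 : ∀ i, A i 0 * cdet y = (act A y).1 i * y.2 1 - (act A y).2 i * y.1 1 := fun i => by
    rw [hPe, hQe]
    unfold cdet
    ring
  have hA1 : ∀ i, A i 1 * cdet y = (act A y).2 i * y.1 0 - (act A y).1 i * y.2 0 := fun i => by
    rw [hPe, hQe]
    unfold cdet
    ring
  have hbd : ∀ i j, |A i j| * |cdet y| ≤ 2 * ‖act A y‖ * ‖y‖ := by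
    intro i j
    rw [← abs_mul]
    fin_cases j
    · change |A i 0 * cdet y| ≤ _
      rw [hA0]
      refine (abs_sub _ _).trans ?_
      rw [abs_mul, abs_mul]
      have e1 := mul_le_mul (hP i) (hy2 1) (abs_nonneg _) hn
      have e2 := mul_le_mul (hQ i) (hy1 1) (abs_nonneg _) hn
      linarith
    · change |A i 1 * cdet y| ≤ _
      rw [hA1]
      refine (abs_sub _ _).trans ?_
      rw [abs_mul, abs_mul]
      have e1 := mul_le_mul (hQ i) (hy1 0) (abs_nonneg _) hn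
      have e2 := mul_le_mul (hP i) (hy2 0) (abs_nonneg _) hn
      linarith
  have hnm : nm t h ≤ 2 * ‖act A y‖ * ‖y‖ / |cdet y| := by
    rw [← nm_inv]
    refine nm_le fun i j => ?_
    rw [le_div_iff₀ hc]
    exact hbd i j
  rw [div_mul_eq_mul_div, div_le_iff₀ (by positivity)]
  rw [le_div_iff₀ hc] at hnm
  linarith

theorem wt_shift {t : ℝ} (ht : t ^ 2 = 2) (φ : ℝ → ℝ) (β : ℝ) (s g : G) (y : Col) :
    wt φ β t (s * g) (act (mat t s) y) = φ ‖act (mat t g⁻¹) y‖ * nm (-t) (s * g) ^ (-β) := by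
  have e : (s * g)⁻¹ * s = g⁻¹ := by
    rw [mul_inv_rev, inv_mul_cancel_right]
  unfold wt
  rw [act_act, ← mat_mul ht, e]

theorem uu_mul (φ : ℝ → ℝ) (β t : ℝ) (H : Subgroup G) (g : G) (h₀ : G) (h : h₀ ∈ H) (y : Col) :
    uu φ β t H (g * h₀) y = uu φ β t H g y := by
  have e : ∑' h' : H, ENNReal.ofReal (wt φ β t (g * h₀ * (h' : G)) y) =
      ∑' h' : H, ENNReal.ofReal (wt φ β t (g * (h' : G)) y) := by
    rw [← (Equiv.mulLeft (⟨h₀, h⟩ : H)).tsum_eq
      (fun h' : H => ENNReal.ofReal (wt φ β t (g * (h' : G)) y))]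
    refine tsum_congr fun h' => ?_
    rw [Equiv.coe_mulLeft, Subgroup.coe_mul, mul_assoc]
  unfold uu
  rw [e]

theorem uu_nonneg (φ : ℝ → ℝ) (β t : ℝ) (H : Subgroup G) (g : G) (y : Col) :
    0 ≤ uu φ β t H g y := ENNReal.toReal_nonneg

theorem uu_meas {φ : ℝ → ℝ} (hφ : Antitone φ) (β t : ℝ) (H : Subgroup G) (g : G) :
    Measurable (uu φ β t H g) := by
  have h1 : Countable (Zsqrtd 2) := by
    refine Function.Injective.countable (f := fun a : Zsqrtd 2 => (a.re, a.im)) ?_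
    intro a b h
    exact Zsqrtd.ext (congrArg Prod.fst h) (congrArg Prod.snd h)
  have h2 : Countable G := by
    refine Function.Injective.countable (f := fun (g : G) (p : Fin 2 × Fin 2) => g.1 p.1 p.2) ?_
    intro g h hgh
    apply Subtype.ext
    funext i j
    exact congrFun hgh (i, j)
  unfold uu
  refine (Measurable.tsum fun h => ?_).ennreal_toReal
  refine Measurable.ennreal_ofReal ?_
  unfold wt
  refine Measurable.mul_const ?_ _
  refine hφ.measurable.comp (Continuous.measurable ?_)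
  unfold act
  refine Continuous.norm (Continuous.prodMk ?_ ?_)
  · exact Continuous.matrix_mulVec continuous_const continuous_fst
  · exact Continuous.matrix_mulVec continuous_const continuous_snd

end Pool.Agent.Lib.MP_1620fb_al
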