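import Pool.Agent.Lib.MP_1620fb_al.Fua

/-!
# JOB Fub: finiteness, positivity and the averaging inequality for `uu`

`φ` is antitone and positive, and `hs : ∀ κ > 0, Summable fun h : H => φ (κ * nm t h) * nm (-t) h ^ (-β)`, `β ≥ 0`.
* `wt_summable`: let `z = act (mat t g⁻¹) y`, `cdet z = cdet y ≠ 0` (`cdet_act`, `mat_det`). `act (mat t (g h)⁻¹) y = act (mat t h⁻¹) z`
  (`act_act`, `mat_mul`, `mul_inv_rev`), so by `norm_act` (for `z`) `φ ‖act (mat t (g h)⁻¹) y‖ ≤ φ (κ * nm t h)`. And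
  `nm (-t) h = nm (-t) (g⁻¹ (g h)) ≤ 2 nm (-t) g⁻¹ nm (-t) (g h)`, so `nm (-t) (g h) ^ (-β) ≤ (2 nm (-t) g⁻¹) ^ β nm (-t) h ^ (-β)`
  (`Real.rpow_le_rpow_of_nonpos` or by `Real.rpow_neg`, `nm_ge`). Comparison with `hs κ`.
* `uu_eq`: `ENNReal.ofReal_tsum_of_nonneg` and `ENNReal.toReal_ofReal`.
* `uu_pos`: a summable series of positive terms is positive (`Summable.tsum_pos`).
* `uu_avg`: by `uu_eq` (for `s * g` and `act (mat t s) y`, whose `cdet` is that of `y`), `mul_assoc` and `wt_shift`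
  `uu (s g) (act (mat t s) y) = ∑' h, φ ‖act (mat t (g h)⁻¹) y‖ * nm (-t) (s (g h)) ^ (-β)`. Sum over `s ∈ S`
  (`Summable.tsum_finsetSum` backwards), and the inequality `hS` for `g h` term by term (`Summable.tsum_le_tsum`, `tsum_mul_left`).
-/

set_option autoImplicit false

namespace Pool.Agent.Lib.MP_1620fb_al

open Finset

variable {t : ℝ} {φ : ℝ → ℝ} {β : ℝ} {H : Subgroup G}

theorem wt_pos (hp : ∀ x, 0 < φ x) (ht : t ^ 2 = 2) (g : G) (y : Col) : 0 < wt φ β t g y := by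
  have ht' : (-t) ^ 2 = 2 := by rw [neg_sq]; exact ht
  exact mul_pos (hp _) (Real.rpow_pos_of_pos (lt_of_lt_of_le (by norm_num) (nm_ge ht' g)) _)

theorem wt_summable (ht : t ^ 2 = 2) (hφ : Antitone φ) (hp : ∀ x, 0 < φ x) (hβ : 0 ≤ β)
    (hs : ∀ κ : ℝ, 0 < κ → Summable fun h : H => φ (κ * nm t (h : G)) * nm (-t) (h : G) ^ (-β))
    (g : G) (y : Col) (hy : cdet y ≠ 0) : Summable fun h : H => wt φ β t (g * (h : G)) y := by
  have ht' : (-t) ^ 2 = 2 := by rw [neg_sq]; exact ht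
  set z := act (mat t g⁻¹) y with hz
  have hzc : cdet z ≠ 0 := by
    rw [hz, cdet_act, mat_det ht, one_mul]
    exact hy
  obtain ⟨κ, hκ, hn⟩ := norm_act (t := t) z hzc
  have hg : 0 < nm (-t) g := lt_of_lt_of_le (by norm_num) (nm_ge ht' g)
  refine Summable.of_nonneg_of_le (fun h => (wt_pos hp ht _ _).le) (fun h => ?_)
    ((hs κ hκ).mul_left ((2 * nm (-t) g) ^ β))
  have hh : 0 < nm (-t) (h : G) := lt_of_lt_of_le (by norm_num) (nm_ge ht' _)
  have e1 : act (mat t (g * (h : G))⁻¹) y = act (mat t (h : G)⁻¹) z := by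
    rw [hz, act_act, ← mat_mul ht, mul_inv_rev]
  have e2 : φ ‖act (mat t (g * (h : G))⁻¹) y‖ ≤ φ (κ * nm t (h : G)) := by
    rw [e1]
    exact hφ (hn h)
  have e3 : nm (-t) (h : G) / (2 * nm (-t) g) ≤ nm (-t) (g * (h : G)) := by
    have e4 := nm_mul ht' g⁻¹ (g * (h : G))
    rw [inv_mul_cancel_left, nm_inv] at e4
    rw [div_le_iff₀ (by positivity)]
    linarith
  have e5 : nm (-t) (g * (h : G)) ^ (-β) ≤
      (2 * nm (-t) g) ^ β * nm (-t) (h : G) ^ (-β) := by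
    refine (Real.rpow_le_rpow_of_nonpos (by positivity) e3 (by linarith)).trans (le_of_eq ?_)
    rw [Real.div_rpow hh.le (by positivity), Real.rpow_neg (by positivity : 0 ≤ 2 * nm (-t) g),
      div_inv_eq_mul, mul_comm]
  unfold wt
  calc φ ‖act (mat t (g * (h : G))⁻¹) y‖ * nm (-t) (g * (h : G)) ^ (-β)
      ≤ φ (κ * nm t (h : G)) * ((2 * nm (-t) g) ^ β * nm (-t) (h : G) ^ (-β)) :=
        mul_le_mul e2 e5 (Real.rpow_nonneg (by linarith [nm_ge ht' (g * (h : G))]) _) (hp _).le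
    _ = (2 * nm (-t) g) ^ β * (φ (κ * nm t (h : G)) * nm (-t) (h : G) ^ (-β)) := by ring

theorem uu_eq (ht : t ^ 2 = 2) (hφ : Antitone φ) (hp : ∀ x, 0 < φ x) (hβ : 0 ≤ β)
    (hs : ∀ κ : ℝ, 0 < κ → Summable fun h : H => φ (κ * nm t (h : G)) * nm (-t) (h : G) ^ (-β))
    (g : G) (y : Col) (hy : cdet y ≠ 0) : uu φ β t H g y = ∑' h : H, wt φ β t (g * (h : G)) y := by
  unfold uu
  rw [← ENNReal.ofReal_tsum_of_nonneg (fun h => (wt_pos hp ht _ _).le)
    (wt_summable ht hφ hp hβ hs g y hy),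
    ENNReal.toReal_ofReal (tsum_nonneg fun h => (wt_pos hp ht _ _).le)]

theorem uu_pos (ht : t ^ 2 = 2) (hφ : Antitone φ) (hp : ∀ x, 0 < φ x) (hβ : 0 ≤ β)
    (hs : ∀ κ : ℝ, 0 < κ → Summable fun h : H => φ (κ * nm t (h : G)) * nm (-t) (h : G) ^ (-β))
    (g : G) (y : Col) (hy : cdet y ≠ 0) : 0 < uu φ β t H g y := by
  rw [uu_eq ht hφ hp hβ hs g y hy]
  exact (wt_summable ht hφ hp hβ hs g y hy).tsum_pos (fun h => (wt_pos hp ht _ _).le) 1
    (wt_pos hp ht _ _)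

theorem uu_avg (ht : t ^ 2 = 2) (hφ : Antitone φ) (hp : ∀ x, 0 < φ x) (hβ : 0 ≤ β)
    (hs : ∀ κ : ℝ, 0 < κ → Summable fun h : H => φ (κ * nm t (h : G)) * nm (-t) (h : G) ^ (-β))
    (S : Finset G) (η : ℝ)
    (hS : ∀ g : G, ∑ s ∈ S, nm (-t) (s * g) ^ (-β) ≤ η * (S.card : ℝ) * nm (-t) g ^ (-β))
    (g : G) (y : Col) (hy : cdet y ≠ 0) :
    ∑ s ∈ S, uu φ β t H (s * g) (act (mat t s) y) ≤ η * (S.card : ℝ) * uu φ β t H g y := by
  have hcd : ∀ s : G, cdet (act (mat t s) y) ≠ 0 := fun s => by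
    rw [cdet_act, mat_det ht, one_mul]
    exact hy
  have hsum : ∀ s : G, Summable fun h : H => wt φ β t (s * g * (h : G)) (act (mat t s) y) :=
    fun s => wt_summable ht hφ hp hβ hs (s * g) _ (hcd s)
  rw [Finset.sum_congr rfl fun s _ => uu_eq ht hφ hp hβ hs (s * g) _ (hcd s),
    uu_eq ht hφ hp hβ hs g y hy, ← Summable.tsum_finsetSum (fun s _ => hsum s), ← tsum_mul_left]
  refine Summable.tsum_le_tsum (fun h => ?_) (summable_sum fun s _ => hsum s)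
    ((wt_summable ht hφ hp hβ hs g y hy).mul_left _)
  have e1 : ∀ s ∈ S, wt φ β t (s * g * (h : G)) (act (mat t s) y) =
      φ ‖act (mat t (g * (h : G))⁻¹) y‖ * nm (-t) (s * (g * (h : G))) ^ (-β) := by
    intro s _
    rw [mul_assoc, wt_shift ht]
  rw [Finset.sum_congr rfl e1, ← Finset.mul_sum]
  have e2 := mul_le_mul_of_nonneg_left (hS (g * (h : G)))
    (hp ‖act (mat t (g * (h : G))⁻¹) y‖).le
  refine e2.trans (le_of_eq ?_)
  unfold wt
  ring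

end Pool.Agent.Lib.MP_1620fb_al
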