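import Pool.Agent.Lib.MP_1620fb_al.Bas

/-!
# JOB Geo: two matrices in the same cell differ by a bounded matrix

`ow s p q = em s (p, q)` (column vector), `oz s p q = em s (-q, p)`.
* `geo_real`: with `n = w1^2+w2^2`, `n' = w1'^2+w2'^2`, `κ = (z1 w1 + z2 w2) / n`, `κ' = ...` we have
  `z1 = κ w1 - w2 / n`, `z2 = κ w2 + w1 / n` (from `w1 z2 - w2 z1 = 1`), same for `z'`. Hence e.g.
  `w1' z2 - z1' w2 = (κ - κ') w1' w2 + w1' w1 / n + w2' w2 / n'`. With `r/2 < √n ≤ r` etc. the three terms are at most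
  `|κ - κ'| r^2 ≤ 1`, `√n' / √n ≤ 2`, `√n / √n' ≤ 2`. The other three entries in the same way.
* `geo`: for `s, s' : G` apply `geo_real`: `em (-t)` of the entries of `s' s⁻¹` are the entries of
  `[w' z'] [w z]⁻¹` because `p ^ 2 + q ^ 2 = 1` (compute: `s'₂ (R R⁻¹) s₂⁻¹` with `R = (p, -q; q, p)`; e.g.
  entry `0 0`: `a' d - b' c = w1' z2 - z1' w2` where `w1' = a' p + b' q`, `z1' = -a' q + b' p`,
  `w2 = c p + d q`, `z2 = -c q + d p`; ring identity times `p^2+q^2 = 1`). `t ^ 2 = 2` is applied to `-t`.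
-/

set_option autoImplicit false

namespace Pool.Agent.Lib.MP_1620fb_al

/-- The image of the column vector `(p, q)` under `em t s`, first coordinate. -/
def o1 (t : ℝ) (s : G) (p q : ℝ) : ℝ := em t (s.1 0 0) * p + em t (s.1 0 1) * q

/-- The image of the column vector `(p, q)` under `em t s`, second coordinate. -/
def o2 (t : ℝ) (s : G) (p q : ℝ) : ℝ := em t (s.1 1 0) * p + em t (s.1 1 1) * q

/-- The square of the length of the image of `(p, q)`. -/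
def ln (t : ℝ) (s : G) (p q : ℝ) : ℝ := o1 t s p q ^ 2 + o2 t s p q ^ 2

/-- The shear coordinate. -/
noncomputable def kap (t : ℝ) (s : G) (p q : ℝ) : ℝ :=
  (o1 t s (-q) p * o1 t s p q + o2 t s (-q) p * o2 t s p q) / ln t s p q

private theorem Geo_ratio {a b n r : ℝ} (hr : 0 < r) (ha : a ^ 2 ≤ r ^ 2) (hb : b ^ 2 ≤ n)
    (hn : (r / 2) ^ 2 < n) : |a * b / n| ≤ 2 := by
  have hn0 : 0 < n := lt_of_le_of_lt (sq_nonneg _) hn
  rw [abs_div, abs_of_pos hn0, div_le_iff₀ hn0]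
  apply abs_le_of_sq_le_sq _ (by positivity)
  have h1 : r ^ 2 ≤ 4 * n := by nlinarith
  calc (a * b) ^ 2 = a ^ 2 * b ^ 2 := by ring
    _ ≤ (4 * n) * n := by
        apply mul_le_mul (ha.trans h1) hb (sq_nonneg _) (by positivity)
    _ = (2 * n) ^ 2 := by ring

private theorem Geo_first {k a b r : ℝ} (hr : 0 < r) (ha : a ^ 2 ≤ r ^ 2) (hb : b ^ 2 ≤ r ^ 2)
    (hk : |k| * r ^ 2 ≤ 1) : |k * (a * b)| ≤ 1 := by
  have ha' : |a| ≤ r := abs_le_of_sq_le_sq ha hr.le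
  have hb' : |b| ≤ r := abs_le_of_sq_le_sq hb hr.le
  rw [abs_mul, abs_mul]
  refine le_trans ?_ hk
  apply mul_le_mul_of_nonneg_left _ (abs_nonneg _)
  rw [sq]
  exact mul_le_mul ha' hb' (abs_nonneg _) hr.le

private theorem Geo_three {x y z : ℝ} (hx : |x| ≤ 1) (hy : |y| ≤ 2) (hz : |z| ≤ 2) :
    |x + y + z| ≤ 5 ∧ |-x + y - z| ≤ 5 ∧ |x + y - z| ≤ 5 ∧ |-x + y + z| ≤ 5 := by
  rw [abs_le] at hx hy hz
  refine ⟨?_, ?_, ?_, ?_⟩ <;> rw [abs_le] <;> constructor <;> linarith [hx.1, hx.2, hy.1, hy.2, hz.1, hz.2]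

theorem geo_real {w1 w2 z1 z2 w1' w2' z1' z2' r : ℝ} (hr : 0 < r) (hd : w1 * z2 - w2 * z1 = 1)
    (hd' : w1' * z2' - w2' * z1' = 1) (h1 : (r / 2) ^ 2 < w1 ^ 2 + w2 ^ 2)
    (h2 : w1 ^ 2 + w2 ^ 2 ≤ r ^ 2) (h1' : (r / 2) ^ 2 < w1' ^ 2 + w2' ^ 2)
    (h2' : w1' ^ 2 + w2' ^ 2 ≤ r ^ 2)
    (hk : |(z1 * w1 + z2 * w2) / (w1 ^ 2 + w2 ^ 2) - (z1' * w1' + z2' * w2') / (w1' ^ 2 + w2' ^ 2)| *
      r ^ 2 ≤ 1) :
    |w1' * z2 - z1' * w2| ≤ 5 ∧ |z1' * w1 - w1' * z1| ≤ 5 ∧ |w2' * z2 - z2' * w2| ≤ 5 ∧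
      |z2' * w1 - w2' * z1| ≤ 5 := by
  have hn0 : 0 < w1 ^ 2 + w2 ^ 2 := lt_of_le_of_lt (sq_nonneg _) h1
  have hn0' : 0 < w1' ^ 2 + w2' ^ 2 := lt_of_le_of_lt (sq_nonneg _) h1'
  have b1 : w1 ^ 2 ≤ w1 ^ 2 + w2 ^ 2 := le_add_of_nonneg_right (sq_nonneg _)
  have b2 : w2 ^ 2 ≤ w1 ^ 2 + w2 ^ 2 := le_add_of_nonneg_left (sq_nonneg _)
  have b1' : w1' ^ 2 ≤ w1' ^ 2 + w2' ^ 2 := le_add_of_nonneg_right (sq_nonneg _)
  have b2' : w2' ^ 2 ≤ w1' ^ 2 + w2' ^ 2 := le_add_of_nonneg_left (sq_nonneg _)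
  generalize hnn : w1 ^ 2 + w2 ^ 2 = n at *
  generalize hnn' : w1' ^ 2 + w2' ^ 2 = n' at *
  generalize hka : (z1 * w1 + z2 * w2) / n = κ at *
  generalize hka' : (z1' * w1' + z2' * w2') / n' = κ' at *
  have e1 : z1 = κ * w1 - w2 / n := by
    rw [← hka]
    field_simp
    rw [← hnn]
    linear_combination (-w2) * hd
  have e2 : z2 = κ * w2 + w1 / n := by
    rw [← hka]
    field_simp
    rw [← hnn]
    linear_combination w1 * hd
  have e1' : z1' = κ' * w1' - w2' / n' := by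
    rw [← hka']
    field_simp
    rw [← hnn']
    linear_combination (-w2') * hd'
  have e2' : z2' = κ' * w2' + w1' / n' := by
    rw [← hka']
    field_simp
    rw [← hnn']
    linear_combination w1' * hd'
  have c1 := b1.trans h2
  have c2 := b2.trans h2
  have c1' := b1'.trans h2'
  have c2' := b2'.trans h2'
  refine ⟨?_, ?_, ?_, ?_⟩
  · have e : w1' * z2 - z1' * w2 = (κ - κ') * (w1' * w2) + w1' * w1 / n + w2 * w2' / n' := by
      rw [e2, e1']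
      ring
    rw [e]
    exact (Geo_three (Geo_first hr c1' c2 hk) (Geo_ratio hr c1' b1 h1)
      (Geo_ratio hr c2 b2' h1')).1
  · have e : z1' * w1 - w1' * z1 = -((κ - κ') * (w1' * w1)) + w1' * w2 / n - w1 * w2' / n' := by
      rw [e1, e1']
      ring
    rw [e]
    exact (Geo_three (Geo_first hr c1' c1 hk) (Geo_ratio hr c1' b2 h1)
      (Geo_ratio hr c1 b2' h1')).2.1
  · have e : w2' * z2 - z2' * w2 = (κ - κ') * (w2' * w2) + w2' * w1 / n - w2 * w1' / n' := by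
      rw [e2, e2']
      ring
    rw [e]
    exact (Geo_three (Geo_first hr c2' c2 hk) (Geo_ratio hr c2' b1 h1)
      (Geo_ratio hr c2 b1' h1')).2.2.1
  · have e : z2' * w1 - w2' * z1 = -((κ - κ') * (w2' * w1)) + w2' * w2 / n + w1 * w1' / n' := by
      rw [e1, e2']
      ring
    rw [e]
    exact (Geo_three (Geo_first hr c2' c1 hk) (Geo_ratio hr c2' b2 h1)
      (Geo_ratio hr c1 b1' h1')).2.2.2

private theorem Geo_det {t : ℝ} (ht : t ^ 2 = 2) (s : G) (p q : ℝ) (hpq : p ^ 2 + q ^ 2 = 1) :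
    o1 t s p q * o2 t s (-q) p - o2 t s p q * o1 t s (-q) p = 1 := by
  have h := em_det ht s
  unfold o1 o2
  linear_combination (em t (s.1 0 0) * em t (s.1 1 1) - em t (s.1 0 1) * em t (s.1 1 0)) * hpq + h

theorem geo {t : ℝ} (ht : t ^ 2 = 2) (s s' : G) (p q r : ℝ) (hpq : p ^ 2 + q ^ 2 = 1) (hr : 0 < r)
    (h1 : (r / 2) ^ 2 < ln t s p q) (h2 : ln t s p q ≤ r ^ 2) (h1' : (r / 2) ^ 2 < ln t s' p q)
    (h2' : ln t s' p q ≤ r ^ 2) (hk : |kap t s p q - kap t s' p q| * r ^ 2 ≤ 1) :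
    nm t (s' * s⁻¹) ≤ 5 := by
  have key := geo_real (w1 := o1 t s p q) (w2 := o2 t s p q) (z1 := o1 t s (-q) p)
    (z2 := o2 t s (-q) p) (w1' := o1 t s' p q) (w2' := o2 t s' p q) (z1' := o1 t s' (-q) p)
    (z2' := o2 t s' (-q) p) hr (Geo_det ht s p q hpq) (Geo_det ht s' p q hpq) h1 h2 h1' h2' hk
  obtain ⟨k1, k2, k3, k4⟩ := key
  have m00 : em t ((s' * s⁻¹).1 0 0) = o1 t s' p q * o2 t s (-q) p - o1 t s' (-q) p * o2 t s p q := by
    have : (s' * s⁻¹).1 0 0 = s'.1 0 0 * s.1 1 1 - s'.1 0 1 * s.1 1 0 := by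
      rw [Matrix.SpecialLinearGroup.coe_mul, Matrix.SpecialLinearGroup.coe_inv,
        Matrix.adjugate_fin_two, Matrix.mul_apply, Fin.sum_univ_two]
      simp
      ring
    rw [this, em_sub, em_mul ht, em_mul ht]
    unfold o1 o2
    linear_combination (-(em t (s'.1 0 0) * em t (s.1 1 1) - em t (s'.1 0 1) * em t (s.1 1 0))) * hpq
  have m01 : em t ((s' * s⁻¹).1 0 1) = o1 t s' (-q) p * o1 t s p q - o1 t s' p q * o1 t s (-q) p := by
    have : (s' * s⁻¹).1 0 1 = s'.1 0 1 * s.1 0 0 - s'.1 0 0 * s.1 0 1 := by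
      rw [Matrix.SpecialLinearGroup.coe_mul, Matrix.SpecialLinearGroup.coe_inv,
        Matrix.adjugate_fin_two, Matrix.mul_apply, Fin.sum_univ_two]
      simp
      ring
    rw [this, em_sub, em_mul ht, em_mul ht]
    unfold o1
    linear_combination (-(em t (s'.1 0 1) * em t (s.1 0 0) - em t (s'.1 0 0) * em t (s.1 0 1))) * hpq
  have m10 : em t ((s' * s⁻¹).1 1 0) = o2 t s' p q * o2 t s (-q) p - o2 t s' (-q) p * o2 t s p q := by
    have : (s' * s⁻¹).1 1 0 = s'.1 1 0 * s.1 1 1 - s'.1 1 1 * s.1 1 0 := by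
      rw [Matrix.SpecialLinearGroup.coe_mul, Matrix.SpecialLinearGroup.coe_inv,
        Matrix.adjugate_fin_two, Matrix.mul_apply, Fin.sum_univ_two]
      simp
      ring
    rw [this, em_sub, em_mul ht, em_mul ht]
    unfold o2
    linear_combination (-(em t (s'.1 1 0) * em t (s.1 1 1) - em t (s'.1 1 1) * em t (s.1 1 0))) * hpq
  have m11 : em t ((s' * s⁻¹).1 1 1) = o2 t s' (-q) p * o1 t s p q - o2 t s' p q * o1 t s (-q) p := by
    have : (s' * s⁻¹).1 1 1 = s'.1 1 1 * s.1 0 0 - s'.1 1 0 * s.1 0 1 := by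
      rw [Matrix.SpecialLinearGroup.coe_mul, Matrix.SpecialLinearGroup.coe_inv,
        Matrix.adjugate_fin_two, Matrix.mul_apply, Fin.sum_univ_two]
      simp
      ring
    rw [this, em_sub, em_mul ht, em_mul ht]
    unfold o1 o2
    linear_combination (-(em t (s'.1 1 1) * em t (s.1 0 0) - em t (s'.1 1 0) * em t (s.1 0 1))) * hpq
  apply nm_le
  intro i j
  fin_cases i <;> fin_cases j
  · show |em t ((s' * s⁻¹).1 0 0)| ≤ 5
    rw [m00]
    exact k1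
  · show |em t ((s' * s⁻¹).1 0 1)| ≤ 5
    rw [m01]
    exact k2
  · show |em t ((s' * s⁻¹).1 1 0)| ≤ 5
    rw [m10]
    exact k3
  · show |em t ((s' * s⁻¹).1 1 1)| ≤ 5
    rw [m11]
    exact k4

private theorem Geo_ln_le {t : ℝ} (s : G) (p q Λ : ℝ) (hpq : p ^ 2 + q ^ 2 = 1)
    (hΛ : 1 ≤ Λ) (hs : nm t s ≤ Λ) : ln t s p q ≤ (2 * Λ) ^ 2 := by
  have hb : ∀ i j, (em t (s.1 i j)) ^ 2 ≤ Λ ^ 2 := fun i j =>
    sq_le_sq' (by linarith [abs_le.mp ((nm_entry t s i j).trans hs)])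
      (abs_le.mp ((nm_entry t s i j).trans hs)).2
  have h00 := hb 0 0
  have h01 := hb 0 1
  have h10 := hb 1 0
  have h11 := hb 1 1
  have e1 : o1 t s p q ^ 2 ≤ em t (s.1 0 0) ^ 2 + em t (s.1 0 1) ^ 2 := by
    have : em t (s.1 0 0) ^ 2 + em t (s.1 0 1) ^ 2 - o1 t s p q ^ 2 =
        (em t (s.1 0 0) * q - em t (s.1 0 1) * p) ^ 2 := by
      unfold o1
      linear_combination (-(em t (s.1 0 0) ^ 2 + em t (s.1 0 1) ^ 2)) * hpq
    nlinarith [sq_nonneg (em t (s.1 0 0) * q - em t (s.1 0 1) * p)]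
  have e2 : o2 t s p q ^ 2 ≤ em t (s.1 1 0) ^ 2 + em t (s.1 1 1) ^ 2 := by
    have : em t (s.1 1 0) ^ 2 + em t (s.1 1 1) ^ 2 - o2 t s p q ^ 2 =
        (em t (s.1 1 0) * q - em t (s.1 1 1) * p) ^ 2 := by
      unfold o2
      linear_combination (-(em t (s.1 1 0) ^ 2 + em t (s.1 1 1) ^ 2)) * hpq
    nlinarith [sq_nonneg (em t (s.1 1 0) * q - em t (s.1 1 1) * p)]
  unfold ln
  calc o1 t s p q ^ 2 + o2 t s p q ^ 2 ≤ 4 * Λ ^ 2 := by linarith
    _ = (2 * Λ) ^ 2 := by ring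

/-- Bounds for the length and for the shear coordinate. -/
theorem ln_bounds {t : ℝ} (ht : t ^ 2 = 2) (s : G) (p q Λ : ℝ) (hpq : p ^ 2 + q ^ 2 = 1)
    (hΛ : 1 ≤ Λ) (hs : nm t s ≤ Λ) : (1 / (2 * Λ)) ^ 2 ≤ ln t s p q ∧ ln t s p q ≤ (2 * Λ) ^ 2 := by
  refine ⟨?_, Geo_ln_le s p q Λ hpq hΛ hs⟩
  have hz := Geo_ln_le s (-q) p Λ (by linarith [hpq]) hΛ hs
  have hd := Geo_det ht s p q hpq
  have hpos : 0 < (2 * Λ) ^ 2 := by positivity
  have hn0 : 0 ≤ ln t s p q := by unfold ln; positivity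
  have h1 : 1 ≤ ln t s p q * ln t s (-q) p := by
    unfold ln
    nlinarith [sq_nonneg (o1 t s p q * o1 t s (-q) p + o2 t s p q * o2 t s (-q) p)]
  have h2 : 1 ≤ ln t s p q * (2 * Λ) ^ 2 := h1.trans (mul_le_mul_of_nonneg_left hz hn0)
  rw [div_pow, one_pow, div_le_iff₀ hpos]
  exact h2

theorem kap_bound {t : ℝ} (ht : t ^ 2 = 2) (s : G) (p q r Λ : ℝ) (hpq : p ^ 2 + q ^ 2 = 1)
    (hΛ : 1 ≤ Λ) (hs : nm t s ≤ Λ) (hr : 0 < r) (h1 : (r / 2) ^ 2 < ln t s p q)  :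
    |kap t s p q| * r ^ 2 ≤ 4 * Λ * r := by
  have hz := Geo_ln_le s (-q) p Λ (by linarith [hpq]) hΛ hs
  have hn0 : 0 < ln t s p q := lt_of_le_of_lt (sq_nonneg _) h1
  have hr4 : r ^ 2 ≤ 4 * ln t s p q := by nlinarith
  have hcs : (o1 t s (-q) p * o1 t s p q + o2 t s (-q) p * o2 t s p q) ^ 2 ≤
      ln t s (-q) p * ln t s p q := by
    unfold ln
    nlinarith [sq_nonneg (o1 t s (-q) p * o2 t s p q - o2 t s (-q) p * o1 t s p q)]
  have h3 : |(o1 t s (-q) p * o1 t s p q + o2 t s (-q) p * o2 t s p q) * r| ≤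
      4 * Λ * ln t s p q := by
    apply abs_le_of_sq_le_sq _ (by positivity)
    calc ((o1 t s (-q) p * o1 t s p q + o2 t s (-q) p * o2 t s p q) * r) ^ 2
        = (o1 t s (-q) p * o1 t s p q + o2 t s (-q) p * o2 t s p q) ^ 2 * r ^ 2 := by ring
      _ ≤ ((2 * Λ) ^ 2 * ln t s p q) * (4 * ln t s p q) := by
          apply mul_le_mul _ hr4 (sq_nonneg _) (by positivity)
          exact hcs.trans (mul_le_mul_of_nonneg_right hz hn0.le)
      _ = (4 * Λ * ln t s p q) ^ 2 := by ring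
  unfold kap
  rw [abs_div, abs_of_pos hn0]
  rw [abs_mul, abs_of_pos hr] at h3
  rw [div_mul_eq_mul_div, div_le_iff₀ hn0]
  calc |o1 t s (-q) p * o1 t s p q + o2 t s (-q) p * o2 t s p q| * r ^ 2
      = (|o1 t s (-q) p * o1 t s p q + o2 t s (-q) p * o2 t s p q| * r) * r := by ring
    _ ≤ (4 * Λ * ln t s p q) * r := mul_le_mul_of_nonneg_right h3 hr.le
    _ = 4 * Λ * r * ln t s p q := by ring

end Pool.Agent.Lib.MP_1620fb_al
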