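import Pool.Agent.Lib.MP_1620fb_al.Sen

/-!
# JOB Grn: growth near the identity

* `summable_of_count_near`: for `h : H` with `nm t h ≤ X` let `k h = ⌈Real.logb 2 (nm (-t) h)⌉₊`; then `nm (-t) h ≤ 2 ^ k` and
  `nm (-t) h ≥ 2 ^ k / 2` (for `k = 0` this is `nm_ge`), so `nm (-t) h ^ (-β) ≤ 2 ^ β (2 ^ k) ^ (-β)`. For every `k` the number of `h` with
  `k h = k` is at most `C (2 ^ k) ^ b`; so for every finite set the sum is at most `∑_k C 2 ^ β (2 ^ k) ^ (b - β)`, a convergent geometric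
  series (`summable_of_sum_le`, `Finset.sum_fiberwise_of_maps_to`; compare `summable_of_count` in Gro.lean). `C ≥ 0` because the number is
  `≥ 0` for `Y = 1`. Sets are finite by `fin_nm`.
* `growth_X`: suppose not: for every `X ≥ 1` there is `C` with `# ≤ C Y ^ b` for all `Y ≥ 1`. Let `b' = max b 1 < 2`, `β = (b' + 2) / 2`; then
  `# ≤ max C 0 * Y ^ b'`, `summable_of_count_near` gives the hypothesis of `series_near` (for `X < 1` use `X = 1`: a subtype of a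
  summable family; e.g. `Summable.comp_injective` or `summable_of_count_near` with `max X 1`).
* `growth_near`: `X` from `growth_X` for `b' = max b 0`; `M, R` from `sep`; for `C` apply `growth_X` to `C' = max C 0 * M * R ^ b'`: there is `Y ≥ 1` with
  `C' Y ^ b' < #_X ≤ M * #_near(R Y)`, so `max C 0 * (R Y) ^ b' < #_near(R Y)`, and `C (R Y) ^ b ≤ max C 0 * (R Y) ^ b'` as `R Y ≥ 1`.
  Drop `near t δ h⁻¹` (a larger, finite, set).
-/

set_option autoImplicit false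

namespace Pool.Agent.Lib.MP_1620fb_al

private theorem Grn_ceil {x : ℝ} (hx : 1 / 2 ≤ x) :
    x ≤ 2 ^ ⌈Real.logb 2 x⌉₊ ∧ (2 : ℝ) ^ ⌈Real.logb 2 x⌉₊ / 2 ≤ x := by
  have hx0 : 0 < x := by linarith
  constructor
  · have h1 : Real.logb 2 x ≤ (⌈Real.logb 2 x⌉₊ : ℝ) := Nat.le_ceil _
    rw [Real.logb_le_iff_le_rpow one_lt_two hx0, Real.rpow_natCast] at h1
    exact h1
  · rcases Nat.eq_zero_or_pos ⌈Real.logb 2 x⌉₊ with h0 | h0
    · rw [h0]
      simpa using hx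
    · obtain ⟨n, hn⟩ : ∃ n, ⌈Real.logb 2 x⌉₊ = n + 1 := ⟨⌈Real.logb 2 x⌉₊ - 1, by omega⟩
      have h1 : (n : ℝ) < Real.logb 2 x := by
        rw [← Nat.lt_ceil, hn]
        exact Nat.lt_succ_self n
      rw [Real.lt_logb_iff_rpow_lt one_lt_two hx0, Real.rpow_natCast] at h1
      rw [hn, pow_succ]
      linarith

private theorem Grn_rpow {x α : ℝ} (hx : 1 / 2 ≤ x) (hα : 0 ≤ α) :
    x ^ (-α) ≤ 2 ^ α * ((2 : ℝ) ^ ⌈Real.logb 2 x⌉₊) ^ (-α) := by
  have h2 := (Grn_ceil hx).2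
  have hp : (0 : ℝ) < 2 ^ ⌈Real.logb 2 x⌉₊ := by positivity
  have h3 : x ^ (-α) ≤ ((2 : ℝ) ^ ⌈Real.logb 2 x⌉₊ / 2) ^ (-α) :=
    Real.rpow_le_rpow_of_nonpos (by positivity) h2 (by linarith)
  refine h3.trans (le_of_eq ?_)
  rw [Real.div_rpow hp.le (by norm_num), Real.rpow_neg (by norm_num : (0 : ℝ) ≤ 2) α, div_inv_eq_mul,
    mul_comm]

private theorem Grn_pow (c d : ℝ) (j : ℕ) :
    ((2 : ℝ) ^ j) ^ c * ((2 : ℝ) ^ j) ^ (-d) = ((2 : ℝ) ^ (c - d)) ^ j := by
  have hp : (0 : ℝ) < 2 ^ j := by positivity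
  rw [← Real.rpow_add hp, ← Real.rpow_natCast 2 j, ← Real.rpow_mul (by norm_num),
    ← Real.rpow_natCast, ← Real.rpow_mul (by norm_num)]
  ring_nf

private theorem Grn_geom {r : ℝ} (hr : 0 ≤ r) (hr1 : r < 1) (N : ℕ) :
    ∑ j ∈ Finset.range N, r ^ j ≤ (1 - r)⁻¹ := by
  rw [← tsum_geometric_of_lt_one hr hr1]
  exact (summable_geometric_of_lt_one hr hr1).sum_le_tsum _ (fun i _ => pow_nonneg hr i)

theorem summable_of_count_near {t : ℝ} (ht : t ^ 2 = 2) (H : Subgroup G) (X C b β : ℝ)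
    (hβ : 0 ≤ β) (hb : b < β)
    (h : ∀ Y : ℝ, 1 ≤ Y →
      ({h : G | h ∈ H ∧ nm t h ≤ X ∧ nm (-t) h ≤ Y}.ncard : ℝ) ≤ C * Y ^ b) :
    Summable fun h : {h : H // nm t (h : G) ≤ X} => nm (-t) ((h : H) : G) ^ (-β) := by
  classical
  have ht' : (-t) ^ 2 = 2 := by rw [neg_sq, ht]
  have hC : 0 ≤ C := by
    have h1 := h 1 le_rfl
    rw [Real.one_rpow, mul_one] at h1
    exact (Nat.cast_nonneg _).trans h1
  set K : {h : H // nm t (h : G) ≤ X} → ℕ := fun g => ⌈Real.logb 2 (nm (-t) ((g : H) : G))⌉₊ with hK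
  set s : ℝ := (2 : ℝ) ^ (b - β) with hs
  have hs0 : 0 < s := Real.rpow_pos_of_pos (by norm_num) _
  have hs1 : s < 1 := Real.rpow_lt_one_of_one_lt_of_neg (by norm_num) (by linarith)
  have hnt' : ∀ g : G, 0 < nm (-t) g := fun g => lt_of_lt_of_le (by norm_num) (nm_ge ht' g)
  have h2β : (0 : ℝ) < 2 ^ β := Real.rpow_pos_of_pos (by norm_num) _
  set f : {h : H // nm t (h : G) ≤ X} → ℝ := fun g => nm (-t) ((g : H) : G) ^ (-β) with hf
  refine summable_of_sum_le (f := f) (c := C * 2 ^ β * (1 - s)⁻¹) ?_ ?_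
  · intro g
    exact Real.rpow_nonneg (hnt' _).le _
  · intro u
    set N : ℕ := u.sup K + 1 with hN
    have hmaps : ∀ g ∈ u, K g ∈ Finset.range N := by
      intro g hg
      rw [Finset.mem_range]
      have h2 : K g ≤ u.sup K := Finset.le_sup hg
      omega
    rw [← Finset.sum_fiberwise_of_maps_to hmaps]
    have hcell : ∀ k ∈ Finset.range N, ∑ g ∈ u with K g = k, f g ≤ C * 2 ^ β * s ^ k := by
      intro k _
      set B : ℝ := 2 ^ β * ((2 : ℝ) ^ k) ^ (-β) with hB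
      have hB0 : 0 ≤ B := by positivity
      have h1 : ∀ g ∈ u.filter (fun g => K g = k), f g ≤ B := by
        intro g hg
        have hk : K g = k := (Finset.mem_filter.mp hg).2
        have h4 := Grn_rpow (nm_ge ht' ((g : H) : G)) hβ
        have h6 : ⌈Real.logb 2 (nm (-t) ((g : H) : G))⌉₊ = k := hk
        rw [h6] at h4
        exact h4
      have h7 := Finset.sum_le_card_nsmul _ _ _ h1
      rw [nsmul_eq_mul] at h7
      have h8 : ((u.filter (fun g => K g = k)).card : ℝ) ≤ C * ((2 : ℝ) ^ k) ^ b := by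
        have h9 := h ((2 : ℝ) ^ k) (one_le_pow₀ (by norm_num))
        refine le_trans ?_ h9
        have hfin : {h : G | h ∈ H ∧ nm t h ≤ X ∧ nm (-t) h ≤ (2 : ℝ) ^ k}.Finite :=
          (fin_nm ht X ((2 : ℝ) ^ k)).subset (fun g hg => hg.2)
        have hinj : Function.Injective (fun g : {h : H // nm t (h : G) ≤ X} => ((g : H) : G)) :=
          fun a c hac => Subtype.ext (Subtype.ext hac)
        have h10 : (((u.filter (fun g => K g = k)).map ⟨_, hinj⟩ : Finset G) : Set G) ⊆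
            {h : G | h ∈ H ∧ nm t h ≤ X ∧ nm (-t) h ≤ (2 : ℝ) ^ k} := by
          intro x hx
          rw [Finset.coe_map] at hx
          obtain ⟨g, hg, rfl⟩ := hx
          have hk : K g = k := (Finset.mem_filter.mp (Finset.mem_coe.mp hg)).2
          refine ⟨g.1.2, g.2, ?_⟩
          have h5 := (Grn_ceil (nm_ge ht' ((g : H) : G))).1
          have h6 : ⌈Real.logb 2 (nm (-t) ((g : H) : G))⌉₊ = k := hk
          rw [h6] at h5
          exact h5
        have h11 := Set.ncard_le_ncard h10 hfin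
        rw [Set.ncard_coe_finset, Finset.card_map] at h11
        exact_mod_cast h11
      calc ∑ g ∈ u with K g = k, f g
          ≤ ((u.filter (fun g => K g = k)).card : ℝ) * B := h7
        _ ≤ (C * ((2 : ℝ) ^ k) ^ b) * B := mul_le_mul_of_nonneg_right h8 hB0
        _ = C * 2 ^ β * (((2 : ℝ) ^ k) ^ b * ((2 : ℝ) ^ k) ^ (-β)) := by rw [hB]; ring
        _ = C * 2 ^ β * s ^ k := by rw [Grn_pow]
    refine (Finset.sum_le_sum hcell).trans ?_
    rw [← Finset.mul_sum]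
    exact mul_le_mul_of_nonneg_left (Grn_geom hs0.le hs1 N) (by positivity)

theorem growth_X {t : ℝ} (ht : t ^ 2 = 2) (H : Subgroup G) (hH : CoAmenable H) (b : ℝ)
    (hb : b < 2) : ∃ X : ℝ, 1 ≤ X ∧ ∀ C : ℝ, ∃ Y : ℝ, 1 ≤ Y ∧
      C * Y ^ b < ({h : G | h ∈ H ∧ nm t h ≤ X ∧ nm (-t) h ≤ Y}.ncard : ℝ) := by
  by_contra hcon
  push Not at hcon
  have hb1 : b ≤ max b 1 := le_max_left _ _
  have hb0 : 1 ≤ max b 1 := le_max_right _ _
  have hb2 : max b 1 < 2 := max_lt hb (by norm_num)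
  refine series_near (H := H) ht (β := (max b 1 + 2) / 2) (by linarith) (by linarith) ?_ hH
  intro X
  obtain ⟨C, hC⟩ := hcon (max X 1) (le_max_right _ _)
  have hcount : ∀ Y : ℝ, 1 ≤ Y →
      ({h : G | h ∈ H ∧ nm t h ≤ max X 1 ∧ nm (-t) h ≤ Y}.ncard : ℝ) ≤ max C 0 * Y ^ max b 1 := by
    intro Y hY
    refine (hC Y hY).trans ?_
    have hY0 : 0 ≤ Y := by linarith
    exact mul_le_mul (le_max_left _ _) (Real.rpow_le_rpow_of_exponent_le hY hb1)
      (Real.rpow_nonneg hY0 _) (le_max_right _ _)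
  have hsum := summable_of_count_near ht H (max X 1) (max C 0) (max b 1) ((max b 1 + 2) / 2)
    (by linarith) (by linarith) hcount
  have hinj : Function.Injective (fun h : {h : H // nm t (h : G) ≤ X} =>
      (⟨h.1, h.2.trans (le_max_left _ _)⟩ : {h : H // nm t (h : G) ≤ max X 1})) := by
    intro a c hac
    have h1 : a.1 = c.1 := by
      have h2 := congrArg Subtype.val hac
      exact h2
    exact Subtype.ext h1
  have h3 := hsum.comp_injective hinj
  exact h3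

theorem growth_near {t : ℝ} (ht : t ^ 2 = 2) (H : Subgroup G) (hH : CoAmenable H) (δ b C : ℝ)
    (hδ : 0 < δ) (hb : b < 2) : ∃ Y : ℝ, 1 ≤ Y ∧
      C * Y ^ b < ({h : G | h ∈ H ∧ near t δ h ∧ nm (-t) h ≤ Y}.ncard : ℝ) := by
  have hb2 : max b 0 < 2 := max_lt hb (by norm_num)
  obtain ⟨X, hX, hgr⟩ := growth_X ht H hH (max b 0) hb2
  obtain ⟨M, R, hM, hR, hsep⟩ := sep ht H X δ hX hδ
  obtain ⟨Y, hY, hlt⟩ := hgr (max C 0 * M * R ^ max b 0)
  have hRY : 1 ≤ R * Y := one_le_mul_of_one_le_of_one_le hR hY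
  refine ⟨R * Y, hRY, ?_⟩
  have h1 := hlt.trans_le (hsep Y)
  have h2 : M * (max C 0 * (R * Y) ^ max b 0) <
      M * ({h : G | h ∈ H ∧ near t δ h ∧ near t δ h⁻¹ ∧ nm (-t) h ≤ R * Y}.ncard : ℝ) := by
    refine lt_of_eq_of_lt ?_ h1
    rw [Real.mul_rpow (by linarith) (by linarith)]
    ring
  have h3 := lt_of_mul_lt_mul_left h2 hM.le
  have h4 : C * (R * Y) ^ b ≤ max C 0 * (R * Y) ^ max b 0 :=
    mul_le_mul (le_max_left _ _) (Real.rpow_le_rpow_of_exponent_le hRY (le_max_left _ _))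
      (Real.rpow_nonneg (by linarith) _) (le_max_right _ _)
  refine lt_of_le_of_lt h4 (lt_of_lt_of_le h3 ?_)
  have hfin : {h : G | h ∈ H ∧ near t δ h ∧ nm (-t) h ≤ R * Y}.Finite := by
    refine (fin_nm ht (1 + δ) (R * Y)).subset fun g hg => ⟨nm_le fun i j => ?_, hg.2.2⟩
    have h5 := hg.2.1 i j
    have h6 : |em t ((1 : G).1 i j)| ≤ 1 := (nm_entry t 1 i j).trans (nm_one t).le
    have h7 : em t (g.1 i j) = (em t (g.1 i j) - em t ((1 : G).1 i j)) + em t ((1 : G).1 i j) := by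
      ring
    rw [h7]
    refine (abs_add_le _ _).trans ?_
    linarith
  have hsub : {h : G | h ∈ H ∧ near t δ h ∧ near t δ h⁻¹ ∧ nm (-t) h ≤ R * Y} ⊆
      {h : G | h ∈ H ∧ near t δ h ∧ nm (-t) h ≤ R * Y} :=
    fun g hg => ⟨hg.1, hg.2.1, hg.2.2.2⟩
  exact_mod_cast Set.ncard_le_ncard hsub hfin

end Pool.Agent.Lib.MP_1620fb_al
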