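import Pool.Agent.Lib.MP_1620fb_al.Lay

/-!
# JOB Keb: Kesten's criterion with bounded functions

PROOF. Let `F s x = ⌊16 * J s x⌋₊ ≤ 16`. (1) `∑_{s ∈ S} F s x ≤ 16 |S| / 8 = 2 |S|`, so by `lay_sum` and `lay_le` (with `c = 2 |S|`)
`∑_{s ∈ S} lay m 16 (F s) ≤ 2 |S|`. (2) For `s ∈ S`: `F s x + F s⁻¹ (s • x) > 16 (J s x + J s⁻¹ (s • x)) - 2 ≥ 6`, so it is at least `7`,
and by `lay_inv`, `lay_add` (`L = L' = 16`), `le_lay` (`c = 7`): `lay m 16 (F s) + lay m 16 (F s⁻¹) ≥ 7`.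
(3) `∑_{s ∈ S} lay m 16 (F s⁻¹) = ∑_{s ∈ S} lay m 16 (F s)` (reindex by the inverse), so `7 |S| ≤ 2 * 2 |S| = 4 |S|`, a contradiction as
`|S| > 0`.
-/

set_option autoImplicit false

namespace Pool.Agent.Lib.MP_1620fb_al

open Finset

theorem kesten_box {Γ X : Type*} [Group Γ] [MulAction Γ X] {m : Set X → ℝ} (hm : IsInvMean Γ m)
    (S : Finset Γ) (hS : S.Nonempty) (hsym : ∀ s ∈ S, s⁻¹ ∈ S) (J : Γ → X → ℝ)
    (h0 : ∀ s ∈ S, ∀ x, 0 ≤ J s x) (h1 : ∀ s ∈ S, ∀ x, J s x ≤ 1)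
    (hsum : ∀ x, ∑ s ∈ S, J s x ≤ (S.card : ℝ) / 8)
    (hinv : ∀ s ∈ S, ∀ x, 1 / 2 ≤ J s x + J s⁻¹ (s • x)) : False := by
  classical
  have hcard : (0 : ℝ) < S.card := by exact_mod_cast hS.card_pos
  set F : Γ → X → ℕ := fun s x => ⌊(16 : ℝ) * J s x⌋₊ with hF
  have hFL : ∀ s ∈ S, ∀ x, F s x ≤ 16 := by
    intro s hs x
    have h2 : ((16 : ℕ) : ℝ) = 16 := by norm_num
    have h3 : F s x ≤ ⌊((16 : ℕ) : ℝ)⌋₊ := by
      refine Nat.floor_le_floor ?_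
      rw [h2]
      linarith [h1 s hs x]
    rwa [Nat.floor_natCast] at h3
  -- the upper bound
  have hup : ∑ s ∈ S, lay m 16 (F s) ≤ 2 * (S.card : ℝ) := by
    rw [← lay_sum hm S 16 F hFL]
    have h2 : ∀ x, ∑ s ∈ S, F s x ≤ 2 * S.card := by
      intro x
      have h3 : ((∑ s ∈ S, F s x : ℕ) : ℝ) ≤ ((2 * S.card : ℕ) : ℝ) := by
        rw [Nat.cast_sum]
        calc ∑ s ∈ S, ((F s x : ℕ) : ℝ) ≤ ∑ s ∈ S, (16 : ℝ) * J s x := by
              refine Finset.sum_le_sum fun s hs => ?_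
              exact Nat.floor_le (mul_nonneg (by norm_num) (h0 s hs x))
          _ = 16 * ∑ s ∈ S, J s x := by rw [Finset.mul_sum]
          _ ≤ 16 * ((S.card : ℝ) / 8) :=
              mul_le_mul_of_nonneg_left (hsum x) (by norm_num)
          _ = ((2 * S.card : ℕ) : ℝ) := by
              push_cast
              ring
      exact_mod_cast h3
    refine (lay_le hm _ _ _ h2).trans ?_
    push_cast
    exact le_rfl
  -- the lower bound
  have hlow : ∀ s ∈ S, (7 : ℝ) ≤ lay m 16 (F s) + lay m 16 (F s⁻¹) := by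
    intro s hs
    have h2 := lay_inv hm 16 (F s⁻¹) s
    have h3 := lay_add hm 16 16 (F s) (fun x => F s⁻¹ (s • x)) (hFL s hs)
      (fun x => hFL s⁻¹ (hsym s hs) (s • x))
    rw [← h2, ← h3]
    have h4 : ∀ x, 7 ≤ F s x + F s⁻¹ (s • x) := by
      intro x
      have e1 := Nat.sub_one_lt_floor ((16 : ℝ) * J s x)
      have e2 := Nat.sub_one_lt_floor ((16 : ℝ) * J s⁻¹ (s • x))
      have e3 := hinv s hs x
      have e4 : ((6 : ℕ) : ℝ) < ((F s x + F s⁻¹ (s • x) : ℕ) : ℝ) := by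
        simp only [hF]
        push_cast
        linarith
      have e5 := Nat.cast_lt.1 e4
      omega
    have h5 := le_lay hm (16 + 16) 7 (fun x => F s x + F s⁻¹ (s • x)) (by omega) h4
    exact_mod_cast h5
  have hinv' : ∑ s ∈ S, lay m 16 (F s⁻¹) = ∑ s ∈ S, lay m 16 (F s) := by
    refine Finset.sum_nbij' (fun s => s⁻¹) (fun s => s⁻¹) hsym hsym ?_ ?_ ?_
    · intro s _
      exact inv_inv s
    · intro s _
      exact inv_inv s
    · intro s _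
      rfl
  have hs2 := Finset.sum_le_sum hlow
  rw [Finset.sum_add_distrib, hinv', Finset.sum_const, nsmul_eq_mul] at hs2
  nlinarith

end Pool.Agent.Lib.MP_1620fb_al
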