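import Pool.Agent.Lib.MP_1620fb_al.Defs

/-!
# JOB Lay: integration of bounded `ℕ`-valued functions with respect to a finitely additive measure

`lay m L F = ∑_{k < L} m {x | k < F x}` is the integral of `F` when `F ≤ L`.
* finite additivity gives `m ∅ = 0`, monotonicity, and `m A = ∑ m (A ∩ B i)` for finite partitions.
* `lay_ind` (auxiliary): if `F ≤ L` and `A` is a set, then for `F' = F + 1_A`:
  `{k < F'} = {k < F} ∪ ({F = k} ∩ A)` (disjoint), so `lay m (L+1) F' = lay m (L+1) F + ∑_{k ≤ L} m ({F = k} ∩ A)
  = lay m L F + m A`.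
* `lay_add`: by induction on `L'`: `F' = F'' + 1_{L' ≤ F'}` with `F'' = min F' (L' - 1)`, or write
  `F' = ∑_{k < L'} 1_{k < F'}` and add the indicators one at a time with `lay_ind`.
* `lay_sum`: induction on `S` with `lay_add`.
* `lay_le`, `le_lay`: monotonicity of `m` (`{k < F} = ∅` for `k ≥ c`, `{k < F} = univ` for `k < c`).
* `lay_inv`: `{x | k < F (s • x)}` is the image of `{x | k < F x}` under `s⁻¹`.
-/

set_option autoImplicit false

namespace Pool.Agent.Lib.MP_1620fb_al

open Finset

/-- The integral of a function `F : X → ℕ`, `F ≤ L`. -/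
noncomputable def lay {X : Type*} (m : Set X → ℝ) (L : ℕ) (F : X → ℕ) : ℝ :=
  ∑ k ∈ range L, m {x | k < F x}

variable {Γ X : Type*} [Group Γ] [MulAction Γ X] {m : Set X → ℝ}

private theorem Lay_empty (hm : IsInvMean Γ m) : m ∅ = 0 := by
  have h := hm.add ∅ ∅ (by simp)
  rw [Set.empty_union] at h
  linarith

private theorem Lay_mono (hm : IsInvMean Γ m) {A B : Set X} (h : A ⊆ B) : m A ≤ m B := by
  have h1 := hm.add A (B \ A) Set.disjoint_sdiff_right
  rw [Set.union_sdiff_cancel h] at h1
  have h2 := hm.nonneg (B \ A)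
  linarith

private theorem Lay_le_one (hm : IsInvMean Γ m) (A : Set X) : m A ≤ 1 := by
  rw [← hm.univ]
  exact Lay_mono hm (Set.subset_univ _)

private theorem Lay_part (hm : IsInvMean Γ m) (A : Set X) (F : X → ℕ) (n : ℕ) :
    ∑ k ∈ range n, m ({x | F x = k} ∩ A) = m ({x | F x < n} ∩ A) := by
  induction n with
  | zero => simp [Lay_empty hm]
  | succ n ih =>
    rw [Finset.sum_range_succ, ih, ← hm.add]
    · congr 1
      ext x
      simp only [Set.mem_union, Set.mem_inter_iff, Set.mem_ofPred_eq]
      constructor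
      · rintro (⟨h1, h2⟩ | ⟨h1, h2⟩)
        · exact ⟨by omega, h2⟩
        · exact ⟨by omega, h2⟩
      · rintro ⟨h1, h2⟩
        rcases Nat.lt_succ_iff_lt_or_eq.mp h1 with h | h
        · exact Or.inl ⟨h, h2⟩
        · exact Or.inr ⟨h, h2⟩
    · rw [Set.disjoint_left]
      rintro x ⟨h1, -⟩ ⟨h2, -⟩
      simp only [Set.mem_ofPred_eq] at h1 h2
      omega

private theorem Lay_ind (hm : IsInvMean Γ m) (L : ℕ) (F F' : X → ℕ) (A : Set X)
    (hF : ∀ x, F x ≤ L) (h1 : ∀ x ∈ A, F' x = F x + 1) (h2 : ∀ x, x ∉ A → F' x = F x) :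
    lay m (L + 1) F' = lay m L F + m A := by
  have e1 : ∀ k, m {x | k < F' x} = m {x | k < F x} + m ({x | F x = k} ∩ A) := by
    intro k
    rw [← hm.add]
    · congr 1
      ext x
      simp only [Set.mem_union, Set.mem_inter_iff, Set.mem_ofPred_eq]
      by_cases hx : x ∈ A
      · rw [h1 x hx]
        constructor
        · intro h
          rcases Nat.lt_succ_iff_lt_or_eq.mp h with h | h
          · exact Or.inl h
          · exact Or.inr ⟨h.symm, hx⟩
        · rintro (h | ⟨h, -⟩) <;> omega
      · rw [h2 x hx]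
        constructor
        · exact fun h => Or.inl h
        · rintro (h | ⟨-, h⟩)
          · exact h
          · exact absurd h hx
    · rw [Set.disjoint_left]
      rintro x h3 ⟨h4, -⟩
      simp only [Set.mem_ofPred_eq] at h3 h4
      omega
  unfold lay
  rw [Finset.sum_congr rfl (fun k _ => e1 k), Finset.sum_add_distrib, Lay_part hm A F (L + 1),
    Finset.sum_range_succ]
  have e2 : {x | L < F x} = (∅ : Set X) := by
    ext x
    simp only [Set.mem_ofPred_eq, Set.mem_empty_iff_false, iff_false, not_lt]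
    exact hF x
  have e3 : {x | F x < L + 1} ∩ A = A := by
    ext x
    simp only [Set.mem_inter_iff, Set.mem_ofPred_eq, and_iff_right_iff_imp]
    intro _
    have := hF x
    omega
  rw [e2, e3, Lay_empty hm, add_zero]

theorem lay_add (hm : IsInvMean Γ m) (L L' : ℕ) (F F' : X → ℕ) (hF : ∀ x, F x ≤ L)
    (hF' : ∀ x, F' x ≤ L') : lay m (L + L') (fun x => F x + F' x) = lay m L F + lay m L' F' := by
  induction L' generalizing F' with
  | zero =>
    have e : (fun x => F x + F' x) = F := by
      funext x
      have := hF' x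
      omega
    rw [e]
    simp [lay]
  | succ L' ih =>
    have hA1 : ∀ x ∈ {x | L' < F' x}, F' x = min (F' x) L' + 1 := by
      intro x hx
      simp only [Set.mem_ofPred_eq] at hx
      have := hF' x
      omega
    have hA2 : ∀ x, x ∉ {x | L' < F' x} → F' x = min (F' x) L' := by
      intro x hx
      simp only [Set.mem_ofPred_eq] at hx
      omega
    have h1 := ih (fun x => min (F' x) L') (fun x => min_le_right _ _)
    have h2 := Lay_ind hm (L + L') (fun x => F x + min (F' x) L') (fun x => F x + F' x)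
      {x | L' < F' x} (fun x => add_le_add (hF x) (min_le_right _ _))
      (fun x hx => by
        have := hA1 x hx
        omega)
      (fun x hx => by
        have := hA2 x hx
        omega)
    have h3 := Lay_ind hm L' (fun x => min (F' x) L') F' {x | L' < F' x}
      (fun x => min_le_right _ _) hA1 hA2
    rw [← add_assoc, h2, h1, h3, add_assoc]

theorem lay_sum (hm : IsInvMean Γ m) {ι : Type*} (S : Finset ι) (L : ℕ) (F : ι → X → ℕ)
    (hF : ∀ i ∈ S, ∀ x, F i x ≤ L) :
    lay m (S.card * L) (fun x => ∑ i ∈ S, F i x) = ∑ i ∈ S, lay m L (F i) := by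
  classical
  induction S using Finset.induction_on with
  | empty => simp [lay]
  | insert a S ha ih =>
    have h1 := ih (fun i hi => hF i (Finset.mem_insert_of_mem hi))
    have hb : ∀ x, ∑ i ∈ S, F i x ≤ S.card * L := by
      intro x
      have := Finset.sum_le_card_nsmul S (fun i => F i x) L
        (fun i hi => hF i (Finset.mem_insert_of_mem hi) x)
      simpa using this
    have h2 := lay_add hm L (S.card * L) (F a) (fun x => ∑ i ∈ S, F i x)
      (hF a (Finset.mem_insert_self a S)) hb
    rw [Finset.sum_insert ha, ← h1, ← h2, Finset.card_insert_of_notMem ha]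
    have e1 : (S.card + 1) * L = L + S.card * L := by ring
    rw [e1]
    congr 1
    funext x
    rw [Finset.sum_insert ha]

theorem lay_le (hm : IsInvMean Γ m) (L c : ℕ) (F : X → ℕ) (hF : ∀ x, F x ≤ c) : lay m L F ≤ c := by
  unfold lay
  have h1 : ∀ k ∈ range L, m {x | k < F x} ≤ if k < c then (1 : ℝ) else 0 := by
    intro k _
    split_ifs with h
    · exact Lay_le_one hm _
    · have e : {x | k < F x} = (∅ : Set X) := by
        ext x
        simp only [Set.mem_ofPred_eq, Set.mem_empty_iff_false, iff_false, not_lt]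
        have := hF x
        omega
      rw [e, Lay_empty hm]
  refine (Finset.sum_le_sum h1).trans ?_
  rw [← Finset.sum_filter, Finset.sum_const, nsmul_eq_mul, mul_one]
  have h2 : ((range L).filter (fun k => k < c)).card ≤ (range c).card := by
    refine Finset.card_le_card ?_
    intro k hk
    exact Finset.mem_range.mpr (Finset.mem_filter.mp hk).2
  rw [Finset.card_range] at h2
  exact_mod_cast h2

theorem le_lay (hm : IsInvMean Γ m) (L c : ℕ) (F : X → ℕ) (hc : c ≤ L) (hF : ∀ x, c ≤ F x) :
    (c : ℝ) ≤ lay m L F := by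
  unfold lay
  have h1 : ∑ k ∈ range c, m {x | k < F x} ≤ ∑ k ∈ range L, m {x | k < F x} := by
    refine Finset.sum_le_sum_of_subset_of_nonneg ?_ (fun k _ _ => hm.nonneg _)
    intro k hk
    rw [Finset.mem_range] at hk ⊢
    omega
  refine le_trans ?_ h1
  have h2 : ∀ k ∈ range c, m {x | k < F x} = 1 := by
    intro k hk
    have e : {x | k < F x} = (Set.univ : Set X) := by
      ext x
      simp only [Set.mem_ofPred_eq, Set.mem_univ, iff_true]
      exact lt_of_lt_of_le (Finset.mem_range.mp hk) (hF x)
    rw [e, hm.univ]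
  rw [Finset.sum_congr rfl h2]
  simp

theorem lay_inv (hm : IsInvMean Γ m) (L : ℕ) (F : X → ℕ) (s : Γ) :
    lay m L (fun x => F (s • x)) = lay m L F := by
  unfold lay
  refine Finset.sum_congr rfl ?_
  intro k _
  rw [← hm.inv s⁻¹ {x | k < F x}]
  congr 1
  ext x
  simp only [Set.mem_ofPred_eq, Set.mem_image]
  constructor
  · intro h
    exact ⟨s • x, h, inv_smul_smul s x⟩
  · rintro ⟨y, hy, rfl⟩
    rwa [smul_inv_smul]

end Pool.Agent.Lib.MP_1620fb_al
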