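import Mathlib

/-!
# JOB Phi: a rapidly decreasing function

PROOF. Let `T n = ∑' i : {i // r i ≤ n}, a i` for `n : ℕ`; it is nonnegative and monotone in `n` (`hs`; compare the sums over the two subtypes,
e.g. as sums of indicator functions `∑' i, {i | r i ≤ n}.indicator a i`: `Summable` iff by `summable_subtype_iff_indicator`).
Let `ψ n = 1 / ((n + 1) ^ 2 * (1 + T ((n + 2) ^ 2)))`, positive, at most `1`, antitone, and `φ x = ψ ⌊x⌋₊`, antitone because `⌊·⌋₊` is monotone.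
Let `κ > 0`, and `q : ℕ`, `q ≥ 1`, `q ≥ 1 / κ`. For `i` let `n i = ⌊κ * r i⌋₊`; then `κ r i < n i + 1`, `r i ≤ q (n i + 1)`. So for every `n` the sum of
`a i` over the fibre `{i | n i = n}` exists and is at most `T (q * (n + 1))`, and for `n + 2 ≥ q` this is at most `T ((n + 2) ^ 2)`, so the sum of
`φ (κ r i) a i = ψ n a i` over the fibre is at most `1 / (n + 1) ^ 2` for `n ≥ q`. Hence the family is summable: use
`summable_of_sum_le`: for a finite set `F` of indices `∑_{i ∈ F} = ∑_{n} ∑_{i ∈ F, n i = n} ≤ ∑_{n < q} T (q * (n + 1)) + ∑_n 1 / (n + 1) ^ 2`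
(`Finset.sum_fiberwise_of_maps_to`), a bound independent of `F` (`Real.summable_one_div_nat_pow`, `Summable.sum_le_tsum`).
-/

set_option autoImplicit false

namespace Pool.Agent.Lib.MP_1620fb_al

private theorem phi_fin {ι : Type*} (a r : ι → ℝ) (ha : ∀ i, 0 ≤ a i)
    (hs : ∀ X : ℝ, Summable fun i : {i : ι // r i ≤ X} => a i) (X : ℝ) (F : Finset ι)
    (hF : ∀ i ∈ F, r i ≤ X) : ∑ i ∈ F, a i ≤ ∑' i : {i : ι // r i ≤ X}, a i := by
  classical
  have h1 := (hs X).sum_le_tsum (F.subtype fun i => r i ≤ X) (fun i _ => ha i)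
  refine le_trans (le_of_eq ?_) h1
  rw [Finset.sum_subtype_eq_sum_filter]
  rw [Finset.filter_true_of_mem hF]

private theorem phi_mono {ι : Type*} (a r : ι → ℝ) (ha : ∀ i, 0 ≤ a i)
    (hs : ∀ X : ℝ, Summable fun i : {i : ι // r i ≤ X} => a i) {X Y : ℝ} (h : X ≤ Y) :
    ∑' i : {i : ι // r i ≤ X}, a i ≤ ∑' i : {i : ι // r i ≤ Y}, a i := by
  classical
  refine (hs X).tsum_le_of_sum_le fun s => ?_
  have h1 := phi_fin a r ha hs Y (s.map (Function.Embedding.subtype _)) (by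
    intro i hi
    rw [Finset.mem_map] at hi
    obtain ⟨j, -, rfl⟩ := hi
    exact j.2.trans h)
  rw [Finset.sum_map] at h1
  exact h1

theorem exists_phi {ι : Type*} (a r : ι → ℝ) (ha : ∀ i, 0 ≤ a i) (hr : ∀ i, 0 ≤ r i)
    (hs : ∀ X : ℝ, Summable fun i : {i : ι // r i ≤ X} => a i) :
    ∃ φ : ℝ → ℝ, Antitone φ ∧ (∀ x, 0 < φ x) ∧ (∀ x, φ x ≤ 1) ∧
      ∀ κ : ℝ, 0 < κ → Summable fun i => φ (κ * r i) * a i := by
  classical
  set T : ℝ → ℝ := fun X => ∑' i : {i : ι // r i ≤ X}, a i with hT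
  have hT0 : ∀ X, 0 ≤ T X := fun X => tsum_nonneg fun i => ha i
  have hTm : ∀ X Y : ℝ, X ≤ Y → T X ≤ T Y := fun X Y h => phi_mono a r ha hs h
  have hTF : ∀ (X : ℝ) (F : Finset ι), (∀ i ∈ F, r i ≤ X) → ∑ i ∈ F, a i ≤ T X :=
    fun X F hF => phi_fin a r ha hs X F hF
  set ψ : ℕ → ℝ := fun n => 1 / (((n : ℝ) + 1) ^ 2 * (1 + T (((n : ℝ) + 2) ^ 2))) with hψ
  have hden : ∀ n : ℕ, 0 < ((n : ℝ) + 1) ^ 2 * (1 + T (((n : ℝ) + 2) ^ 2)) := by
    intro n
    have := hT0 (((n : ℝ) + 2) ^ 2)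
    positivity
  have hψpos : ∀ n, 0 < ψ n := fun n => one_div_pos.2 (hden n)
  have hψanti : Antitone ψ := by
    intro n m hnm
    have hnm' : (n : ℝ) ≤ m := by exact_mod_cast hnm
    have hn0 : (0 : ℝ) ≤ n := Nat.cast_nonneg n
    refine one_div_le_one_div_of_le (hden n) ?_
    have h1 := hT0 (((n : ℝ) + 2) ^ 2)
    have h2 := hTm (((n : ℝ) + 2) ^ 2) (((m : ℝ) + 2) ^ 2) (by gcongr)
    gcongr
  have hψone : ∀ n, ψ n ≤ 1 := by
    intro n
    rw [hψ]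
    simp only
    rw [div_le_one (hden n)]
    have h1 := hT0 (((n : ℝ) + 2) ^ 2)
    have hn0 : (0 : ℝ) ≤ n := Nat.cast_nonneg n
    have h2 : (1 : ℝ) ≤ ((n : ℝ) + 1) ^ 2 := by nlinarith
    nlinarith
  have hψT : ∀ n : ℕ, ψ n * T (((n : ℝ) + 2) ^ 2) ≤ 1 / ((n : ℝ) + 1) ^ 2 := by
    intro n
    have h1 := hT0 (((n : ℝ) + 2) ^ 2)
    have hn1 : (0 : ℝ) < ((n : ℝ) + 1) ^ 2 := by positivity
    have h3 : (0 : ℝ) < 1 + T (((n : ℝ) + 2) ^ 2) := by linarith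
    rw [hψ]
    simp only
    rw [div_mul_eq_mul_div, one_mul, div_le_div_iff₀ (hden n) hn1]
    nlinarith
  refine ⟨fun x => ψ ⌊x⌋₊, fun x y hxy => hψanti (Nat.floor_mono hxy), fun x => hψpos _,
    fun x => hψone _, fun κ hκ => ?_⟩
  obtain ⟨q, hq⟩ := exists_nat_ge (1 / κ)
  set g : ℕ → ℝ := fun n => (if n < q then T ((q : ℝ) * ((n : ℝ) + 1)) else 0) +
    1 / ((n : ℝ) + 1) ^ 2 with hg
  have hg0 : ∀ n, 0 ≤ g n := by
    intro n
    have h1 := hT0 ((q : ℝ) * ((n : ℝ) + 1))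
    rw [hg]
    simp only
    split_ifs <;> positivity
  have hgs : Summable g := by
    refine Summable.add ?_ ?_
    · refine summable_of_finite_support ?_
      refine (Set.finite_lt_nat q).subset fun n hn => ?_
      by_contra hc
      apply hn
      have hc' : ¬ n < q := hc
      simp only [if_neg hc']
    · have h1 : Summable fun n : ℕ => 1 / ((n : ℝ)) ^ 2 :=
        Real.summable_one_div_nat_pow.2 (by norm_num)
      have h2 := (summable_nat_add_iff 1).2 h1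
      refine h2.congr fun n => ?_
      push_cast
      rfl
  refine summable_of_sum_le (c := ∑' n, g n) (fun i => mul_nonneg (hψpos _).le (ha i)) fun F => ?_
  obtain ⟨M, hM⟩ : ∃ M : ℕ, ∀ i ∈ F, ⌊κ * r i⌋₊ < M := by
    refine ⟨F.sup (fun i => ⌊κ * r i⌋₊) + 1, fun i hi => ?_⟩
    have := Finset.le_sup (f := fun i => ⌊κ * r i⌋₊) hi
    exact Nat.lt_succ_of_le this
  rw [← Finset.sum_fiberwise_of_maps_to (t := Finset.range M) (g := fun i => ⌊κ * r i⌋₊)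
    (fun i hi => Finset.mem_range.2 (hM i hi))]
  refine le_trans (Finset.sum_le_sum fun n _ => ?_) (hgs.sum_le_tsum _ fun n _ => hg0 n)
  have h1 : ∑ i ∈ F with ⌊κ * r i⌋₊ = n, ψ ⌊κ * r i⌋₊ * a i =
      ψ n * ∑ i ∈ F with ⌊κ * r i⌋₊ = n, a i := by
    rw [Finset.mul_sum]
    refine Finset.sum_congr rfl fun i hi => ?_
    rw [(Finset.mem_filter.1 hi).2]
  have h2 : ∑ i ∈ F with ⌊κ * r i⌋₊ = n, a i ≤ T ((q : ℝ) * ((n : ℝ) + 1)) := by
    refine hTF _ _ fun i hi => ?_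
    have h3 := Nat.lt_floor_add_one (κ * r i)
    rw [(Finset.mem_filter.1 hi).2] at h3
    have h4 : r i ≤ 1 / κ * ((n : ℝ) + 1) := by
      rw [div_mul_eq_mul_div, one_mul, le_div_iff₀ hκ]
      linarith
    refine h4.trans ?_
    gcongr
  rw [h1]
  have h5 : ψ n * ∑ i ∈ F with ⌊κ * r i⌋₊ = n, a i ≤ ψ n * T ((q : ℝ) * ((n : ℝ) + 1)) :=
    mul_le_mul_of_nonneg_left h2 (hψpos n).le
  refine h5.trans ?_
  rw [hg]
  simp only
  by_cases hnq : n < q
  · rw [if_pos hnq]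
    have h6 := hT0 ((q : ℝ) * ((n : ℝ) + 1))
    have h7 : ψ n * T ((q : ℝ) * ((n : ℝ) + 1)) ≤ 1 * T ((q : ℝ) * ((n : ℝ) + 1)) :=
      mul_le_mul_of_nonneg_right (hψone n) h6
    have h8 : (0 : ℝ) ≤ 1 / ((n : ℝ) + 1) ^ 2 := by positivity
    linarith
  · rw [if_neg hnq, zero_add]
    refine le_trans (mul_le_mul_of_nonneg_left (hTm _ (((n : ℝ) + 2) ^ 2) ?_) (hψpos n).le)
      (hψT n)
    have h9 : (q : ℝ) ≤ n := by exact_mod_cast (not_lt.1 hnq)
    have hn0 : (0 : ℝ) ≤ n := Nat.cast_nonneg n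
    nlinarith

end Pool.Agent.Lib.MP_1620fb_al
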