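import Pool.Agent.Lib.MP_1620fb_al.Geo

/-!
# JOB Pig: pigeonhole bound

`F` is a set of `s` with `nm t s ≤ 8`, `nm (-t) s ≤ Λ` which map the unit vector `(p, q)` (in the place `-t`) to a vector of length in
`(r/2, r]`. PROOF. `K0` = the number of `u : G` with `nm t u ≤ 128`, `nm (-t) u ≤ 5` (finite by `fin_nm`). Index
`c s = ⌊kap (-t) s p q * r ^ 2⌋`; by `kap_bound` (for `-t`) it lies in `Finset.Icc ⌊-(4 Λ r)⌋ ⌊4 Λ r⌋`, which has at most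
`8 Λ r + 2` elements. If `c s = c s₀` then `|kap s₀ - kap s| r ^ 2 < 1`, so `nm (-t) (s * s₀⁻¹) ≤ 5` (`geo` for `-t`), and
`nm t (s * s₀⁻¹) ≤ 2 * 8 * 8 = 128` (`nm_mul`, `nm_inv`): the fibres of `c` have at most `K0` elements
(`s ↦ s * s₀⁻¹` is injective). `Finset.card_le_mul_card_image_of_maps_to`.
-/

set_option autoImplicit false

namespace Pool.Agent.Lib.MP_1620fb_al

open Finset

private theorem pig_icc (x : ℝ) (hx : 0 ≤ x) :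
    ((Finset.Icc ⌊-x⌋ ⌊x⌋).card : ℝ) ≤ 2 * x + 2 := by
  rw [Int.card_Icc]
  have h1 : ⌊-x⌋ ≤ ⌊x⌋ := Int.floor_le_floor (by linarith)
  have h2 : (((⌊x⌋ + 1 - ⌊-x⌋).toNat : ℕ) : ℝ) = ((⌊x⌋ + 1 - ⌊-x⌋ : ℤ) : ℝ) := by
    rw [← Int.cast_natCast, Int.toNat_of_nonneg (by omega)]
  rw [h2]
  push_cast
  have h3 := Int.floor_le x
  have h4 := Int.lt_floor_add_one (-x)
  linarith

private theorem pig_nm {t : ℝ} (ht : t ^ 2 = 2) {s s₀ : G} (h : nm t s ≤ 8) (h0 : nm t s₀ ≤ 8) :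
    nm t (s * s₀⁻¹) ≤ 128 := by
  have h1 := nm_mul ht s s₀⁻¹
  rw [nm_inv] at h1
  have h2 := nm_ge ht s
  have h3 := nm_ge ht s₀
  nlinarith [mul_le_mul h h0 (by linarith) (by norm_num : (0 : ℝ) ≤ 8)]

theorem pig {t : ℝ} (ht : t ^ 2 = 2) : ∃ K0 : ℝ, 0 < K0 ∧ ∀ (Λ p q r : ℝ), 1 ≤ Λ →
    p ^ 2 + q ^ 2 = 1 → 0 < r → ∀ F : Finset G,
    (∀ s ∈ F, nm t s ≤ 8 ∧ nm (-t) s ≤ Λ ∧ (r / 2) ^ 2 < ln (-t) s p q ∧ ln (-t) s p q ≤ r ^ 2) →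
    (F.card : ℝ) ≤ K0 * (8 * Λ * r + 2) := by
  classical
  have ht' : (-t) ^ 2 = 2 := by rw [neg_sq]; exact ht
  have hfin := fin_nm ht 128 5
  refine ⟨(hfin.toFinset.card : ℝ) + 1, by positivity, ?_⟩
  intro Λ p q r hΛ hpq hr F hF
  have hmaps : ∀ s ∈ F, ⌊kap (-t) s p q * r ^ 2⌋ ∈ Finset.Icc ⌊-(4 * Λ * r)⌋ ⌊4 * Λ * r⌋ := by
    intro s hs
    obtain ⟨_, h2, h3, _⟩ := hF s hs
    have h5 := kap_bound ht' s p q r Λ hpq hΛ h2 hr h3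
    have h6 : |kap (-t) s p q * r ^ 2| ≤ 4 * Λ * r := by
      rw [abs_mul, abs_of_nonneg (sq_nonneg r)]
      exact h5
    rw [abs_le] at h6
    rw [Finset.mem_Icc]
    exact ⟨Int.floor_le_floor h6.1, Int.floor_le_floor h6.2⟩
  have hfib : ∀ b ∈ Finset.Icc ⌊-(4 * Λ * r)⌋ ⌊4 * Λ * r⌋,
      (F.filter (fun s => ⌊kap (-t) s p q * r ^ 2⌋ = b)).card ≤ hfin.toFinset.card := by
    intro b _
    rcases (F.filter (fun s => ⌊kap (-t) s p q * r ^ 2⌋ = b)).eq_empty_or_nonempty with h0 | ⟨s₀, hs₀⟩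
    · rw [h0]
      simp
    · rw [Finset.mem_filter] at hs₀
      refine Finset.card_le_card_of_injOn (fun s => s * s₀⁻¹) ?_ ?_
      · intro s hs
        rw [Finset.mem_coe, Finset.mem_filter] at hs
        rw [Finset.mem_coe, Set.Finite.mem_toFinset]
        obtain ⟨h1, _, h3, h4⟩ := hF s hs.1
        obtain ⟨h1', _, h3', h4'⟩ := hF s₀ hs₀.1
        refine ⟨pig_nm ht h1 h1', ?_⟩
        refine geo ht' s₀ s p q r hpq hr h3' h4' h3 h4 ?_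
        have h5 : |kap (-t) s₀ p q * r ^ 2 - kap (-t) s p q * r ^ 2| < 1 :=
          Int.abs_sub_lt_one_of_floor_eq_floor (hs₀.2.trans hs.2.symm)
        rw [← sub_mul, abs_mul, abs_of_nonneg (sq_nonneg r)] at h5
        exact h5.le
      · intro s _ s' _ h
        exact mul_right_cancel h
  have hcard := Finset.card_le_mul_card_image_of_maps_to hmaps hfin.toFinset.card hfib
  have h1 : (F.card : ℝ) ≤ (hfin.toFinset.card : ℝ) *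
      ((Finset.Icc ⌊-(4 * Λ * r)⌋ ⌊4 * Λ * r⌋).card : ℝ) := by
    exact_mod_cast hcard
  have hx : 0 ≤ 4 * Λ * r := by positivity
  have h2 := pig_icc (4 * Λ * r) hx
  have h3 : (0 : ℝ) ≤ (hfin.toFinset.card : ℝ) := Nat.cast_nonneg _
  have h4 : 2 * (4 * Λ * r) + 2 = 8 * Λ * r + 2 := by ring
  rw [h4] at h2
  have h5 : 0 ≤ 8 * Λ * r + 2 := by positivity
  nlinarith [mul_le_mul_of_nonneg_left h2 h3]

end Pool.Agent.Lib.MP_1620fb_al
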