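import Pool.Agent.Lib.MP_1620fb_al.Vol

/-!
# JOB Vtw: the two integrals

PROOF. Let `R y = v (A y) / (u y + v (A y)) ∈ [0, 1]` (`0 / 0 = 0`), measurable. The second integrand at `y' = A y` is
`u y / (v (A y) + u y)` (`B A = 1`, as `A B = 1` for square matrices: `Matrix.mul_eq_one_comm`), which is `1 - R y` when `u y + v (A y) ≠ 0`,
in particular for `y ∈ box ∩ A ⁻¹ box` (`u y > 0`). By `act_pres` (`MeasurePreserving.setIntegral_preimage_emb`, the map `act A` is a measurable
equivalence with inverse `act B`; or `MeasurePreserving.integral_comp` with indicator functions)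
`∫_{box} Q = ∫_{A ⁻¹ box} Q ∘ A ≥ ∫_{box ∩ A ⁻¹ box} (1 - R)` (the integrand is nonnegative: `setIntegral_mono_set`), and
`∫_{box} R ≥ ∫_{box ∩ A ⁻¹ box} R`. The sum is at least the volume of `box ∩ A ⁻¹ box`, which is at least `1/32` (`vol_inter`).
All integrals are finite: the integrands are measurable, between `0` and `1`, on sets of finite volume (`vol_box`; the preimage
`A ⁻¹ box` has the same volume).
-/

set_option autoImplicit false

namespace Pool.Agent.Lib.MP_1620fb_al

open MeasureTheory

private theorem Vtw_frac_nonneg {a b : ℝ} (ha : 0 ≤ a) (hb : 0 ≤ b) : 0 ≤ b / (a + b) :=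
  div_nonneg hb (add_nonneg ha hb)

private theorem Vtw_frac_le {a b : ℝ} (ha : 0 ≤ a) (hb : 0 ≤ b) : b / (a + b) ≤ 1 :=
  div_le_one_of_le₀ (le_add_of_nonneg_left ha) (add_nonneg ha hb)

private theorem Vtw_int {f g : Col → ℝ} (hf : Measurable f) (hg : Measurable g)
    (hf0 : ∀ y, 0 ≤ f y) (hg0 : ∀ y, 0 ≤ g y) {s : Set Col} (hs : volume s ≠ ⊤) :
    IntegrableOn (fun y => g y / (f y + g y)) s volume := by
  refine Measure.integrableOn_of_bounded (M := 1) hs ?_ ?_
  · exact (hg.div (hf.add hg)).aestronglyMeasurable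
  · refine Filter.Eventually.of_forall fun y => ?_
    rw [Real.norm_of_nonneg (Vtw_frac_nonneg (hf0 y) (hg0 y))]
    exact Vtw_frac_le (hf0 y) (hg0 y)

theorem vol_two (A B : Matrix (Fin 2) (Fin 2) ℝ) (hAB : A * B = 1) (hA : A.det = 1)
    (h : ∀ i j, |A i j - (1 : Matrix (Fin 2) (Fin 2) ℝ) i j| ≤ 1 / 96)
    (u v : Col → ℝ) (hu : Measurable u) (hv : Measurable v) (hu0 : ∀ y, 0 ≤ u y)
    (hv0 : ∀ y, 0 ≤ v y) (hup : ∀ y ∈ box, 0 < u y) :
    1 / 32 ≤ (∫ y in box, v (act A y) / (u y + v (act A y))) +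
      ∫ y in box, u (act B y) / (v y + u (act B y)) := by
  have hBA : B * A = 1 := mul_eq_one_comm.1 hAB
  have hB : B.det = 1 := by
    have h1 := congrArg Matrix.det hAB
    rw [Matrix.det_mul, hA, one_mul, Matrix.det_one] at h1
    exact h1
  have hpA := act_pres hA
  have hpB := act_pres hB
  have hBAy : ∀ y, act B (act A y) = y := fun y => by rw [act_act, hBA, act_one]
  have hABy : ∀ y, act A (act B y) = y := fun y => by rw [act_act, hAB, act_one]
  let e : Col ≃ᵐ Col :=
    { toFun := act A
      invFun := act B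
      left_inv := hBAy
      right_inv := hABy
      measurable_toFun := hpA.measurable
      measurable_invFun := hpB.measurable }
  have hemb : MeasurableEmbedding (act A) := e.measurableEmbedding
  have hbox : volume box ≠ ⊤ := by
    rw [vol_box]
    exact ENNReal.ofReal_ne_top
  have hpre : volume ((act A) ⁻¹' box) ≠ ⊤ := by
    rw [hpA.measure_preimage_emb hemb]
    exact hbox
  have hI : volume (box ∩ (act A) ⁻¹' box) ≠ ⊤ :=
    ne_top_of_le_ne_top hbox (measure_mono Set.inter_subset_left)
  have hvA : Measurable fun y => v (act A y) := hv.comp hpA.measurable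
  have hvA0 : ∀ y, 0 ≤ v (act A y) := fun y => hv0 _
  have hQ : (∫ y in box, u (act B y) / (v y + u (act B y))) =
      ∫ y in (act A) ⁻¹' box, u y / (v (act A y) + u y) := by
    rw [← hpA.setIntegral_preimage_emb hemb (fun y => u (act B y) / (v y + u (act B y))) box]
    refine integral_congr_ae (Filter.Eventually.of_forall fun y => ?_)
    change u (act B (act A y)) / (v (act A y) + u (act B (act A y))) = _
    rw [hBAy]
  have h1 : (∫ y in box ∩ (act A) ⁻¹' box, v (act A y) / (u y + v (act A y))) ≤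
      ∫ y in box, v (act A y) / (u y + v (act A y)) := by
    refine setIntegral_mono_set (Vtw_int hu hvA hu0 hvA0 hbox) ?_
      (LE.le.eventuallyLE Set.inter_subset_left)
    exact Filter.Eventually.of_forall fun y => Vtw_frac_nonneg (hu0 y) (hvA0 y)
  have h2 : (∫ y in box ∩ (act A) ⁻¹' box, u y / (v (act A y) + u y)) ≤
      ∫ y in (act A) ⁻¹' box, u y / (v (act A y) + u y) := by
    refine setIntegral_mono_set (Vtw_int hvA hu hvA0 hu0 hpre) ?_
      (LE.le.eventuallyLE Set.inter_subset_right)
    exact Filter.Eventually.of_forall fun y => Vtw_frac_nonneg (hvA0 y) (hu0 y)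
  have hmeas : MeasurableSet (box ∩ (act A) ⁻¹' box) :=
    box_meas.inter (hpA.measurable box_meas)
  have h3 : (∫ y in box ∩ (act A) ⁻¹' box, v (act A y) / (u y + v (act A y))) +
      (∫ y in box ∩ (act A) ⁻¹' box, u y / (v (act A y) + u y)) =
      volume.real (box ∩ (act A) ⁻¹' box) := by
    rw [← integral_add (Vtw_int hu hvA hu0 hvA0 hI) (Vtw_int hvA hu hvA0 hu0 hI)]
    rw [setIntegral_congr_fun (g := fun _ => (1 : ℝ)) hmeas]
    · rw [setIntegral_const, smul_eq_mul, mul_one]
    · intro y hy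
      have hp : 0 < u y := hup y hy.1
      have hne : u y + v (act A y) ≠ 0 := (add_pos_of_pos_of_nonneg hp (hvA0 y)).ne'
      change v (act A y) / (u y + v (act A y)) + u y / (v (act A y) + u y) = 1
      rw [add_comm (v (act A y)) (u y), ← add_div, add_comm (v (act A y)) (u y), div_self hne]
  have h4 : 1 / 32 ≤ volume.real (box ∩ (act A) ⁻¹' box) :=
    (ENNReal.ofReal_le_iff_le_toReal hI).1 (vol_inter h)
  rw [hQ]
  linarith

end Pool.Agent.Lib.MP_1620fb_al
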