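import Pool.Agent.Lib.MP_1620fb_al.Fub
import Pool.Agent.Lib.MP_1620fb_al.Phi
import Pool.Agent.Lib.MP_1620fb_al.Keb
import Pool.Agent.Lib.MP_1620fb_al.Vtw
import Pool.Agent.Lib.MP_1620fb_al.Avn

/-!
# JOB Sen: a convergent series near the identity excludes co-amenability

PROOF. `exists_phi` for `ι = H`, `a h = nm (-t) h ^ (-β)`, `r h = nm t h` gives `φ`. `avg_near` with `δ = 1/96`, `η = 1/8` gives `S`.
For `s : G` and `x : G ⧸ H` let `R s x y = uu (s * x.out) (act (mat t s) y) / (uu x.out y + uu (s * x.out) (act (mat t s) y))` and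
`J s x = 16 * ∫ y in box, R s x y`. Apply `kesten_box` to an invariant mean:
* `0 ≤ R ≤ 1` (`uu_nonneg`; `div_le_one_of_le₀`), so `0 ≤ J ≤ 16 * volume box = 1` (`vol_box`; `R s x` is measurable (`uu_meas`, `act` is
  continuous) and bounded, so integrable on the box).
* for `y ∈ box`: `∑_{s ∈ S} R s x y ≤ ∑_{s ∈ S} uu (s * x.out) (act (mat t s) y) / uu x.out y ≤ |S| / 8` (`uu_avg`, `uu_pos`, `cdet_box`), so
  `∑_{s ∈ S} J s x ≤ 16 * (|S| / 8) * (1/16) = |S| / 8` (`integral_finsetSum`, `setIntegral_mono_on`).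
* `J s x + J s⁻¹ (s • x) ≥ 16 * (1/32) = 1/2` by `vol_two` with `A = mat t s`, `B = mat t s⁻¹`, `u = uu x.out`, `v = uu (s * x.out)`:
  `(s • x).out` and `s * x.out` are in the same left coset (`QuotientGroup.eq`, `MulAction.Quotient.smul_coe`, `QuotientGroup.out_eq'`; compare
  Per.lean), so `uu (s • x).out = uu (s * x.out)` and `uu (s⁻¹ * (s • x).out) = uu x.out` by `uu_mul`.
  `near t (1/96) s` is the hypothesis on the entries of `mat t s - 1` (`mat_one`).
-/

set_option autoImplicit false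

namespace Pool.Agent.Lib.MP_1620fb_al

open MeasureTheory Finset

/-- The summand of `kesten_box`. -/
noncomputable def JJ (φ : ℝ → ℝ) (β t : ℝ) (H : Subgroup G) (s g : G) : ℝ :=
  16 * ∫ y in box, uu φ β t H (s * g) (act (mat t s) y) /
    (uu φ β t H g y + uu φ β t H (s * g) (act (mat t s) y))

variable {t : ℝ} {φ : ℝ → ℝ} {β : ℝ} {H : Subgroup G}

/-- `J` does not depend on the representatives. -/
theorem JJ_mul (s g : G) (h₀ : G) (h : h₀ ∈ H) : JJ φ β t H s (g * h₀) = JJ φ β t H s g := by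
  unfold JJ
  have e1 : ∀ y, uu φ β t H (g * h₀) y = uu φ β t H g y := fun y => uu_mul φ β t H g h₀ h y
  have e2 : ∀ y, uu φ β t H (s * (g * h₀)) y = uu φ β t H (s * g) y := fun y => by
    rw [← mul_assoc]
    exact uu_mul φ β t H (s * g) h₀ h y
  simp only [e1, e2]

private theorem Sen_ratio_nonneg (s g : G) (y : Col) :
    0 ≤ uu φ β t H (s * g) (act (mat t s) y) /
      (uu φ β t H g y + uu φ β t H (s * g) (act (mat t s) y)) :=
  div_nonneg (uu_nonneg _ _ _ _ _ _) (add_nonneg (uu_nonneg _ _ _ _ _ _) (uu_nonneg _ _ _ _ _ _))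

private theorem Sen_ratio_le_one (s g : G) (y : Col) :
    uu φ β t H (s * g) (act (mat t s) y) /
      (uu φ β t H g y + uu φ β t H (s * g) (act (mat t s) y)) ≤ 1 :=
  div_le_one_of_le₀ (le_add_of_nonneg_left (uu_nonneg _ _ _ _ _ _))
    (add_nonneg (uu_nonneg _ _ _ _ _ _) (uu_nonneg _ _ _ _ _ _))

theorem JJ_nonneg (s g : G) : 0 ≤ JJ φ β t H s g := by
  unfold JJ
  refine mul_nonneg (by norm_num) (integral_nonneg fun y => ?_)
  exact Sen_ratio_nonneg s g y

private theorem Sen_real_box : (volume : Measure Col).real box = 1 / 16 := by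
  rw [Measure.real, vol_box, ENNReal.toReal_ofReal (by norm_num)]

private theorem Sen_box_lt : (volume : Measure Col) box < ⊤ := by
  rw [vol_box]
  exact ENNReal.ofReal_lt_top

theorem JJ_le_one (hφ : Antitone φ) (s g : G) : JJ φ β t H s g ≤ 1 := by
  unfold JJ
  have h := norm_setIntegral_le_of_norm_le_const (μ := (volume : Measure Col)) (s := box)
    (f := fun y => uu φ β t H (s * g) (act (mat t s) y) /
      (uu φ β t H g y + uu φ β t H (s * g) (act (mat t s) y))) (C := 1) Sen_box_lt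
    (fun y _ => by
      rw [Real.norm_eq_abs, abs_of_nonneg (Sen_ratio_nonneg s g y)]
      exact Sen_ratio_le_one s g y)
  rw [Sen_real_box] at h
  have h2 := (Real.le_norm_self _).trans h
  linarith

private theorem Sen_act_meas (A : Matrix (Fin 2) (Fin 2) ℝ) : Measurable (act A) := by
  have h : Continuous (act A) := by
    unfold act
    fun_prop
  exact h.measurable

private theorem Sen_ratio_meas (hφ : Antitone φ) (s g : G) :
    Measurable (fun y => uu φ β t H (s * g) (act (mat t s) y) /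
      (uu φ β t H g y + uu φ β t H (s * g) (act (mat t s) y))) := by
  have h1 : Measurable (fun y => uu φ β t H (s * g) (act (mat t s) y)) :=
    (uu_meas hφ β t H (s * g)).comp (Sen_act_meas (mat t s))
  exact h1.div ((uu_meas hφ β t H g).add h1)

private theorem Sen_ratio_int (hφ : Antitone φ) (s g : G) :
    IntegrableOn (fun y => uu φ β t H (s * g) (act (mat t s) y) /
      (uu φ β t H g y + uu φ β t H (s * g) (act (mat t s) y))) box (volume : Measure Col) := by
  refine Measure.integrableOn_of_bounded (M := 1) Sen_box_lt.ne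
    (Sen_ratio_meas hφ s g).aestronglyMeasurable (Filter.Eventually.of_forall fun y => ?_)
  rw [Real.norm_eq_abs, abs_of_nonneg (Sen_ratio_nonneg s g y)]
  exact Sen_ratio_le_one s g y

theorem JJ_sum (ht : t ^ 2 = 2) (hφ : Antitone φ) (hp : ∀ x, 0 < φ x) (hβ : 0 ≤ β)
    (hs : ∀ κ : ℝ, 0 < κ → Summable fun h : H => φ (κ * nm t (h : G)) * nm (-t) (h : G) ^ (-β))
    (S : Finset G)
    (hS : ∀ g : G, ∑ s ∈ S, nm (-t) (s * g) ^ (-β) ≤ 1 / 8 * (S.card : ℝ) * nm (-t) g ^ (-β))
    (g : G) : ∑ s ∈ S, JJ φ β t H s g ≤ (S.card : ℝ) / 8 := by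
  unfold JJ
  rw [← Finset.mul_sum, ← integral_finsetSum S (fun s _ => Sen_ratio_int hφ s g)]
  have hle : ∫ y in box, ∑ s ∈ S, uu φ β t H (s * g) (act (mat t s) y) /
      (uu φ β t H g y + uu φ β t H (s * g) (act (mat t s) y)) ≤
      ∫ _ in box, (S.card : ℝ) / 8 := by
    refine setIntegral_mono_on (integrable_finsetSum S (fun s _ => Sen_ratio_int hφ s g))
      (integrableOn_const Sen_box_lt.ne) box_meas (fun y hy => ?_)
    have hy0 := cdet_box hy
    have hpos := uu_pos (H := H) ht hφ hp hβ hs g y hy0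
    calc ∑ s ∈ S, uu φ β t H (s * g) (act (mat t s) y) /
          (uu φ β t H g y + uu φ β t H (s * g) (act (mat t s) y))
        ≤ ∑ s ∈ S, uu φ β t H (s * g) (act (mat t s) y) / uu φ β t H g y := by
          refine Finset.sum_le_sum (fun s _ => ?_)
          exact div_le_div_of_nonneg_left (uu_nonneg _ _ _ _ _ _) hpos
            (le_add_of_nonneg_right (uu_nonneg _ _ _ _ _ _))
      _ = (∑ s ∈ S, uu φ β t H (s * g) (act (mat t s) y)) / uu φ β t H g y := by
          rw [Finset.sum_div]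
      _ ≤ (1 / 8 * (S.card : ℝ) * uu φ β t H g y) / uu φ β t H g y := by
          gcongr
          exact uu_avg ht hφ hp hβ hs S (1 / 8) hS g y hy0
      _ = (S.card : ℝ) / 8 := by
          field_simp
  rw [setIntegral_const, Sen_real_box, smul_eq_mul] at hle
  linarith

theorem JJ_inv (ht : t ^ 2 = 2) (hφ : Antitone φ) (hp : ∀ x, 0 < φ x) (hβ : 0 ≤ β)
    (hs : ∀ κ : ℝ, 0 < κ → Summable fun h : H => φ (κ * nm t (h : G)) * nm (-t) (h : G) ^ (-β))
    (s g : G) (hn : near t (1 / 96) s) : 1 / 2 ≤ JJ φ β t H s g + JJ φ β t H s⁻¹ (s * g) := by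
  have h1 : ∀ i j, |mat t s i j - (1 : Matrix (Fin 2) (Fin 2) ℝ) i j| ≤ 1 / 96 := by
    intro i j
    rw [← mat_one t]
    exact hn i j
  have h2 := vol_two (mat t s) (mat t s⁻¹) (mat_mul_inv ht s) (mat_det ht s) h1
    (uu φ β t H g) (uu φ β t H (s * g)) (uu_meas hφ β t H g) (uu_meas hφ β t H (s * g))
    (uu_nonneg φ β t H g) (uu_nonneg φ β t H (s * g))
    (fun y hy => uu_pos ht hφ hp hβ hs g y (cdet_box hy))
  unfold JJ
  rw [inv_mul_cancel_left]
  linarith

private theorem sen_nm_nonneg (t : ℝ) (g : G) : 0 ≤ nm t g :=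
  le_trans (abs_nonneg _) ((le_max_left _ _).trans (le_max_left _ _))

theorem series_near (ht : t ^ 2 = 2) (hβ : 1 ≤ β) (hβ2 : β < 2)
    (hs : ∀ X : ℝ, Summable fun h : {h : H // nm t (h : G) ≤ X} => nm (-t) ((h : H) : G) ^ (-β)) :
    ¬ CoAmenable H := by
  rintro ⟨m, hm⟩
  have hβ0 : 0 ≤ β := by linarith
  obtain ⟨φ, hφ, hp, -, hsφ⟩ := exists_phi (fun h : H => nm (-t) (h : G) ^ (-β))
    (fun h : H => nm t (h : G)) (fun h => Real.rpow_nonneg (sen_nm_nonneg _ _) _)
    (fun h => sen_nm_nonneg _ _) hs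
  obtain ⟨S, hS, hsym, hnear, havg⟩ := avg_near ht (1 / 96) (by norm_num) (by norm_num) β (1 / 8)
    hβ hβ2 (by norm_num)
  refine kesten_box hm S hS hsym (fun s x => JJ φ β t H s x.out) (fun s _ x => JJ_nonneg s _)
    (fun s _ x => JJ_le_one hφ s _) (fun x => JJ_sum ht hφ hp hβ0 hsφ S havg x.out) ?_
  intro s hs' x
  have h1 : ((s * x.out : G) : G ⧸ H) = (((s • x).out : G) : G ⧸ H) := by
    rw [QuotientGroup.out_eq']
    have h2 : s • ((x.out : G) : G ⧸ H) = ((s * x.out : G) : G ⧸ H) := rfl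
    rw [← h2, QuotientGroup.out_eq']
  rw [QuotientGroup.eq] at h1
  have h3 := JJ_mul (φ := φ) (β := β) (t := t) s⁻¹ (s * x.out) _ h1
  rw [mul_inv_cancel_left] at h3
  change 1 / 2 ≤ JJ φ β t H s x.out + JJ φ β t H s⁻¹ (s • x).out
  rw [h3]
  exact JJ_inv ht hφ hp hβ0 hsφ s x.out (hnear s hs')

end Pool.Agent.Lib.MP_1620fb_al
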