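import Pool.Agent.Lib.MP_1620fb_al.Defn
import Pool.Agent.Lib.MP_1620fb_al.Cnt

/-!
# JOB Sep: elements near the identity of the first factor

* `sep`. Let `δ' = δ / (2 X)` and for `h : G` let `c h = (⌊em t (h i j) / δ'⌋)_{i,j} ∈ ℤ ^ 4`. For `nm t h ≤ X` every coordinate lies in
  `Icc ⌊-X / δ'⌋ ⌊X / δ'⌋`, so `c` takes finitely many values on `E = {h ∈ H | nm t h ≤ X}`. Choose for every value `v` of `c` on `E` a
  representative `k v ∈ E`, `c (k v) = v`. Let `M` be the number of values (at least `1`, or take `M + 1`), `R = max 1 (2 max_v nm (-t) (k v))`.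
  If `h ∈ E` and `k = k (c h)` then `|em t (h i j) - em t (k i j)| < δ'`, so the entries of `h k⁻¹ - 1 = (h - k) k⁻¹` are at most `2 δ' X = δ`
  (`nm_inv`, `nm_entry`), the same for `(h k⁻¹)⁻¹ - 1 = (k - h) h⁻¹`; `h k⁻¹ ∈ H`, and `nm (-t) (h k⁻¹) ≤ 2 nm (-t) h nm (-t) k ≤ R Y`
  (`nm_mul`, `nm_inv`; `nm (-t) h ≥ 1/2 > 0`). The map `h ↦ h k⁻¹` is injective on every fibre of `c`; so the number of `h ∈ E` with
  `nm (-t) h ≤ Y` is at most `M` times the number of the `near` elements (`Finset.card_le_mul_card_image` or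
  `Finset.card_eq_sum_card_fiberwise`). All sets are finite by `fin_nm` (`near t δ h` gives `nm t h ≤ 1 + δ`).
* `many_near`. Apply `sep` to `H = ⊤`, `X = 8`, and `many` to `C' = max C 0 * M * R ^ γ`: there is `Y ≥ 1` with `C' Y ^ γ < #{nm t ≤ 8, nm (-t) ≤ Y}
  ≤ M * #{near, nm (-t) ≤ R Y}`, and `Λ = R Y` works.
-/

set_option autoImplicit false

namespace Pool.Agent.Lib.MP_1620fb_al

open Finset

private theorem Sep_near {t : ℝ} (ht : t ^ 2 = 2) {X δ : ℝ} (hX : 1 ≤ X) (hδ : 0 < δ) {h k : G}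
    (hk : nm t k ≤ X) (hd : ∀ i j, |em t (h.1 i j) - em t (k.1 i j)| ≤ δ / (2 * X)) :
    near t δ (h * k⁻¹) := by
  intro i j
  have hmul : ∀ a b : G, em t ((a * b).1 i j) =
      em t (a.1 i 0) * em t (b.1 0 j) + em t (a.1 i 1) * em t (b.1 1 j) := by
    intro a b
    have h1 : (a * b).1 i j = a.1 i 0 * b.1 0 j + a.1 i 1 * b.1 1 j := by
      change (a.1 * b.1) i j = _
      rw [Matrix.mul_apply, Fin.sum_univ_two]
    rw [h1, em_add, em_mul ht, em_mul ht]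
  have h1 : em t ((1 : G).1 i j) = em t ((k * k⁻¹).1 i j) := by rw [mul_inv_cancel]
  rw [h1, hmul, hmul]
  have h2 : em t (h.1 i 0) * em t ((k⁻¹).1 0 j) + em t (h.1 i 1) * em t ((k⁻¹).1 1 j) -
      (em t (k.1 i 0) * em t ((k⁻¹).1 0 j) + em t (k.1 i 1) * em t ((k⁻¹).1 1 j)) =
      (em t (h.1 i 0) - em t (k.1 i 0)) * em t ((k⁻¹).1 0 j) +
        (em t (h.1 i 1) - em t (k.1 i 1)) * em t ((k⁻¹).1 1 j) := by ring
  rw [h2]
  refine (abs_add_le _ _).trans ?_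
  rw [abs_mul, abs_mul]
  have hX0 : 0 < X := lt_of_lt_of_le one_pos hX
  have h3 : ∀ l, |em t (h.1 i l) - em t (k.1 i l)| * |em t ((k⁻¹).1 l j)| ≤ δ / (2 * X) * X := by
    intro l
    refine mul_le_mul (hd i l) ?_ (abs_nonneg _) (by positivity)
    exact (nm_entry t k⁻¹ l j).trans (by rw [nm_inv]; exact hk)
  have h4 : δ / (2 * X) * X = δ / 2 := by
    field_simp
  have h5 := h3 0
  have h6 := h3 1
  rw [h4] at h5 h6
  linarith

theorem sep {t : ℝ} (ht : t ^ 2 = 2) (H : Subgroup G) (X δ : ℝ) (hX : 1 ≤ X) (hδ : 0 < δ) :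
    ∃ M R : ℝ, 0 < M ∧ 1 ≤ R ∧ ∀ Y : ℝ,
      ({h : G | h ∈ H ∧ nm t h ≤ X ∧ nm (-t) h ≤ Y}.ncard : ℝ) ≤
        M * ({h : G | h ∈ H ∧ near t δ h ∧ near t δ h⁻¹ ∧ nm (-t) h ≤ R * Y}.ncard : ℝ) := by
  classical
  have hX0 : 0 < X := lt_of_lt_of_le one_pos hX
  have ht' : (-t) ^ 2 = 2 := by rw [neg_sq]; exact ht
  set δ' : ℝ := δ / (2 * X) with hδ'
  have hδ'0 : 0 < δ' := by positivity
  let c : G → (Fin 2 × Fin 2 → ℤ) := fun h q => ⌊em t (h.1 q.1 q.2) / δ'⌋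
  let E : Set G := {h | h ∈ H ∧ nm t h ≤ X}
  have hTf : (c '' E).Finite := by
    refine (Set.Finite.pi (t := fun _ : Fin 2 × Fin 2 => Set.Icc ⌊-X / δ'⌋ ⌊X / δ'⌋)
      fun _ => Set.finite_Icc _ _).subset ?_
    rintro _ ⟨h, hh, rfl⟩ q _
    have h1 := (nm_entry t h q.1 q.2).trans hh.2
    rw [abs_le] at h1
    exact ⟨Int.floor_le_floor ((div_le_div_iff_of_pos_right hδ'0).2 h1.1),
      Int.floor_le_floor ((div_le_div_iff_of_pos_right hδ'0).2 h1.2)⟩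
  have hk : ∀ v, ∃ k : G, v ∈ c '' E → k ∈ E ∧ c k = v := by
    intro v
    by_cases hv : v ∈ c '' E
    · obtain ⟨k, hk1, hk2⟩ := hv
      exact ⟨k, fun _ => ⟨hk1, hk2⟩⟩
    · exact ⟨1, fun h => absurd h hv⟩
  choose k hk using hk
  obtain ⟨R0, hR0⟩ : ∃ R0 : ℝ, ∀ v ∈ c '' E, nm (-t) (k v) ≤ R0 := by
    obtain ⟨R0, hR0⟩ := (hTf.image fun v => nm (-t) (k v)).bddAbove
    exact ⟨R0, fun v hv => hR0 ⟨v, hv, rfl⟩⟩
  refine ⟨(c '' E).ncard + 1, max 1 (2 * R0), by positivity, le_max_left _ _, fun Y => ?_⟩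
  set A : Set G := {h : G | h ∈ H ∧ nm t h ≤ X ∧ nm (-t) h ≤ Y} with hA
  set B : Set G := {h : G | h ∈ H ∧ near t δ h ∧ near t δ h⁻¹ ∧ nm (-t) h ≤ max 1 (2 * R0) * Y}
    with hB
  have hBf : B.Finite := by
    refine (fin_nm ht (1 + δ) (max 1 (2 * R0) * Y)).subset ?_
    rintro h ⟨_, h1, _, h2⟩
    refine ⟨nm_le fun i j => ?_, h2⟩
    have h3 := h1 i j
    have h4 : |em t ((1 : G).1 i j)| ≤ 1 := (nm_entry t 1 i j).trans (nm_one t).le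
    have h5 := abs_add_le (em t (h.1 i j) - em t ((1 : G).1 i j)) (em t ((1 : G).1 i j))
    rw [sub_add_cancel] at h5
    linarith
  have hmap : ∀ h ∈ A, h * (k (c h))⁻¹ ∈ B := by
    rintro h ⟨h1, h2, h3⟩
    have hcE : c h ∈ c '' E := ⟨h, ⟨h1, h2⟩, rfl⟩
    obtain ⟨⟨hkH, hkX⟩, hkc⟩ := hk (c h) hcE
    have hd : ∀ i j, |em t (h.1 i j) - em t ((k (c h)).1 i j)| ≤ δ' := by
      intro i j
      have h4 : ⌊em t (h.1 i j) / δ'⌋ = ⌊em t ((k (c h)).1 i j) / δ'⌋ :=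
        (congrFun hkc (i, j)).symm
      have h5 := Int.abs_sub_lt_one_of_floor_eq_floor h4
      rw [← sub_div, abs_div, abs_of_pos hδ'0, div_lt_one hδ'0] at h5
      exact h5.le
    refine ⟨H.mul_mem h1 (H.inv_mem hkH), Sep_near ht hX hδ hkX hd, ?_, ?_⟩
    · rw [mul_inv_rev, inv_inv]
      refine Sep_near ht hX hδ h2 fun i j => ?_
      rw [abs_sub_comm]
      exact hd i j
    · refine (nm_mul ht' _ _).trans ?_
      rw [nm_inv]
      have h6 : 0 ≤ nm (-t) h := le_trans (by norm_num) (nm_ge ht' h)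
      have h7 : 0 ≤ nm (-t) (k (c h)) := le_trans (by norm_num) (nm_ge ht' _)
      have h8 : 2 * nm (-t) (k (c h)) ≤ max 1 (2 * R0) :=
        (mul_le_mul_of_nonneg_left (hR0 _ hcE) (by norm_num)).trans (le_max_right _ _)
      calc 2 * nm (-t) h * nm (-t) (k (c h)) = 2 * nm (-t) (k (c h)) * nm (-t) h := by ring
        _ ≤ max 1 (2 * R0) * Y := mul_le_mul h8 h3 h6 (le_trans zero_le_one (le_max_left _ _))
  have hcard : A.ncard ≤ (c '' E).ncard * B.ncard := by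
    have h9 : ((c '' E) ×ˢ B).ncard = (c '' E).ncard * B.ncard := Set.ncard_prod
    rw [← h9]
    refine Set.ncard_le_ncard_of_injOn (fun h => (c h, h * (k (c h))⁻¹)) ?_ ?_ (hTf.prod hBf)
    · rintro h hh
      exact ⟨⟨h, ⟨hh.1, hh.2.1⟩, rfl⟩, hmap h hh⟩
    · rintro h _ h' _ heq
      obtain ⟨e1, e2⟩ := Prod.mk.inj heq
      rw [e1] at e2
      exact mul_right_cancel e2
  calc (A.ncard : ℝ) ≤ (((c '' E).ncard * B.ncard : ℕ) : ℝ) := by exact_mod_cast hcard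
    _ = ((c '' E).ncard : ℝ) * B.ncard := by push_cast; ring
    _ ≤ ((c '' E).ncard + 1) * B.ncard := by
      refine mul_le_mul_of_nonneg_right ?_ (Nat.cast_nonneg _)
      linarith

theorem many_near {t : ℝ} (ht : t ^ 2 = 2) (δ : ℝ) (hδ : 0 < δ) (γ : ℝ) (hγ : 1 < γ) (hγ2 : γ < 2)
    (C : ℝ) : ∃ Λ : ℝ, 1 ≤ Λ ∧
      C * Λ ^ γ < ({s : G | near t δ s ∧ near t δ s⁻¹ ∧ nm (-t) s ≤ Λ}.ncard : ℝ) := by
  obtain ⟨M, R, hM, hR, h⟩ := sep ht ⊤ 8 δ (by norm_num) hδ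
  obtain ⟨Y, hY, hY2⟩ := many ht γ hγ hγ2 (M * max C 0 * R ^ γ)
  have hR0 : 0 ≤ R := le_trans zero_le_one hR
  have hY0 : 0 ≤ Y := le_trans zero_le_one hY
  refine ⟨R * Y, one_le_mul_of_one_le_of_one_le hR hY, ?_⟩
  have h1 := h Y
  have e1 : {h : G | h ∈ (⊤ : Subgroup G) ∧ nm t h ≤ 8 ∧ nm (-t) h ≤ Y} =
      {s : G | nm t s ≤ 8 ∧ nm (-t) s ≤ Y} := by
    ext s
    exact ⟨fun h => h.2, fun h => ⟨Subgroup.mem_top s, h⟩⟩
  have e2 : {h : G | h ∈ (⊤ : Subgroup G) ∧ near t δ h ∧ near t δ h⁻¹ ∧ nm (-t) h ≤ R * Y} =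
      {s : G | near t δ s ∧ near t δ s⁻¹ ∧ nm (-t) s ≤ R * Y} := by
    ext s
    exact ⟨fun h => h.2, fun h => ⟨Subgroup.mem_top s, h⟩⟩
  rw [e1, e2] at h1
  have h2 := lt_of_lt_of_le hY2 h1
  have h3 : M * max C 0 * R ^ γ * Y ^ γ = M * (max C 0 * (R * Y) ^ γ) := by
    rw [Real.mul_rpow hR0 hY0]
    ring
  rw [h3] at h2
  have h4 := lt_of_mul_lt_mul_left h2 hM.le
  refine lt_of_le_of_lt ?_ h4
  exact mul_le_mul_of_nonneg_right (le_max_left _ _) (Real.rpow_nonneg (mul_nonneg hR0 hY0) _)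

end Pool.Agent.Lib.MP_1620fb_al
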