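import Pool.Agent.Lib.MP_1620fb_al.Defn

/-!
# JOB Vol: Lebesgue measure on pairs of columns

* `vol_sub`: the set is the product of `Set.pi univ` of intervals `Icc`; `MeasureTheory.Measure.volume_eq_prod`, `Measure.prod_prod`,
  `Real.volume_Icc_pi` (or `MeasureTheory.Measure.pi_pi`/`Real.volume_pi_Icc`): the volume is `(2 c) ^ 4`.
* `box_meas`: closed set (or a product of measurable sets).
* `vol_box`: `vol_sub` with `c = 1/4`.
* `act_pres`: `Real.map_matrix_volume_pi_eq_smul_volume_pi` (`det A = 1`) shows that `A.mulVec = toLin' A` preserves the volume of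
  `Fin 2 → ℝ`; then `MeasurePreserving.prod`.
* `act_sub`: for `y` in the small box (`c = 7/32`) and `A` with entries of `A - 1` at most `1/96`: the entries of `A y - y` are at most
  `2 * (1/96) * (1 + 7/32) ≤ 1/32`, so `A y` is in the box.
* `vol_inter`: from `vol_sub` with `c = 7/32` and `act_sub`: `(7/16)^4 ≥ 1/32`.
-/

set_option autoImplicit false

namespace Pool.Agent.Lib.MP_1620fb_al

open MeasureTheory

/-- The box of size `c` around the identity. -/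
def sbox (c : ℝ) : Set Col :=
  {y | |y.1 0 - 1| ≤ c ∧ |y.1 1| ≤ c ∧ |y.2 0| ≤ c ∧ |y.2 1 - 1| ≤ c}

theorem box_eq : box = sbox (1 / 4) := rfl

private theorem vol_sbox_eq (c : ℝ) : sbox c =
    (Set.Icc ![1 - c, -c] ![1 + c, c]) ×ˢ (Set.Icc ![-c, 1 - c] ![c, 1 + c]) := by
  ext y
  obtain ⟨u, v⟩ := y
  simp only [sbox, Set.mem_setOf_eq, Set.mem_prod, Set.mem_Icc, Pi.le_def, Fin.forall_fin_two,
    Matrix.cons_val_zero, Matrix.cons_val_one, abs_le]
  constructor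
  · rintro ⟨⟨h1, h2⟩, ⟨h3, h4⟩, ⟨h5, h6⟩, h7, h8⟩
    refine ⟨⟨⟨?_, ?_⟩, ?_, ?_⟩, ⟨?_, ?_⟩, ?_, ?_⟩ <;> linarith
  · rintro ⟨⟨⟨h1, h2⟩, h3, h4⟩, ⟨h5, h6⟩, h7, h8⟩
    refine ⟨⟨?_, ?_⟩, ⟨?_, ?_⟩, ⟨?_, ?_⟩, ?_, ?_⟩ <;> linarith

theorem vol_sub (c : ℝ) (hc : 0 ≤ c) : volume (sbox c) = ENNReal.ofReal ((2 * c) ^ 4) := by
  have h1 : (1 + c) - (1 - c) = 2 * c := by ring
  have h2 : c - -c = 2 * c := by ring
  rw [vol_sbox_eq, Measure.volume_eq_prod, Measure.prod_prod, Real.volume_Icc_pi,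
    Real.volume_Icc_pi, Fin.prod_univ_two, Fin.prod_univ_two]
  simp only [Matrix.cons_val_zero, Matrix.cons_val_one, h1, h2]
  rw [ENNReal.ofReal_pow (by positivity)]
  ring

theorem box_meas : MeasurableSet box := by
  rw [box_eq, vol_sbox_eq]
  exact measurableSet_Icc.prod measurableSet_Icc

theorem vol_box : volume box = ENNReal.ofReal (1 / 16) := by
  rw [box_eq, vol_sub _ (by norm_num)]
  norm_num

theorem act_pres {A : Matrix (Fin 2) (Fin 2) ℝ} (hA : A.det = 1) :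
    MeasurePreserving (act A) (volume : Measure Col) volume := by
  have h1 : MeasurePreserving (fun v : Fin 2 → ℝ => A.mulVec v)
      (volume : Measure (Fin 2 → ℝ)) volume := by
    refine ⟨?_, ?_⟩
    · exact (Continuous.matrix_mulVec continuous_const continuous_id).measurable
    · have h2 := Real.map_matrix_volume_pi_eq_smul_volume_pi (M := A) (by rw [hA]; exact one_ne_zero)
      rw [hA] at h2
      have h3 : (fun v : Fin 2 → ℝ => A.mulVec v) = ⇑(Matrix.toLin' A) := by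
        funext v
        rw [Matrix.toLin'_apply]
      rw [h3, h2]
      simp
  have h4 := h1.prod h1
  rw [← Measure.volume_eq_prod] at h4
  exact h4

theorem act_sub {A : Matrix (Fin 2) (Fin 2) ℝ}
    (h : ∀ i j, |A i j - (1 : Matrix (Fin 2) (Fin 2) ℝ) i j| ≤ 1 / 96) {y : Col}
    (hy : y ∈ sbox (7 / 32)) : act A y ∈ box := by
  obtain ⟨h1, h2, h3, h4⟩ := hy
  have h00 := h 0 0
  have h01 := h 0 1
  have h10 := h 1 0
  have h11 := h 1 1
  simp only [Matrix.one_apply_eq, Matrix.one_apply_ne (show (0 : Fin 2) ≠ 1 by decide),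
    Matrix.one_apply_ne (show (1 : Fin 2) ≠ 0 by decide), sub_zero] at h00 h01 h10 h11
  have key : ∀ a u : ℝ, |a| ≤ 1 / 96 → |u| ≤ 39 / 32 → |a * u| ≤ 13 / 1024 := by
    intro a u ha hu
    rw [abs_mul]
    have := mul_le_mul ha hu (abs_nonneg _) (by norm_num)
    linarith
  have key2 : ∀ u : ℝ, |u - 1| ≤ 7 / 32 → |u| ≤ 39 / 32 := by
    intro u hu
    rw [abs_le] at hu ⊢
    constructor <;> linarith [hu.1, hu.2]
  have key3 : ∀ u : ℝ, |u| ≤ 7 / 32 → |u| ≤ 39 / 32 := fun u hu => hu.trans (by norm_num)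
  have hy10 := key2 _ h1
  have hy11 := key3 _ h2
  have hy20 := key3 _ h3
  have hy21 := key2 _ h4
  have e1 := abs_le.1 (key _ _ h00 hy10)
  have e2 := abs_le.1 (key _ _ h01 hy11)
  have e3 := abs_le.1 (key _ _ h10 hy10)
  have e4 := abs_le.1 (key _ _ h11 hy11)
  have e5 := abs_le.1 (key _ _ h00 hy20)
  have e6 := abs_le.1 (key _ _ h01 hy21)
  have e7 := abs_le.1 (key _ _ h10 hy20)
  have e8 := abs_le.1 (key _ _ h11 hy21)
  rw [abs_le] at h1 h2 h3 h4
  obtain ⟨p1, p2⟩ := h1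
  obtain ⟨p3, p4⟩ := h2
  obtain ⟨p5, p6⟩ := h3
  obtain ⟨p7, p8⟩ := h4
  have q1 : (act A y).1 0 = A 0 0 * y.1 0 + A 0 1 * y.1 1 := by
    simp [act, Matrix.mulVec, dotProduct, Fin.sum_univ_two]
  have q2 : (act A y).1 1 = A 1 0 * y.1 0 + A 1 1 * y.1 1 := by
    simp [act, Matrix.mulVec, dotProduct, Fin.sum_univ_two]
  have q3 : (act A y).2 0 = A 0 0 * y.2 0 + A 0 1 * y.2 1 := by
    simp [act, Matrix.mulVec, dotProduct, Fin.sum_univ_two]
  have q4 : (act A y).2 1 = A 1 0 * y.2 0 + A 1 1 * y.2 1 := by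
    simp [act, Matrix.mulVec, dotProduct, Fin.sum_univ_two]
  obtain ⟨e1a, e1b⟩ := e1
  obtain ⟨e2a, e2b⟩ := e2
  obtain ⟨e3a, e3b⟩ := e3
  obtain ⟨e4a, e4b⟩ := e4
  obtain ⟨e5a, e5b⟩ := e5
  obtain ⟨e6a, e6b⟩ := e6
  obtain ⟨e7a, e7b⟩ := e7
  obtain ⟨e8a, e8b⟩ := e8
  refine ⟨?_, ?_, ?_, ?_⟩
  · rw [q1, abs_le]
    constructor <;> nlinarith
  · rw [q2, abs_le]
    constructor <;> nlinarith
  · rw [q3, abs_le]
    constructor <;> nlinarith
  · rw [q4, abs_le]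
    constructor <;> nlinarith

theorem vol_inter {A : Matrix (Fin 2) (Fin 2) ℝ}
    (h : ∀ i j, |A i j - (1 : Matrix (Fin 2) (Fin 2) ℝ) i j| ≤ 1 / 96) :
    ENNReal.ofReal (1 / 32) ≤ volume (box ∩ (act A) ⁻¹' box) := by
  have hsub : sbox (7 / 32) ⊆ box ∩ (act A) ⁻¹' box := by
    intro y hy
    refine ⟨?_, act_sub h hy⟩
    obtain ⟨h1, h2, h3, h4⟩ := hy
    exact ⟨h1.trans (by norm_num), h2.trans (by norm_num), h3.trans (by norm_num),
      h4.trans (by norm_num)⟩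
  refine le_trans ?_ (measure_mono hsub)
  rw [vol_sub _ (by norm_num)]
  exact ENNReal.ofReal_le_ofReal (by norm_num)

theorem act_act (A B : Matrix (Fin 2) (Fin 2) ℝ) (y : Col) : act A (act B y) = act (A * B) y := by
  unfold act
  rw [Matrix.mulVec_mulVec, Matrix.mulVec_mulVec]

theorem act_one (y : Col) : act 1 y = y := by
  unfold act
  rw [Matrix.one_mulVec, Matrix.one_mulVec]

end Pool.Agent.Lib.MP_1620fb_al
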